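import Pool.Agent.P.MP_3c2f8c_gt.Ex.ADefs
import Pool.Agent.P.MP_3c2f8c_gt.Gl.Abs2
import Pool.Agent.P.MP_3c2f8c_gt.Gl.Abs3

/-!
The abstract assembly: adelic data, Hecke data and matchings give isospectral manifolds.
-/

namespace Pool.Agent.P.MP_3c2f8c_gt.Ex

variable {P : Type} {U : P → Type} [∀ p, Group (U p)] {G G' : Type} [Group G] [Group G']

variable [∀ p, TopologicalSpace (U p)] [∀ p, IsTopologicalGroup (U p)]
  {K₀ : ∀ p, Subgroup (U p)}

section Transport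

variable {U' : P → Type} [∀ p, Group (U' p)] [∀ p, TopologicalSpace (U' p)]
  [∀ p, IsTopologicalGroup (U' p)] {K₀' : ∀ p, Subgroup (U' p)} {e : ∀ p, U p ≃ₜ* U' p}

namespace AbsBAux

omit [∀ p, IsTopologicalGroup (U p)] [∀ p, IsTopologicalGroup (U' p)] in
theorem mem_ad (he : {p | (K₀' p).comap (e p).toMulEquiv.toMonoidHom ≠ K₀ p}.Finite)
    {u : ∀ p, U p} (hu : u ∈ Ad K₀) : (fun p => e p (u p)) ∈ Ad K₀' :=
  (Set.Finite.union hu he).subset fun p hp => by
    by_contra h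
    simp only [Set.mem_union, Set.mem_ofPred_eq, not_or, not_not] at h
    exact hp (show u p ∈ (K₀' p).comap (e p).toMulEquiv.toMonoidHom from h.2 ▸ h.1)

omit [∀ p, IsTopologicalGroup (U p)] [∀ p, IsTopologicalGroup (U' p)] in
theorem symm_mem_ad {K : ∀ p, Subgroup (U' p)} {u : ∀ p, U' p} (hu : u ∈ Ad K) :
    (fun p => (e p).symm (u p)) ∈ Ad fun p => (K p).comap (e p).toMulEquiv.toMonoidHom :=
  Set.Finite.subset hu fun p hp h => hp (show e p ((e p).symm (u p)) ∈ K p by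
    rwa [ContinuousMulEquiv.apply_symm_apply])

end AbsBAux

theorem Level.comap (he : {p | (K₀' p).comap (e p).toMulEquiv.toMonoidHom ≠ K₀ p}.Finite)
    {K : ∀ p, Subgroup (U' p)} (hK : Level K₀' K) :
    Level K₀ fun p => (K p).comap (e p).toMulEquiv.toMonoidHom := by
  refine ⟨fun p => ⟨(e p).toHomeomorph.isCompact_preimage.2 (hK.1 p).1,
    (hK.1 p).2.preimage (e p).continuous⟩, (hK.2.union he).subset fun p hp => ?_⟩
  by_contra h
  simp only [Set.mem_union, Set.mem_ofPred_eq, not_or, not_not] at h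
  exact hp ((congrArg _ h.1).trans h.2)

omit [∀ p, IsTopologicalGroup (U p)] [∀ p, IsTopologicalGroup (U' p)] in
theorem gam_along (Φ : G →* ∀ p, U p) (K : ∀ p, Subgroup (U' p)) :
    Gam (along e Φ) K = Gam Φ fun p => (K p).comap (e p).toMulEquiv.toMonoidHom := rfl

theorem AdData.along {Φ : G →* ∀ p, U p} {ρ : G →* E6} (D : AdData Φ ρ K₀)
    (he : {p | (K₀' p).comap (e p).toMulEquiv.toMonoidHom ≠ K₀ p}.Finite) :
    AdData (along e Φ) ρ K₀' := by
  refine ⟨fun g => AbsBAux.mem_ad he (D.mem g), fun p => (e p).injective.comp (D.inj p),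
    fun K hK => ?_, fun K hK u hu u' hu' R => ?_, fun K hK p => ?_⟩
  · obtain ⟨R, s, h1, h2, h3⟩ := D.cocpt _ (Level.comap he hK)
    refine ⟨R, (fun r p => e p (r p)) '' s, h1.image _, ?_, fun u hu x => ?_⟩
    · rintro _ ⟨r, hr, rfl⟩
      exact h2 hr
    · obtain ⟨g, r, hr, h4, h5⟩ := h3 _ (AbsBAux.symm_mem_ad hu) x
      refine ⟨g, _, ⟨r, hr, rfl⟩, fun p => ?_, h5⟩
      have : e p ((r p)⁻¹ * (Φ g p)⁻¹ * (e p).symm (u p)) ∈ K p := h4 p
      rwa [map_mul, map_mul, map_inv, map_inv, ContinuousMulEquiv.apply_symm_apply] at this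
  · refine (D.proper _ (Level.comap he hK) _ (AbsBAux.symm_mem_ad hu) _
      (AbsBAux.symm_mem_ad hu') R).subset fun g hg => ⟨fun p => ?_, hg.2⟩
    change e p (((e p).symm (u' p))⁻¹ * Φ g p * (e p).symm (u p)) ∈ K p
    rw [map_mul, map_mul, map_inv, ContinuousMulEquiv.apply_symm_apply,
      ContinuousMulEquiv.apply_symm_apply]
    exact hg.1 p
  · have := (e p).toHomeomorph.isOpenMap _ (D.opn _ (Level.comap he hK) p)
    rw [Subgroup.topologicalClosure_coe, Homeomorph.image_closure, Subgroup.coe_map,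
      Set.image_image] at this
    exact this

omit [∀ p, IsTopologicalGroup (U p)] [∀ p, IsTopologicalGroup (U' p)] in
theorem AdMatch.along {Φ : G →* ∀ p, U' p} {Φ' : G' →* ∀ p, U p} {ρ : G →* E6} {ρ' : G' →* E6}
    {ε : P → ℤ} {Rg : G → Prop}
    (he : {p | (K₀' p).comap (e p).toMulEquiv.toMonoidHom ≠ K₀ p}.Finite)
    (M : AdMatch (Ex.along (fun p => (e p).symm) Φ) Φ' ρ ρ' K₀ ε Rg) :
    AdMatch Φ (Ex.along e Φ') ρ ρ' K₀' ε Rg := by
  obtain ⟨φ, h1, h2⟩ := M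
  refine ⟨φ, fun γ hγ => ?_, h2⟩
  obtain ⟨τ, u, g, a, b, c, d, f⟩ := h1 γ hγ
  refine ⟨τ, fun p => e p (u p), g, a, b, AbsBAux.mem_ad he c, fun p t => ?_, f⟩
  have : e p (Φ' (τ t) p * u p) = e p (u p * (e p).symm (Φ t p) ^ ε p) := congrArg (e p) (d p t)
  rwa [map_mul, map_mul, map_zpow, ContinuousMulEquiv.apply_symm_apply] at this

end Transport


end Pool.Agent.P.MP_3c2f8c_gt.Ex
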