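import Pool.Agent.P.MP_3c2f8c_gt.Gl.Short
import Pool.Agent.P.MP_3c2f8c_gt.Gl.Fin

/-! A lattice without short vectors has a basis whose dual basis is bounded. -/

namespace Pool.Agent.P.MP_3c2f8c_gt.Ex.Mah

open Matrix ShortAux

set_option linter.unusedSectionVars false

variable {κ : Type} [Fintype κ] [DecidableEq κ]

/-- Integral matrices over `ℚ_p`. -/
def IntQ {p : ℕ} [Fact p.Prime] (A : Matrix κ κ ℚ_[p]) : Prop := ∀ i j, ‖A i j‖ ≤ 1

/-- Bounded real matrices. -/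
def BdQ (C : ℝ) (A : Matrix κ κ ℝ) : Prop := ∀ i j, |A i j| ≤ C

/-- The lattice defined by the `A p` has no short vector for `A'`. -/
def MinB (μ : ℝ) (A : ∀ p : Nat.Primes, Matrix κ κ ℚ_[p]) (A' : Matrix κ κ ℝ) : Prop :=
  ∀ v : κ → ℚ, v ≠ 0 → (∀ (p : Nat.Primes) i, ‖(A p *ᵥ fun j => (v j : ℚ_[p])) i‖ ≤ 1) →
    ∃ i, μ ≤ |(A' *ᵥ fun j => (v j : ℝ)) i|

theorem IntQ.mul {p : ℕ} [Fact p.Prime] {A B : Matrix κ κ ℚ_[p]} (hA : IntQ A) (hB : IntQ B) :
    IntQ (A * B) := fun i j => sum_le (hA i) fun k => hB k j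

theorem IntQ.transpose {p : ℕ} [Fact p.Prime] {A : Matrix κ κ ℚ_[p]} (hA : IntQ A) : IntQ Aᵀ :=
  fun i j => hA j i

theorem BdQ.mono {C D : ℝ} {A : Matrix κ κ ℝ} (hA : BdQ C A) (h : C ≤ D) : BdQ D A :=
  fun i j => (hA i j).trans h

theorem BdQ.mul {C D : ℝ} {A B : Matrix κ κ ℝ} (hA : BdQ C A) (hB : BdQ D B) :
    BdQ (Fintype.card κ * (C * D)) (A * B) := fun i j => by
  rw [Matrix.mul_apply]
  refine (Finset.abs_sum_le_sum_abs _ _).trans ((Finset.sum_le_sum fun k _ =>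
    (abs_mul _ _).le.trans (mul_le_mul (hA i k) (hB k j) (abs_nonneg _)
      ((abs_nonneg _).trans (hA i k)))).trans (by simp))

theorem BdQ.transpose {C : ℝ} {A : Matrix κ κ ℝ} (hA : BdQ C A) : BdQ C Aᵀ := fun i j => hA j i

theorem exists_bdQ (A : Matrix κ κ ℝ) : ∃ C : ℝ, BdQ C A := by
  obtain ⟨C, hC⟩ := Finite.exists_le fun k : κ × κ => |A k.1 k.2|
  exact ⟨C, fun i j => hC (i, j)⟩

theorem finite_mat (C : ℝ) : {A : Matrix κ κ ℚ |
    (∀ p : Nat.Primes, IntQ (A.map (ra ℚ_[p]))) ∧ BdQ C (A.map (ra ℝ))}.Finite := by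
  refine (Set.Finite.pi' fun _ : κ => Set.Finite.pi' fun _ : κ =>
    FinAux.finite_rat one_pos C).subset ?_
  rintro A ⟨h1, h2⟩ i j
  exact ⟨fun p => by simpa using h1 p i j, h2 i j⟩

theorem short_dual (κ : Type) [Fintype κ] [DecidableEq κ] {μ : ℝ} (hμ : 0 < μ) :
    ∃ C : ℝ, ∀ (A B : ∀ p : Nat.Primes, Matrix κ κ ℚ_[p]) (A' B' : Matrix κ κ ℝ),
      (∀ p, A p * B p = 1) → A' * B' = 1 → {p | ¬ IntQ (A p)}.Finite → MinB μ A A' →
      ∃ e : GL κ ℚ, (∀ p : Nat.Primes, IntQ (A p * e.1.map (ra ℚ_[p])) ∧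
        IntQ ((e⁻¹).1.map (ra ℚ_[p]) * B p)) ∧ BdQ C ((e⁻¹).1.map (ra ℝ) * B') := by
  obtain ⟨c, hc, hH⟩ := hermite (Fintype.card κ)
  refine ⟨(c * μ)⁻¹, fun A B A' B' hAB hAB' hfin hmin => ?_⟩
  have hA : ∀ p, IsUnit (A p) := fun p => IsUnit.of_mul_eq_one _ (hAB p)
  have hA' : IsUnit A' := IsUnit.of_mul_eq_one _ hAB'
  obtain ⟨e, he, hgen, hlow⟩ := hH (EuclideanSpace ℝ κ) (by simp) ((lat A).map (emb A')) μ hμ
    (span_top A hfin hA') (by
      rintro _ ⟨v, hv, rfl⟩ h0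
      obtain ⟨i, hi⟩ := hmin v (fun e => h0 (by rw [e, map_zero])) hv
      exact hi.trans (PiLp.norm_apply_le (emb A' v) i))
  choose b hb hbe using he
  let σ := Fintype.equivFin κ
  let E : Matrix κ κ ℚ := Matrix.of fun i j => b (σ j) i
  have hlow' : ∀ (x : κ → ℝ) (i : κ), c * μ * |x i| ≤
      ‖(WithLp.toLp 2 ((A' * E.map (ra ℝ)) *ᵥ x) : EuclideanSpace ℝ κ)‖ := by
    intro x i
    have := hlow (fun j => x (σ.symm j)) (σ i)
    rw [Equiv.symm_apply_apply, ← Equiv.sum_comp σ] at this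
    refine this.trans (le_of_eq ?_)
    congr 1
    ext l
    simp only [← hbe, emb_apply, WithLp.ofLp_sum, Finset.sum_apply, WithLp.ofLp_smul,
      Pi.smul_apply, smul_eq_mul, mulVec, dotProduct, Matrix.mul_apply, Equiv.symm_apply_apply,
      Matrix.map_apply, E, Matrix.of_apply, eq_ratCast]
    exact Finset.sum_congr rfl fun j _ => mul_comm _ _
  have hgen' : ∀ v ∈ lat A, ∃ k : κ → ℤ, ∀ i, v i = ∑ j, E i j * k j := by
    intro v hv
    obtain ⟨k, hk⟩ := hgen _ ⟨v, hv, rfl⟩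
    simp only [← hbe, ← map_zsmul, ← map_sum] at hk
    refine ⟨fun j => k (σ j), fun i => ?_⟩
    rw [emb_inj hA' hk, ← Equiv.sum_comp σ, Finset.sum_apply]
    exact Finset.sum_congr rfl fun j _ => by simp [E, mul_comm]
  have hcμ : 0 < c * μ := mul_pos hc hμ
  have hAE : IsUnit (A' * E.map (ra ℝ)) := by
    refine mulVec_injective_iff_isUnit.1 fun x y hxy => ?_
    ext i
    have := hlow' (x - y) i
    rw [mulVec_sub, hxy, sub_self, WithLp.toLp_zero, norm_zero] at this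
    have h2 : |(x - y) i| ≤ 0 := by
      by_contra h3
      exact absurd (mul_pos hcμ (not_le.1 h3)) (not_lt.2 this)
    exact sub_eq_zero.1 (abs_nonpos_iff.1 h2)
  have hE : IsUnit E := by
    have h1 : IsUnit (E.map (ra ℝ)) := by
      obtain ⟨N, hN⟩ := hAE.exists_left_inv
      rw [← Matrix.mul_assoc] at hN
      exact IsUnit.of_mul_eq_one _ (mul_eq_one_comm.1 hN)
    rw [Matrix.isUnit_iff_isUnit_det, isUnit_iff_ne_zero] at h1 ⊢
    intro h2
    apply h1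
    have := (ra ℝ).map_det E
    rw [h2, map_zero] at this
    exact this.symm
  obtain ⟨e₀, he₀⟩ := hE
  have key : ∀ (R : Type) [Field R] [Algebra ℚ R] (X Y : Matrix κ κ R), X * Y = 1 →
      ((e₀⁻¹).1.map (ra R) * Y) * (X * E.map (ra R)) = 1 := fun R _ _ X Y h => by
    rw [Matrix.mul_assoc, ← Matrix.mul_assoc Y, mul_eq_one_comm.1 h, Matrix.one_mul, ← he₀,
      ← Matrix.map_mul, Units.inv_mul, Matrix.map_one _ (map_zero _) (map_one _)]
  refine ⟨e₀, fun p => ⟨fun i j => ?_, fun j l => ?_⟩, fun a l => ?_⟩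
  · rw [he₀]
    exact hb (σ j) p i
  · set N := (e₀⁻¹).1.map (ra ℚ_[p]) * B p
    have h1 : N * (A p * E.map (ra ℚ_[p])) = 1 := key _ _ _ (hAB p)
    have h0 : 0 < ‖N j‖ + 1 := by positivity
    obtain ⟨v, hv, hv'⟩ := lattice_dense A hfin p (hA p) (Pi.single l 1)
      (fun a => by
        by_cases ha : a = l
        · subst ha; simp
        · simp [ha]) (inv_pos.2 h0)
    obtain ⟨k, hk⟩ := hgen' v hv
    have e1 : (fun j => (v j : ℚ_[p])) = E.map (ra ℚ_[p]) *ᵥ fun j => (k j : ℚ_[p]) := by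
      ext a
      simp [hk a, mulVec, dotProduct]
    have e2 : N *ᵥ (A p *ᵥ fun j => (v j : ℚ_[p])) = fun j => (k j : ℚ_[p]) := by
      rw [e1, mulVec_mulVec, mulVec_mulVec, Matrix.mul_assoc, h1, one_mulVec]
    have e3 : N j l = (k j : ℚ_[p]) + -∑ a, N j a *
        ((A p *ᵥ fun j => (v j : ℚ_[p])) a - (Pi.single l 1 : κ → ℚ_[p]) a) := by
      have e4 := congrFun e2 j
      have e5 : ∑ a, N j a * (Pi.single l 1 : κ → ℚ_[p]) a = N j l := by
        rw [Finset.sum_eq_single l (fun a _ ha => by simp [ha]) (by simp)]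
        simp
      simp only [mul_sub, Finset.sum_sub_distrib, e5]
      rw [← e4]
      simp only [mulVec, dotProduct]
      ring
    rw [e3]
    refine (Padic.nonarchimedean _ _).trans (max_le (Padic.norm_int_le_one _) ?_)
    rw [norm_neg]
    refine IsUltrametricDist.norm_sum_le_of_forall_le_of_nonneg zero_le_one fun a _ => ?_
    rw [norm_mul]
    have h5 : ‖N j a‖ ≤ ‖N j‖ + 1 := (norm_le_pi_norm (N j) a).trans (by linarith)
    refine (mul_le_mul h5 (hv' a) (norm_nonneg _) h0.le).trans ?_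
    rw [mul_inv_cancel₀ h0.ne']
  · set N := (e₀⁻¹).1.map (ra ℝ) * B'
    have h2 : (A' * E.map (ra ℝ)) * N = 1 := mul_eq_one_comm.1 (key _ _ _ hAB')
    have := hlow' (fun a => N a l) a
    have e1 : (A' * E.map (ra ℝ)) *ᵥ (fun a => N a l) = Pi.single l 1 := by
      ext a'
      have := congrFun (congrFun h2 a') l
      rw [Matrix.mul_apply, Matrix.one_apply] at this
      rw [Pi.single_apply, ← this]
      rfl
    rw [e1] at this
    have e2 : ‖(WithLp.toLp 2 (Pi.single l 1) : EuclideanSpace ℝ κ)‖ = 1 := by simp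
    rw [e2] at this
    rw [← mul_one (c * μ)⁻¹, le_inv_mul_iff₀ hcμ]
    exact this

/-- The compactness criterion for lattices. -/
theorem mahler (κ : Type) [Fintype κ] [DecidableEq κ] {μ : ℝ} (hμ : 0 < μ) :
    ∃ C : ℝ, ∀ (A B : ∀ p : Nat.Primes, Matrix κ κ ℚ_[p]) (A' B' : Matrix κ κ ℝ),
      (∀ p, A p * B p = 1) → A' * B' = 1 → {p | ¬ IntQ (A p)}.Finite →
      {p | ¬ IntQ (B p)}.Finite → MinB μ A A' → MinB μ (fun p => (B p)ᵀ) B'ᵀ →
      ∃ e : GL κ ℚ, (∀ p : Nat.Primes, IntQ (A p * e.1.map (ra ℚ_[p])) ∧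
        IntQ ((e⁻¹).1.map (ra ℚ_[p]) * B p)) ∧ BdQ C (A' * e.1.map (ra ℝ)) ∧
        BdQ C ((e⁻¹).1.map (ra ℝ) * B') := by
  obtain ⟨C, hC⟩ := short_dual κ hμ
  have hfin := finite_mat (κ := κ) (Fintype.card κ * (C * C))
  choose D hD using fun X : Matrix κ κ ℚ => exists_bdQ (X⁻¹.map (ra ℝ))
  obtain ⟨D₀, hD₀⟩ := (hfin.image D).bddAbove
  refine ⟨max C (Fintype.card κ * (D₀ * C)), fun A B A' B' hAB hAB' hA hB h1 h2 => ?_⟩
  obtain ⟨e₁, i₁, b₁⟩ := hC A B A' B' hAB hAB' hA h1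
  obtain ⟨e₂, i₂, b₂⟩ := hC (fun p => (B p)ᵀ) (fun p => (A p)ᵀ) B'ᵀ A'ᵀ
    (fun p => by rw [← transpose_mul, hAB p, transpose_one])
    (by rw [← transpose_mul, hAB', transpose_one])
    (hB.subset fun p hp h => hp h.transpose) h2
  let e : GL κ ℚ := ⟨(e₂⁻¹).1ᵀ, e₂.1ᵀ, by rw [← transpose_mul, Units.mul_inv, transpose_one],
    by rw [← transpose_mul, Units.inv_mul, transpose_one]⟩
  have j₁ : ∀ p : Nat.Primes, IntQ (A p * e.1.map (ra ℚ_[p])) := fun p => by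
    have := (i₂ p).2.transpose
    rwa [transpose_mul, transpose_transpose] at this
  have j₂ : ∀ p : Nat.Primes, IntQ ((e⁻¹).1.map (ra ℚ_[p]) * B p) := fun p => by
    have := (i₂ p).1.transpose
    rwa [transpose_mul, transpose_transpose] at this
  have j₃ : BdQ C (A' * e.1.map (ra ℝ)) := by
    have := b₂.transpose
    rwa [transpose_mul, transpose_transpose] at this
  have key : ∀ (R : Type) [Field R] [Algebra ℚ R] (X Y : Matrix κ κ R), X * Y = 1 →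
      (e₁⁻¹ * e).1.map (ra R) = ((e₁⁻¹).1.map (ra R) * Y) * (X * e.1.map (ra R)) :=
    fun R _ _ X Y h => by
      rw [Matrix.mul_assoc, ← Matrix.mul_assoc Y, mul_eq_one_comm.1 h, Matrix.one_mul,
        Units.val_mul, Matrix.map_mul]
  have hX : D (e₁⁻¹ * e).1 ≤ D₀ := hD₀ ⟨_, ⟨fun p => by
    rw [key _ _ _ (hAB p)]
    exact (i₁ p).2.mul (j₁ p), by
    rw [key _ _ _ hAB']
    exact b₁.mul j₃⟩, rfl⟩
  refine ⟨e, fun p => ⟨j₁ p, j₂ p⟩, j₃.mono (le_max_left _ _), ?_⟩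
  have e3 : (e⁻¹).1.map (ra ℝ) * B' =
      ((e₁⁻¹ * e).1⁻¹).map (ra ℝ) * ((e₁⁻¹).1.map (ra ℝ) * B') := by
    rw [← Matrix.mul_assoc, ← Matrix.map_mul, ← Matrix.coe_units_inv, ← Units.val_mul]
    congr 3
    group
  rw [e3]
  exact (((hD _).mono hX).mul b₁).mono (le_max_right _ _)

end Pool.Agent.P.MP_3c2f8c_gt.Ex.Mah
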