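import Pool.Agent.P.MP_3c2f8c_gt.Ex.Gl.Rho
import Pool.Agent.P.MP_3c2f8c_gt.Gl.Abs1

/-!
The groups are arithmetic in the sense of the statement.
-/

namespace Pool.Agent.P.MP_3c2f8c_gt.Ex

namespace ArithAux

open Matrix NumberField Polynomial

/-- The integral elements as a subring. -/
def intS (p : ℕ) [Fact p.Prime] : Subring (Cub ℚ_[p]) where
  carrier := {x | IntC x}
  mul_mem' := IntC.mul
  one_mem' := intC_one
  add_mem' := IntC.add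
  zero_mem' := intC_zero
  neg_mem' := IntC.neg

theorem nu_int {p : ℕ} [Fact p.Prime] {h : Matrix I I (Cub ℚ_[p])} {μ : Cub ℚ_[p]} (hh : IntX h)
    (hs : Sim (nJ _) (nJ _) h μ) : IntC μ := by
  rw [← hs.nu_eq nJ_base]
  exact (intS p).sum_mem fun a _ => (intS p).sum_mem fun b _ => (intS p).sum_mem fun c _ =>
    (intS p).mul_mem (intCast_mem _ _)
      ((intS p).mul_mem ((intS p).mul_mem (hh _ _) (hh _ _)) (hh _ _))

theorem sim_unique {R : Type} [CommRing R] {g : Matrix I I R} {ν ν' : R}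
    (h : Sim (nJ R) (nJ R) g ν) (h' : Sim (nJ R) (nJ R) g ν') : ν = ν' :=
  (h.nu_eq nJ_base).symm.trans (h'.nu_eq nJ_base)

theorem loc {p : ℕ} [Fact p.Prime] {b : ℚ} {g : Gt b ℚ_[p]}
    (hg : (QuotientGroup.mk g : UG b ℚ_[p]) ∈ K0 b p) {x : ℚ_[p]}
    (hx : Sim (nJ _) (nJ _) g.1.1 (Cub.C x)) : ∃ (t : ℚ_[p]) (h : Matrix I I (Cub ℚ_[p])),
      t ≠ 0 ∧ IntX h ∧ g.1.1 = Cub.C t • h ∧ ‖x‖ = ‖t‖ ^ 3 := by
  obtain ⟨h, hh, e⟩ := hg
  obtain ⟨t, ht⟩ := QuotientGroup.eq.1 e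
  have e : g.1.1 = Cub.C (t : ℚ_[p]) • h.1.1 := by
    have e1 : g.1.1 = h.1.1 * (h⁻¹ * g).1.1 := by
      rw [← Units.val_mul, ← Subgroup.coe_mul, mul_inv_cancel_left]
    rw [e1, ht, Matrix.mul_smul, Matrix.mul_one]
    exact (algebraMap_smul (Cub ℚ_[p]) _ _).symm
  obtain ⟨μ, hμ⟩ := h.2.1
  refine ⟨t, h.1.1, t.ne_zero, hh.1, e, ?_⟩
  rw [e] at hx
  have e1 := congrArg (fun y => ‖Cub.nrm y‖) (sim_unique hx (hμ.smul _))
  have a1 := (nu_int hh.1 hμ).nrm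
  have a2 := (nu_int hh.2 hμ.inv).nrm
  have a3 : ‖Cub.nrm μ.1‖ * ‖Cub.nrm (μ⁻¹).1‖ = 1 := by
    rw [← norm_mul, ← Cub.nrm_mul, Units.mul_inv, Cub.nrm_one, norm_one]
  have a4 : ‖Cub.nrm μ.1‖ = 1 :=
    le_antisymm a1 (a3.ge.trans (mul_le_of_le_one_right (norm_nonneg _) a2))
  simp only [← map_pow, Cub.nrm_mul, Cub.nrm_C, norm_mul, norm_pow, a4, mul_one] at e1
  exact (pow_left_inj₀ (norm_nonneg _) (by positivity) three_ne_zero).1 e1

theorem cube {x : ℚ} (hx : x ≠ 0)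
    (h : ∀ p : Nat.Primes, ∃ t : ℚ_[p], t ≠ 0 ∧ ‖(x : ℚ_[p])‖ = ‖t‖ ^ 3) : ∃ s : ℚ, s ^ 3 = x := by
  have h1 : x.num.natAbs ≠ 0 := Int.natAbs_ne_zero.2 (Rat.num_ne_zero.2 hx)
  have hn : x.num.natAbs * x.den ^ 2 ≠ 0 := mul_ne_zero h1 (pow_ne_zero 2 x.den_ne_zero)
  have key : Nat.floorRoot 3 (x.num.natAbs * x.den ^ 2) ^ 3 = x.num.natAbs * x.den ^ 2 := by
    refine Nat.eq_of_factorization_eq
      (pow_ne_zero _ (Nat.floorRoot_ne_zero.2 ⟨three_ne_zero, hn⟩)) hn fun p => ?_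
    rw [Nat.factorization_pow, Nat.factorization_floorRoot, Finsupp.smul_apply,
      Finsupp.floorDiv_apply, Nat.floorDiv_eq_div, smul_eq_mul]
    refine Nat.mul_div_cancel' ?_
    by_cases hp : p.Prime
    · obtain ⟨t, ht, e⟩ := h ⟨p, hp⟩
      have : Fact p.Prime := ⟨hp⟩
      rw [← norm_pow, Padic.norm_eq_zpow_neg_valuation (by exact_mod_cast hx),
        Padic.norm_eq_zpow_neg_valuation (pow_ne_zero 3 ht),
        zpow_right_inj₀ (by exact_mod_cast hp.pos) (by exact_mod_cast hp.ne_one),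
        Padic.valuation_ratCast, Padic.valuation_pow, padicValRat, padicValInt] at e
      rw [Nat.factorization_def _ hp, padicValNat.mul h1 (pow_ne_zero 2 x.den_ne_zero),
        padicValNat.pow]
      replace e : -((padicValNat p x.num.natAbs : ℤ) - padicValNat p x.den) = -(3 * _) := e
      omega
    · rw [Nat.factorization_eq_zero_of_not_prime _ hp]
      exact dvd_zero 3
  generalize Nat.floorRoot 3 (x.num.natAbs * x.den ^ 2) = r at key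
  have hd : (x.den : ℚ) ≠ 0 := by exact_mod_cast x.den_ne_zero
  have k2 : ((r : ℚ) / x.den) ^ 3 = |x| := by
    have k3 : (r : ℚ) ^ 3 = |(x.num : ℚ)| * x.den ^ 2 := by
      have := congrArg (Nat.cast : ℕ → ℚ) key
      rwa [Nat.cast_mul, Nat.cast_natAbs, Nat.cast_pow, Nat.cast_pow, Int.cast_abs] at this
    rw [div_pow, k3, ← Rat.mul_den_eq_num, abs_mul, Nat.abs_cast]
    field_simp
  rcases abs_choice x with e | e
  · exact ⟨_, k2.trans e⟩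
  · exact ⟨-(r / x.den), by rw [Odd.neg_pow (by decide), k2, e, neg_neg]⟩

theorem sig_nu {R : Type} [CommRing R] [Algebra ℚ R] {b : ℚ} (hb : b ≠ 0) (g : Gt b R)
    {ν : Cub R} (hν : Sim (nJ _) (nJ _) g.1.1 ν) : ∃ x, ν = Cub.C x := by
  have h0 := hν.map (Cub.sig : Cub R ≃+* Cub R).toRingHom
  rw [nJ_map] at h0
  have h1 : Sim (nJ _) (nJ _) (g.1.1 * ph b (Cub R)) _ := hν.mul (sim_phi _)
  rw [g.2.2] at h1
  have h3 := sim_unique h1 ((sim_phi _).mul h0)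
  rw [mul_comm] at h3
  exact ⟨_, Cub.eq_C_of_sig
    ((((IsUnit.mk0 b hb).map (algebraMap ℚ (Cub R))).pow 2).mul_left_cancel h3).symm⟩

theorem exists_smul {R : Type} [CommRing R] [Algebra ℚ R] {b : ℚ} (g : Gt b R) (s : Rˣ) :
    ∃ g' : Gt b R, (QuotientGroup.mk g' : UG b R) = QuotientGroup.mk g ∧
      g'.1.1 = Cub.C s.1 • g.1.1 := by
  obtain ⟨u, hu⟩ : ∃ u : GL I (Cub R), u.1 = Cub.C s.1 • g.1.1 :=
    ⟨Units.map (Cub.C (R := R)).toMonoidHom s • g.1, rfl⟩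
  obtain ⟨ν, hν⟩ := g.2.1
  have h2 : u ∈ Gt b R := ⟨⟨Units.map (Cub.C (R := R)).toMonoidHom s ^ 3 * ν, by
    rw [hu, Units.val_mul, Units.val_pow_eq_pow_val]
    exact hν.smul _⟩, by
    rw [hu, Matrix.smul_mul, g.2.2, ← Matrix.mul_smul]
    congr 1
    ext1 a c
    simp⟩
  refine ⟨⟨u, h2⟩, ?_, hu⟩
  rw [eq_comm, QuotientGroup.eq]
  refine ⟨s, ?_⟩
  change (g.1⁻¹).1 * u.1 = _
  rw [hu, Matrix.mul_smul, Units.inv_mul]
  exact algebraMap_smul (Cub R) s.1 _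

theorem normalise {b : ℚ} (hb : b ≠ 0) {γ : UG b ℚ} (h : γ ∈ Gam (Phi b) (Kst b)) :
    ∃ g : Gt b ℚ, QuotientGroup.mk g = γ ∧ Sim (nJ _) (nJ _) g.1.1 1 := by
  obtain ⟨g, rfl⟩ := QuotientGroup.mk_surjective γ
  obtain ⟨ν, hν⟩ := g.2.1
  obtain ⟨x, hx⟩ := sig_nu hb g hν
  have hx0 : x ≠ 0 := fun h0 => ν.ne_zero (by rw [hx, h0, map_zero])
  obtain ⟨s, rfl⟩ := cube hx0 fun p => by
    have h1 := hν.map (Cub.map (algebraMap ℚ ℚ_[p]))
    rw [nJ_map, hx, Cub.map_C] at h1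
    obtain ⟨t, -, ht, -, -, e⟩ :=
      loc (g := gmap b (algebraMap ℚ ℚ_[p]) g) ((mem_Gam _ _ _).1 h p) h1
    exact ⟨t, ht, e⟩
  have hs : s ≠ 0 := fun h0 => hx0 (by rw [h0, zero_pow three_ne_zero])
  obtain ⟨u, h1, hu⟩ := exists_smul g (Units.mk0 s hs)⁻¹
  refine ⟨u, h1, ?_⟩
  have := hν.smul (Cub.C s⁻¹)
  rw [hx, ← map_pow, ← map_mul, inv_pow, inv_mul_cancel₀ hx0, map_one] at this
  rw [hu]
  exact this

theorem map_mem (y : Cub ℤ) :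
    Cub.map (Int.castRingHom ℚ) y ∈ (algebraMap (𝓞 (Cub ℚ)) (Cub ℚ)).range := by
  have h : Cub.eta ∈ (algebraMap (𝓞 (Cub ℚ)) (Cub ℚ)).range :=
    ⟨⟨Cub.eta, X ^ 3 + X ^ 2 - 2 * X - 1, by monicity!, by
      simp only [eval₂_sub, eval₂_add, eval₂_X_pow, eval₂_X, eval₂_mul, eval₂_one, eval₂_ofNat]
      exact Cub.eta_root⟩, rfl⟩
  have e : Cub.map (Int.castRingHom ℚ) y =
      (y.c0 : Cub ℚ) + (y.c1 : Cub ℚ) * Cub.eta + (y.c2 : Cub ℚ) * (Cub.eta * Cub.eta) := by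
    ext <;> simp [Cub.eta]
  rw [e]
  exact add_mem (add_mem (intCast_mem _ _) (mul_mem (intCast_mem _ _) h))
    (mul_mem (intCast_mem _ _) (mul_mem h h))

theorem int_of {b : ℚ} {g : Gt b ℚ} (h : QuotientGroup.mk g ∈ Gam (Phi b) (Kst b))
    (hs : Sim (nJ _) (nJ _) g.1.1 1) (a c : I) :
    g.1.1 a c ∈ (algebraMap (𝓞 (Cub ℚ)) (Cub ℚ)).range := by
  obtain ⟨y, hy⟩ := exists_int_of_intC (x := g.1.1 a c) fun p => by
    have h1 := hs.map (Cub.map (algebraMap ℚ ℚ_[p]))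
    rw [nJ_map, map_one, ← map_one Cub.C] at h1
    obtain ⟨t, m, -, hm, e, e'⟩ :=
      loc (g := gmap b (algebraMap ℚ ℚ_[p]) g) ((mem_Gam _ _ _).1 h p) h1
    rw [norm_one, eq_comm, pow_eq_one_iff_of_nonneg (norm_nonneg t) three_ne_zero] at e'
    have e1 : Cub.map (algebraMap ℚ ℚ_[p]) (g.1.1 a c) = Cub.C t * m a c :=
      congrFun (congrFun e a) c
    rw [e1]
    exact (intC_C.2 e'.le).mul (hm a c)
  rw [← hy]
  exact map_mem y

theorem lift {A B : Type} [CommRing A] [CommRing B] (f : A →+* B) (hf : Function.Injective f)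
    (g : GL I B) (h1 : ∀ a c, g.1 a c ∈ f.range) (h2 : ∀ a c, (g⁻¹).1 a c ∈ f.range) :
    ∃ u : GL I A, glmap f u = g := by
  choose X hX using h1
  choose Y hY using h2
  have eX : (Matrix.of X).map f = g.1 := Matrix.ext hX
  have eY : (Matrix.of Y).map f = (g⁻¹).1 := Matrix.ext hY
  refine ⟨⟨of X, of Y, Matrix.map_injective hf ?_, Matrix.map_injective hf ?_⟩, Units.ext eX⟩
  · simp only [Matrix.map_mul, eX, eY, Units.mul_inv, Matrix.map_one f (map_zero f) (map_one f)]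
  · simp only [Matrix.map_mul, eX, eY, Units.inv_mul, Matrix.map_one f (map_zero f) (map_one f)]

theorem rho_val {b : ℚ} {ρ : UG b ℝ ≃* E6} (hρ : IsRho b ρ) {g : Gt b ℚ}
    (hs : Sim (nJ _) (nJ _) g.1.1 1) : (rhoQ ρ (QuotientGroup.mk g)).1 = glmap iotaQ g.1 := by
  obtain ⟨t, ht⟩ := hρ (gmap b (algebraMap ℚ ℝ) g)
  replace ht : (rhoQ ρ (QuotientGroup.mk g)).1.1 = t • g.1.1.map iotaQ := ht
  have h1 := hs.map iotaQ
  rw [nJ_map, map_one] at h1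
  have h2 := mem_E6_iff.1 (rhoQ ρ (QuotientGroup.mk g)).2
  rw [ht] at h2
  have h3 := sim_unique (h1.smul t) h2
  obtain rfl : t = 1 := (Odd.strictMono_pow (by decide : Odd 3)).injective (by simpa using h3)
  exact Units.ext (ht.trans (one_smul _ _))

theorem exists_den : ∃ d : ℤ, d ≠ 0 ∧ ∀ z : 𝓞 (Cub ℚ), ∃ y : Cub ℤ,
    Cub.map (Int.castRingHom ℚ) y = d * algebraMap _ (Cub ℚ) z := by
  obtain ⟨s, hs⟩ := Module.Finite.fg_top (R := ℤ) (M := 𝓞 (Cub ℚ))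
  obtain ⟨d, hd⟩ := IsLocalization.exist_integer_multiples_of_finite (nonZeroDivisors ℤ)
    fun i : s × Fin 3 => Cub.co (algebraMap _ (Cub ℚ) i.1.1) i.2
  refine ⟨d, nonZeroDivisors.coe_ne_zero d, fun z => ?_⟩
  have hz : z ∈ Submodule.span ℤ (s : Set (𝓞 (Cub ℚ))) := hs ▸ Submodule.mem_top
  induction hz using Submodule.span_induction with
  | mem z hz =>
    choose y hy using fun i => hd (⟨z, hz⟩, i)
    refine ⟨⟨y 0, y 1, y 2⟩, Cub.ext ?_ ?_ ?_⟩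
    · simpa [Cub.co] using hy 0
    · simpa [Cub.co] using hy 1
    · simpa [Cub.co] using hy 2
  | zero => exact ⟨0, by simp⟩
  | add z z' _ _ h h' =>
    obtain ⟨y, hy⟩ := h
    obtain ⟨y', hy'⟩ := h'
    exact ⟨y + y', by rw [map_add, map_add, mul_add, hy, hy']⟩
  | smul n z _ h =>
    obtain ⟨y, hy⟩ := h
    exact ⟨n * y, by rw [map_mul, map_intCast, hy, zsmul_eq_mul, map_mul, map_intCast,
      mul_left_comm]⟩

theorem intX_of_ker {d : ℤ} (hd : ∀ z : 𝓞 (Cub ℚ), ∃ y : Cub ℤ,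
    Cub.map (Int.castRingHom ℚ) y = d * algebraMap _ (Cub ℚ) z) {u : GL I (𝓞 (Cub ℚ))}
    (hu : u ∈ (glmap (Ideal.Quotient.mk (Ideal.span {(d : 𝓞 (Cub ℚ))}))).ker) (p : Nat.Primes) :
    IntX ((u.1.map (algebraMap _ (Cub ℚ))).map (Cub.map (algebraMap ℚ ℚ_[p]))) := fun a c => by
  have h1 : Ideal.Quotient.mk (Ideal.span {(d : 𝓞 (Cub ℚ))}) (u.1 a c) =
      (1 : Matrix I I _) a c := congrArg (fun g : GL I _ => g.1 a c) hu
  have h2 : u.1 a c - (((1 : Matrix I I ℤ) a c : ℤ) : 𝓞 (Cub ℚ)) ∈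
      Ideal.span {(d : 𝓞 (Cub ℚ))} := by
    rw [← Ideal.Quotient.eq, h1, map_intCast, one_apply, one_apply]
    split_ifs <;> simp
  obtain ⟨z, hz⟩ := Ideal.mem_span_singleton.1 h2
  obtain ⟨y, hy⟩ := hd z
  rw [map_apply, map_apply, sub_eq_iff_eq_add.1 hz, map_add, map_mul, map_intCast, map_intCast,
    ← hy, map_add, map_intCast]
  refine IntC.add ?_ (intCast_mem (intS p) _)
  simp [IntC, Padic.norm_int_le_one]

theorem mem_gam {b : ℚ} (g : Gt b ℚ)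
    (h1 : ∀ p : Nat.Primes, IntX (g.1.1.map (Cub.map (algebraMap ℚ ℚ_[p]))))
    (h2 : ∀ p : Nat.Primes, IntX ((g.1⁻¹).1.map (Cub.map (algebraMap ℚ ℚ_[p])))) :
    QuotientGroup.mk g ∈ Gam (Phi b) (Kst b) :=
  (mem_Gam _ _ _).2 fun p => ⟨gmap b (algebraMap ℚ ℚ_[p]) g, ⟨h1 p, h2 p⟩, rfl⟩

end ArithAux

open ArithAux NumberField

theorem isArith_gam {b : ℚ} (hb : b ≠ 0) {ρ : UG b ℝ ≃* E6} (hρ : IsRho b ρ)
    {K : ∀ p : Nat.Primes, Subgroup (UG b ℚ_[p])} (hK : Level (Kst b) K) :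
    IsArith ((Gam (Phi b) K).map (rhoQ ρ)) := by
  refine ⟨Cub ℚ, inferInstance, inferInstance, Cub.sig, iotaQ, ph b (Cub ℚ),
    algebraMap ℚ (Cub ℚ) b ^ 2, algebraMap ℚ (Cub ℚ) b ^ 2, Cub.finrank_rat, Cub.sig_ne,
    pow_ne_zero 2 ((map_ne_zero (algebraMap ℚ (Cub ℚ))).2 hb), sim_iff_NJ.1 (sim_phi _), ?_,
    (commensurable_map _ (hK.commensurable ⟨fun p => co_K0 b p, by simp⟩ (Phi b))).trans ⟨?_, ?_⟩⟩
  · have e : (ph b (Cub ℚ)).map Cub.sig = ph b (Cub ℚ) :=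
      ph_map b (Cub.sig : Cub ℚ ≃+* Cub ℚ).toRingHom
    rw [e, e]
    exact phi_cube _
  · obtain ⟨d, hd, hden⟩ := exists_den
    have : Finite (𝓞 (Cub ℚ) ⧸ Ideal.span {(d : 𝓞 (Cub ℚ))}) :=
      Ideal.finiteQuotientOfFreeOfNeBot _ (by simpa using hd)
    have h1 : Subgroup.Commensurable (Fix Cub.sig (ph b (Cub ℚ)) ⊓
        (glmap (Ideal.Quotient.mk (Ideal.span {(d : 𝓞 (Cub ℚ))}))).ker)
        (Fix Cub.sig (ph b (Cub ℚ))) := by
      constructor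
      · rw [Subgroup.inf_relIndex_left]
        exact Subgroup.FiniteIndex.index_ne_zero
      · rw [Subgroup.relIndex_eq_one.2 inf_le_left]
        exact one_ne_zero
    refine mt (Subgroup.relIndex_eq_zero_of_le_left ?_)
      (Subgroup.relIndex_comap_ne_zero E6.subtype (commensurable_map _ h1).1)
    rintro x ⟨u, ⟨hu, hH⟩, hx⟩
    replace hx : glmap iotaQ (glmap (algebraMap _ (Cub ℚ)) u) = x.1 := hx
    have hs : Sim (nJ _) (nJ _) (glmap (algebraMap _ (Cub ℚ)) u).1 1 := by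
      refine Sim.of_map iotaQ_injective ?_
      rw [nJ_map, map_one]
      have h2 := mem_E6_iff.1 x.2
      rw [← hx] at h2
      exact h2
    have hg : glmap (algebraMap _ (Cub ℚ)) u ∈ Gt b ℚ := ⟨⟨1, hs⟩, hu⟩
    refine ⟨_, mem_gam ⟨_, hg⟩ (intX_of_ker hden hH) fun p => ?_,
      Subtype.ext ((rho_val (g := ⟨_, hg⟩) hρ hs).trans hx)⟩
    rw [← map_inv]
    exact intX_of_ker hden (Subgroup.inv_mem _ hH) p
  · refine (Subgroup.relIndex_eq_one.2 ?_).trans_ne one_ne_zero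
    rintro _ ⟨γ, hγ, rfl⟩
    obtain ⟨g, rfl, hs⟩ := normalise hb hγ
    obtain ⟨u, hu⟩ := lift (algebraMap (𝓞 (Cub ℚ)) (Cub ℚ)) (FaithfulSMul.algebraMap_injective _ _)
      g.1 (int_of hγ hs) (int_of (g := g⁻¹) (inv_mem hγ) (Sim.inv (ν := 1) hs))
    refine ⟨u, ?_, ?_⟩
    · have h := g.2.2
      rw [← hu] at h
      exact h
    · refine Eq.trans ?_ (rho_val hρ hs).symm
      rw [← hu]
      rfl

end Pool.Agent.P.MP_3c2f8c_gt.Ex
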