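import Pool.Agent.P.MP_3c2f8c_gt.Ex.Gl.Nu
import Pool.Agent.P.MP_3c2f8c_gt.Ex.An.Geom

/-! Ex-Gl-CpB: discreteness at the standard level. -/

namespace Pool.Agent.P.MP_3c2f8c_gt.Ex

open Matrix

namespace CpBAux

theorem finite_q (M : ℕ) (hM : 0 < M) (C : ℝ) :
    {q : ℚ | (∀ p : Nat.Primes, ‖(M : ℚ_[p]) * algebraMap ℚ ℚ_[p] q‖ ≤ 1) ∧
      |algebraMap ℚ ℝ q| ≤ C}.Finite := by
  have hM' : (M : ℚ) ≠ 0 := by exact_mod_cast hM.ne'
  refine ((Set.finite_Icc (-⌈M * C⌉) ⌈M * C⌉).image fun z : ℤ => (z : ℚ) / M).subset ?_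
  rintro q ⟨h1, h2⟩
  have h3 : (((M * q : ℚ).num : ℤ) : ℚ) = M * q :=
    Cub2Aux.int_of_rat fun p => by simpa using h1 p
  refine ⟨(M * q : ℚ).num, ?_, by simp only [h3]; field_simp⟩
  have h4 : (((M * q : ℚ).num : ℤ) : ℝ) = M * (q : ℝ) := by exact_mod_cast h3
  have h5 : |(((M * q : ℚ).num : ℤ) : ℝ)| ≤ ⌈M * C⌉ := by
    rw [h4, abs_mul, Nat.abs_cast]
    exact (mul_le_mul_of_nonneg_left h2 (Nat.cast_nonneg M)).trans (Int.le_ceil _)
  exact abs_le.1 (by exact_mod_cast h5)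

theorem intX_smul {p : ℕ} [Fact p.Prime] {t : ℚ_[p]} (ht : ‖t‖ ≤ 1) {X : Matrix I I (Cub ℚ_[p])}
    (hX : IntX X) : IntX (t • X) := fun a c => by
  have h : ∀ y : ℚ_[p], ‖y‖ ≤ 1 → ‖t • y‖ ≤ 1 := fun y hy => by
    rw [norm_smul]
    exact mul_le_one₀ ht (norm_nonneg _) hy
  exact ⟨h _ (hX a c).1, h _ (hX a c).2.1, h _ (hX a c).2.2⟩

theorem exists_den (X : ∀ p : Nat.Primes, Matrix I I (Cub ℚ_[p]))
    (h : {p : Nat.Primes | ¬ IntX (X p)}.Finite) :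
    ∃ M : ℕ, 0 < M ∧ ∀ p : Nat.Primes, IntX ((M : ℚ_[p]) • X p) := by
  choose k hk using fun p : Nat.Primes => exists_pow_intX (X p)
  refine ⟨∏ p ∈ h.toFinset, p.1 ^ k p, Finset.prod_pos fun p _ => pow_pos p.2.pos _, fun p => ?_⟩
  have hn : ∀ n : ℕ, ‖(n : ℚ_[p])‖ ≤ 1 := fun n => by
    simpa using Padic.norm_int_le_one (p := p) n
  by_cases hp : p ∈ h.toFinset
  · obtain ⟨m, hm⟩ := Finset.dvd_prod_of_mem (fun p : Nat.Primes => p.1 ^ k p) hp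
    rw [hm, mul_comm, Nat.cast_mul, mul_smul, Nat.cast_pow]
    exact intX_smul (hn m) (hk p)
  · exact intX_smul (hn _) (by simpa using hp)

theorem exists_lift {b : ℚ} {u : ∀ p : Nat.Primes, UG b ℚ_[p]} (hu : u ∈ Ad (Kst b)) :
    ∃ v : ∀ p : Nat.Primes, Gt b ℚ_[p], (∀ p, QuotientGroup.mk (v p) = u p) ∧
      {p : Nat.Primes | (v p).1 ∉ IntG p}.Finite := by
  have h : ∀ p : Nat.Primes, ∃ g : Gt b ℚ_[p], QuotientGroup.mk g = u p ∧
      (u p ∈ K0 b p → g.1 ∈ IntG p) := fun p => by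
    by_cases hp : u p ∈ K0 b p
    · obtain ⟨g, h1, h2⟩ := mem_K0.1 hp
      exact ⟨g, h2, fun _ => h1⟩
    · obtain ⟨g, hg⟩ := QuotientGroup.mk_surjective (u p)
      exact ⟨g, hg, fun h => absurd h hp⟩
  choose v h1 h2 using h
  exact ⟨v, h1, Set.Finite.subset hu fun p hp h => hp (h2 p h)⟩

theorem finite_gmap {b : ℚ} (g : Gt b ℚ) :
    {p : Nat.Primes | (gmap b (algebraMap ℚ ℚ_[p]) g).1 ∉ IntG p}.Finite := by
  refine ((finite_not_intX g.1.1).union (finite_not_intX (g.1⁻¹).1)).subset fun p hp => ?_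
  by_contra h
  simp only [Set.mem_union, Set.mem_ofPred_eq, not_or, not_not] at h
  exact hp h

theorem abs_le_of_cube {s r : ℝ} (h : |s| ^ 3 ≤ r) : |s| ≤ 1 + r := by
  have h0 := abs_nonneg s
  have h1 : 0 ≤ r := (pow_nonneg h0 3).trans h
  by_contra h2
  have h3 : 1 ≤ |s| := by linarith
  have h4 := le_self_pow₀ h3 (n := 3) (by norm_num)
  linarith

end CpBAux

open CpBAux

theorem finite_cub (M : ℕ) (hM : 0 < M) (C : ℝ) :
    {x : Cub ℚ | (∀ p : Nat.Primes, IntC ((M : ℚ_[p]) • Cub.map (algebraMap ℚ ℚ_[p]) x)) ∧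
      ∀ i, |Cub.co (Cub.map (algebraMap ℚ ℝ) x) i| ≤ C}.Finite := by
  refine ((Set.Finite.pi' fun _ : Fin 3 => finite_q M hM C).preimage
    Cub.co_injective.injOn).subset ?_
  rintro x ⟨h1, h2⟩ i
  refine ⟨fun p => ?_, ?_⟩
  · have h := Cub2Aux.intC_iff.1 (h1 p) i
    fin_cases i <;> exact h
  · have h := h2 i
    fin_cases i <;> exact h

theorem exists_rat_norm (t : ∀ p : Nat.Primes, ℚ_[p]) (h0 : ∀ p, t p ≠ 0)
    (h : {p : Nat.Primes | ‖t p‖ ≠ 1}.Finite) :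
    ∃ n : ℚ, 0 < n ∧ ∀ p : Nat.Primes, ‖t p‖ = ‖(n : ℚ_[p])‖ := by
  refine ⟨∏ q ∈ h.toFinset, (q.1 : ℚ) ^ (t q).valuation,
    Finset.prod_pos fun q _ => zpow_pos (by exact_mod_cast q.2.pos) _, fun p => ?_⟩
  rw [Rat.cast_prod, norm_prod, Finset.prod_eq_single p]
  · rw [Rat.cast_zpow, Rat.cast_natCast, Padic.norm_p_zpow, Padic.norm_eq_zpow_neg_valuation (h0 p)]
  · intro q _ hq
    rw [Rat.cast_zpow, Rat.cast_natCast, norm_zpow, (Padic.norm_natCast_eq_one_iff (p := p)).2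
      ((Nat.coprime_primes p.2 q.2).2 fun e => hq (Subtype.ext e).symm), _root_.one_zpow]
  · intro hp
    rw [Rat.cast_zpow, Rat.cast_natCast, Padic.norm_p_zpow,
      ← Padic.norm_eq_zpow_neg_valuation (h0 p)]
    simpa using hp

namespace CpBAux

/-- Normalised representatives. -/
theorem exists_rep {b : ℚ} (hb : b ≠ 0) {v v' : ∀ p : Nat.Primes, Gt b ℚ_[p]}
    (hv : {p : Nat.Primes | (v p).1 ∉ IntG p}.Finite)
    (hv' : {p : Nat.Primes | (v' p).1 ∉ IntG p}.Finite) (g₀ : Gt b ℚ)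
    (h : ∀ p : Nat.Primes, (QuotientGroup.mk ((v' p)⁻¹ * gmap b (algebraMap ℚ ℚ_[p]) g₀ * v p) :
      UG b ℚ_[p]) ∈ K0 b p) :
    ∃ g : Gt b ℚ, (QuotientGroup.mk g : UG b ℚ) = QuotientGroup.mk g₀ ∧
      ∀ p : Nat.Primes, ∃ (k : Gt b ℚ_[p]) (s : ℚ_[p]), k.1 ∈ IntG p ∧ ‖s‖ = 1 ∧
        ((v' p)⁻¹ * gmap b (algebraMap ℚ ℚ_[p]) g * v p).1.1 = s • k.1.1 := by
  choose k hk hk' using fun p => mem_K0.1 (h p)
  choose t ht using fun p => Gt.mk_eq_iff.1 (hk' p).symm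
  obtain ⟨n, hn, hnt⟩ := exists_rat_norm (fun p => (t p).1) (fun p => (t p).ne_zero) (by
    refine ((hv.union hv').union (finite_gmap g₀)).subset fun p hp => ?_
    by_contra h1
    simp only [Set.mem_union, Set.mem_ofPred_eq, not_or, not_not] at h1
    have h2 : ((v' p)⁻¹ * gmap b (algebraMap ℚ ℚ_[p]) g₀ * v p).1 ∈ IntG p :=
      mul_mem (mul_mem (inv_mem h1.1.2) h1.2) h1.1.1
    have h3 := Gt.norm_nu hb h2
    rw [Gt.nu_smul hb (ht p), norm_mul, Gt.norm_nu hb (hk p), mul_one, norm_pow] at h3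
    exact hp ((pow_eq_one_iff_of_nonneg (norm_nonneg _) (by norm_num)).1 h3))
  obtain ⟨g, hg, -, hg'⟩ := Gt.exists_smul g₀ (Units.mk0 n⁻¹ (inv_ne_zero hn.ne'))
  refine ⟨g, hg', fun p => ⟨k p, ((n : ℚ_[p]))⁻¹ * t p, hk p, ?_, ?_⟩⟩
  · have h1 : ‖(n : ℚ_[p])‖ ≠ 0 := by
      rw [← hnt p]
      exact norm_ne_zero_iff.2 (t p).ne_zero
    rw [norm_mul, norm_inv, hnt p, inv_mul_cancel₀ h1]
  · have h1 : (gmap b (algebraMap ℚ ℚ_[p]) g).1.1 =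
        ((n : ℚ_[p]))⁻¹ • (gmap b (algebraMap ℚ ℚ_[p]) g₀).1.1 := by
      rw [gmap_val, gmap_val, hg]
      ext1 a c
      ext <;> simp
    have h2 := ht p
    simp only [Subgroup.coe_mul, Units.val_mul] at h2 ⊢
    rw [h1, Matrix.mul_smul, Matrix.smul_mul, h2, smul_smul]

end CpBAux

theorem proper_Kst {b : ℚ} (hb : b ≠ 0) {ρ : UG b ℝ ≃* E6} (hρ : IsRho b ρ) :
    Proper (Phi b) (rhoQ ρ) (Kst b) := by
  intro u hu u' hu' R
  obtain ⟨v, hv, hvf⟩ := exists_lift hu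
  obtain ⟨v', hv', hvf'⟩ := exists_lift hu'
  obtain ⟨M, hM, hMv⟩ := exists_den (fun p => ((v p)⁻¹).1.1) (hvf.subset fun p hp h => hp h.2)
  obtain ⟨M', hM', hMv'⟩ := exists_den (fun p => (v' p).1.1) (hvf'.subset fun p hp h => hp h.1)
  obtain ⟨r, hr, hrv⟩ := exists_rat_norm (fun p => Gt.nu (v' p) * Gt.nu (v p)⁻¹)
    (fun p => ((Gt.isUnit_nu hb _).mul (Gt.isUnit_nu hb _)).ne_zero) (by
      refine (hvf.union hvf').subset fun p hp => ?_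
      by_contra h1
      simp only [Set.mem_union, Set.mem_ofPred_eq, not_or, not_not] at h1
      refine hp ?_
      rw [norm_mul, Gt.norm_nu hb h1.2, Gt.norm_nu hb (g := (v p)⁻¹) (inv_mem h1.1), mul_one])
  obtain ⟨C, hC⟩ := entry_le_of_AA R
  obtain ⟨D, -, hD⟩ := Gt.bd_of_iota hb
  have hF := finite_cub (M' * M) (Nat.mul_pos hM' hM) (D * ((1 + r) * C))
  have hinj : Function.Injective fun g : Gt b ℚ => g.1.1 := fun g g' h =>
    Subtype.ext (Units.ext h)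
  refine (((Set.Finite.pi' fun _ : I => Set.Finite.pi' fun _ : I => hF).preimage
    hinj.injOn).image QuotientGroup.mk).subset ?_
  rintro γ ⟨h1, h2⟩
  obtain ⟨g₀, rfl⟩ := QuotientGroup.mk_surjective γ
  obtain ⟨g, hg, hk⟩ := exists_rep hb hvf hvf' g₀ fun p => by
    have h := h1 p
    rw [← hv p, ← hv' p] at h
    exact h
  refine ⟨g, fun a c => ⟨fun p => ?_, ?_⟩, hg⟩
  · obtain ⟨k, s, hk1, hs, hk2⟩ := hk p
    have e : gmap b (algebraMap ℚ ℚ_[p]) g =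
        v' p * ((v' p)⁻¹ * gmap b (algebraMap ℚ ℚ_[p]) g * v p) * (v p)⁻¹ := by group
    have e2 : ((M' * M : ℕ) : ℚ_[p]) • (gmap b (algebraMap ℚ ℚ_[p]) g).1.1 =
        ((M' : ℚ_[p]) • (v' p).1.1) * (s • k.1.1) * ((M : ℚ_[p]) • ((v p)⁻¹).1.1) := by
      rw [← hk2, Matrix.smul_mul, Matrix.smul_mul, Matrix.mul_smul, smul_smul, Nat.cast_mul]
      exact congrArg (fun x : Gt b ℚ_[p] => ((M' : ℚ_[p]) * M) • x.1.1) e
    have e3 := ((hMv' p).mul (intX_smul hs.le hk1.1)).mul (hMv p)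
    rw [← e2] at e3
    exact e3 a c
  · have hν : Gt.nu g ≠ 0 := (Gt.isUnit_nu hb g).ne_zero
    have h3 : ((r / Gt.nu g).num : ℚ) = r / Gt.nu g := Cub2Aux.int_of_rat fun p => by
      obtain ⟨k, s, hk1, hs, hk2⟩ := hk p
      have e : gmap b (algebraMap ℚ ℚ_[p]) g =
          v' p * ((v' p)⁻¹ * gmap b (algebraMap ℚ ℚ_[p]) g * v p) * (v p)⁻¹ := by group
      have e2 := congrArg (fun x => ‖Gt.nu x‖) e
      simp only [Gt.nu_mul hb (v' p * _), Gt.nu_mul hb (v' p), Gt.nu_smul hb hk2] at e2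
      have e3 := hrv p
      simp only [norm_mul, norm_pow, hs, Gt.norm_nu hb hk1, one_pow, mul_one] at e2 e3
      rw [Gt.nu_gmap, e3] at e2
      rw [map_div₀, norm_div, e2]
      exact div_self_le_one _
    have h4 : |Gt.nu g| ≤ r := by
      have h5 : (r / Gt.nu g).num ≠ 0 := Rat.num_ne_zero.2 (div_ne_zero hr.ne' hν)
      have h6 : (1 : ℚ) ≤ |r / Gt.nu g| := by
        rw [← h3]
        exact_mod_cast Int.one_le_abs h5
      rwa [abs_div, abs_of_pos hr, one_le_div (abs_pos.2 hν)] at h6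
    obtain ⟨t, ht, ht'⟩ := hρ.spec hb (gmap b (algebraMap ℚ ℝ) g)
    rw [Gt.nu_gmap] at ht
    have h5 : |t ^ 2 * algebraMap ℚ ℝ (Gt.nu g)| ≤ 1 + r := abs_le_of_cube (by
      rw [← abs_pow, show (t ^ 2 * algebraMap ℚ ℝ (Gt.nu g)) ^ 3 =
        (t ^ 3 * algebraMap ℚ ℝ (Gt.nu g)) ^ 2 * algebraMap ℚ ℝ (Gt.nu g) by ring, ht, one_pow,
        one_mul, eq_ratCast]
      exact_mod_cast h4)
    rw [← hg] at h2
    refine hD (gmap b (algebraMap ℚ ℝ) g) _ (fun a c => ?_) a c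
    have h6 := (hC _ h2 a c).1
    have h7 : (rhoQ ρ (QuotientGroup.mk g)).1.1 a c =
        t * iota ((gmap b (algebraMap ℚ ℝ) g).1.1 a c) := congrFun (congrFun ht' a) c
    have h8 : iota ((gmap b (algebraMap ℚ ℝ) g).1.1 a c) =
        t ^ 2 * algebraMap ℚ ℝ (Gt.nu g) * (rhoQ ρ (QuotientGroup.mk g)).1.1 a c := by
      rw [h7]
      linear_combination (-iota ((gmap b (algebraMap ℚ ℝ) g).1.1 a c)) * ht
    rw [h8, abs_mul]
    exact mul_le_mul h5 h6 (abs_nonneg _) ((abs_nonneg _).trans h5)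

end Pool.Agent.P.MP_3c2f8c_gt.Ex
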