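import Pool.Agent.P.MP_3c2f8c_gt.Ex.Gl.CpFa
import Pool.Agent.P.MP_3c2f8c_gt.Ex.Gl.CpB

/-! The structure constants of bounded bases take finitely many values. -/

namespace Pool.Agent.P.MP_3c2f8c_gt.Ex.CpFAux

open Matrix CpEAux

variable {b : ℚ} {u u₀ : ∀ p : Nat.Primes, Gt b ℚ_[p]} {n : ℚ} {h h₀ : Gt b ℝ} {C : ℝ}
  {ε ε₀ : KI → I → Cub ℚ}

theorem mul_inv_mulVec {R : Type} [CommRing R] (g : GL I R) (v : I → R) :
    g.1 *ᵥ ((g⁻¹).1 *ᵥ v) = v := by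
  rw [mulVec_mulVec, Units.mul_inv, one_mulVec]

theorem coef_int (L : LBasis u h C ε) {x : KI → ℚ} {p : Nat.Primes} {D : ℚ_[p]}
    (hw : IntV (D • (((u p).1⁻¹).1 *ᵥ vmap ℚ_[p] (∑ l, x l • ε l)))) (l : KI) :
    ‖D * ra ℚ_[p] (x l)‖ ≤ 1 := by
  obtain ⟨c, hc, e⟩ := L.int' p _ hw
  rw [mulVec_smul, mul_inv_mulVec, vmap_sum, Finset.smul_sum] at e
  simp only [smul_smul] at e
  rw [(Fintype.linearIndependent_iffₛ.1 (li_vmap ℚ_[p] L.li)) _ _ e l]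
  exact hc l

theorem coef_bd (L : LBasis u h C ε) {x : KI → ℚ} {B : ℝ} (hB : 0 < B)
    (hw : BdV B ((h.1⁻¹).1 *ᵥ vmap ℝ (∑ l, x l • ε l))) (l : KI) : |ra ℝ (x l)| ≤ B * C := by
  obtain ⟨c, hc, e⟩ := L.bd' (B⁻¹ • ((h.1⁻¹).1 *ᵥ vmap ℝ (∑ l, x l • ε l))) fun a i => by
    have e : ∀ y : Cub ℝ, Cub.co (B⁻¹ • y) i = B⁻¹ * Cub.co y i := fun y => by
      fin_cases i <;> rfl
    rw [Pi.smul_apply, e, abs_mul, abs_of_pos (inv_pos.2 hB), inv_mul_le_iff₀ hB, mul_one]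
    exact hw a i
  rw [mulVec_smul, mul_inv_mulVec, vmap_sum, Finset.smul_sum] at e
  simp only [smul_smul] at e
  have h1 := hc l
  rw [← (Fintype.linearIndependent_iffₛ.1 (li_vmap ℝ L.li)) _ _ e l, abs_mul,
    abs_of_pos (inv_pos.2 hB), inv_mul_le_iff₀ hB] at h1
  exact h1

theorem finite_eta (b : ℚ) (C : ℝ) : ∃ T : Set ℚ, T.Finite ∧
    ∀ (u : ∀ p : Nat.Primes, Gt b ℚ_[p]) (h : Gt b ℝ) (ε : KI → I → Cub ℚ), LBasis u h C ε →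
      ∀ (k : KI) (x : KI → ℚ), (Cub.eta : Cub ℚ) • ε k = ∑ l, x l • ε l → ∀ l, x l ∈ T := by
  obtain ⟨B, hB, H⟩ := bd_eta C
  refine ⟨_, FinAux.finite_rat one_pos (B * C), fun u h ε L k x hx l => ⟨fun p => ?_, ?_⟩⟩
  · refine coef_int L (fun a => ?_) l
    rw [← hx, vmap_eta, mulVec_smul, Nat.cast_one, one_smul]
    exact IntC.mul (by simp [IntC, Cub.eta]) (L.int p k a)
  · refine coef_bd L hB ?_ l
    rw [← hx, vmap_eta, mulVec_smul]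
    exact H _ (L.bd k)

theorem finite_phi (b : ℚ) (C : ℝ) : ∃ T : Set ℚ, T.Finite ∧
    ∀ (u : ∀ p : Nat.Primes, Gt b ℚ_[p]) (h : Gt b ℝ) (ε : KI → I → Cub ℚ), LBasis u h C ε →
      ∀ (k : KI) (y : KI → ℚ), PhiV Cub.sig (ph b (Cub ℚ)) (ε k) = ∑ l, y l • ε l →
        ∀ l, y l ∈ T := by
  obtain ⟨B, hB, H⟩ := bd_phiV (ph b (Cub ℝ)) C
  obtain ⟨D, hD, H'⟩ := exists_den (ph b (Cub ℚ))
  refine ⟨_, FinAux.finite_rat hD (B * C), fun u h ε L k y hy l => ⟨fun p => ?_, ?_⟩⟩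
  · refine coef_int L ?_ l
    have e := Gt.phiV (u p)⁻¹ (vmap ℚ_[p] (ε k))
    rw [← hy, vmap_phiV]
    erw [e]
    rw [PhiV, ← smul_mulVec]
    have h1 := H' p
    rw [ph_map] at h1
    exact intV_mulVec h1 fun a => (L.int p k a).sig
  · refine coef_bd L hB ?_ l
    have e := Gt.phiV h⁻¹ (vmap ℝ (ε k))
    rw [← hy, vmap_phiV]
    erw [e]
    exact H _ (L.bd k)

theorem tri_eq (hb : b ≠ 0) {R : Type} [Field R] [Algebra ℚ R] (g : Gt b R) (t : ℚ)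
    (x y z : I → Cub ℚ) : Cub.map (algebraMap ℚ R) (t • tri (nJ _) x y z) =
      (algebraMap ℚ R t * Gt.nu g) • tri (nJ _) ((g.1⁻¹).1 *ᵥ vmap R x) ((g.1⁻¹).1 *ᵥ vmap R y)
        ((g.1⁻¹).1 *ᵥ vmap R z) := by
  have e := Gt.sim hb g ((g.1⁻¹).1 *ᵥ vmap R x) ((g.1⁻¹).1 *ᵥ vmap R y) ((g.1⁻¹).1 *ᵥ vmap R z)
  rw [mul_inv_mulVec, mul_inv_mulVec, mul_inv_mulVec] at e
  rw [Algebra.smul_def, map_mul, RingHom.map_rat_algebraMap, map_tri, e, Algebra.smul_def,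
    map_mul, mul_assoc]
  rfl

theorem APt.ne (hb : b ≠ 0) (A : APt u n h) : n ≠ 0 := fun e => by
  have := (Gt.isUnit_nu hb h).ne_zero
  rw [A.hh, e] at this
  exact this Rat.cast_zero

theorem finite_tri (hb : b ≠ 0) (C : ℝ) : ∃ T : Set (Cub ℚ), T.Finite ∧
    ∀ (u : ∀ p : Nat.Primes, Gt b ℚ_[p]) (n : ℚ) (h : Gt b ℝ) (ε : KI → I → Cub ℚ), APt u n h →
      LBasis u h C ε → ∀ k l m, n⁻¹ • tri (nJ _) (ε k) (ε l) (ε m) ∈ T := by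
  obtain ⟨B, H⟩ := bd_tri (nJ (Cub ℝ)) C
  refine ⟨_, finite_cub 1 one_pos B, fun u n h ε A L k l m => ⟨fun p => ?_, fun i => ?_⟩⟩
  · rw [Nat.cast_one, one_smul, tri_eq hb (u p)]
    refine intC_smul' (intC_tri (L.int p k) (L.int p l) (L.int p m)) (le_of_eq ?_)
    have h0 : ‖(n : ℚ_[p])‖ ≠ 0 := norm_ne_zero_iff.2 (Rat.cast_ne_zero.2 (APt.ne hb A))
    rw [norm_mul, A.hn p, eq_ratCast, Rat.cast_inv, norm_inv, inv_mul_cancel₀ h0]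
  · rw [tri_eq hb h, A.hh, eq_ratCast, Rat.cast_inv,
      inv_mul_cancel₀ (Rat.cast_ne_zero.2 (APt.ne hb A)), one_smul]
    exact H _ _ _ (L.bd k) (L.bd l) (L.bd m) i

theorem intX_of (L : LBasis u h C ε) (L₀ : LBasis u₀ h₀ C ε₀) {p : Nat.Primes}
    {G : Matrix I I (Cub ℚ_[p])} (hG : ∀ k, G *ᵥ vmap ℚ_[p] (ε k) = vmap ℚ_[p] (ε₀ k)) :
    IntX (((u₀ p).1⁻¹).1 * G * (u p).1.1) := fun a c => by
  obtain ⟨x, hx, e⟩ := L.int' p _ (intV_single c)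
  have e1 : (((u₀ p).1⁻¹).1 * G * (u p).1.1) a c =
      ((((u₀ p).1⁻¹).1 * G * (u p).1.1) *ᵥ Pi.single c 1) a := by simp
  rw [e1, ← mulVec_mulVec, ← mulVec_mulVec, e, mulVec_sum, mulVec_sum, Finset.sum_apply]
  refine intC_sum _ fun k => ?_
  rw [mulVec_smul, hG, mulVec_smul]
  exact intC_smul' (L₀.int p k a) (hx k)

theorem bd_of (L : LBasis u h C ε) (L₀ : LBasis u₀ h₀ C ε₀) {G : Matrix I I (Cub ℝ)}
    (hG : ∀ k, G *ᵥ vmap ℝ (ε k) = vmap ℝ (ε₀ k)) (c : I) :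
    BdV (Fintype.card KI * (C * C)) fun a => ((h₀.1⁻¹).1 * G * h.1.1) a c := fun a i => by
  obtain ⟨x, hx, e⟩ := L.bd' (Pi.single c 1) fun a i => by
    rw [Pi.single_apply]
    split_ifs <;> fin_cases i <;> simp [Cub.co]
  have e1 : ((h₀.1⁻¹).1 * G * h.1.1) a c = (((h₀.1⁻¹).1 * G * h.1.1) *ᵥ Pi.single c 1) a := by
    simp
  have e2 : (Fintype.card KI : ℝ) * (C * C) = ∑ _j : KI, C * C := by
    rw [Finset.sum_const, Finset.card_univ, nsmul_eq_mul]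
  simp only
  rw [e1, ← mulVec_mulVec, ← mulVec_mulVec, e, mulVec_sum, mulVec_sum, ← cv_apply _ (a, i),
    map_sum, Finset.sum_apply, e2]
  refine (Finset.abs_sum_le_sum_abs _ _).trans (Finset.sum_le_sum fun k _ => ?_)
  rw [mulVec_smul, hG, mulVec_smul, map_smul, Pi.smul_apply, smul_eq_mul, abs_mul]
  exact mul_le_mul (hx k) (L₀.bd k a i) (abs_nonneg _) ((abs_nonneg _).trans (hx k))

end Pool.Agent.P.MP_3c2f8c_gt.Ex.CpFAux
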