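import Pool.Agent.P.MP_3c2f8c_gt.Ex.Gl.CpE
import Pool.Agent.P.MP_3c2f8c_gt.Ex.Gl.CpB
import Pool.Agent.P.MP_3c2f8c_gt.Ex.Gl.CpFb

/-! Ex-Gl-CpF: finitely many structure constants. -/

namespace Pool.Agent.P.MP_3c2f8c_gt.Ex

open Matrix

open CpFAux in
/-- Two bases with the same structure constants are related by a rational point. -/
theorem exists_gt_of_const {b : ℚ} (hb : b ≠ 0) {ε ε' : I × Fin 3 → I → Cub ℚ}
    (li : LinearIndependent ℚ ε) (sp : ∀ v : I → Cub ℚ, ∃ c : I × Fin 3 → ℚ, v = ∑ k, c k • ε k)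
    (li' : LinearIndependent ℚ ε') (sp' : ∀ v : I → Cub ℚ, ∃ c : I × Fin 3 → ℚ, v = ∑ k, c k • ε' k)
    (x y : I × Fin 3 → I × Fin 3 → ℚ) (hx : ∀ k, (Cub.eta : Cub ℚ) • ε k = ∑ l, x k l • ε l)
    (hx' : ∀ k, (Cub.eta : Cub ℚ) • ε' k = ∑ l, x k l • ε' l)
    (hy : ∀ k, PhiV Cub.sig (ph b (Cub ℚ)) (ε k) = ∑ l, y k l • ε l)
    (hy' : ∀ k, PhiV Cub.sig (ph b (Cub ℚ)) (ε' k) = ∑ l, y k l • ε' l) {t : ℚ} (ht : t ≠ 0)
    (hN : ∀ k l m, tri (nJ _) (ε k) (ε l) (ε m) = t • tri (nJ _) (ε' k) (ε' l) (ε' m)) :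
    ∃ g : Gt b ℚ, Gt.nu g = t ∧ ∀ k, g.1.1 *ᵥ ε' k = ε k := by
  obtain ⟨g, hg⟩ := exists_mat li' sp' x hx hx'
  obtain ⟨g', hg'⟩ := exists_mat li sp x hx' hx
  have sm : ∀ (c : ℚ) (v : I → Cub ℚ), c • v = Cub.C c • v := fun c v =>
    (algebraMap_smul (Cub ℚ) c v).symm
  have h1 : g * g' = 1 := Matrix.ext_of_mulVec_single fun a => by
    refine ind sp (P := fun v => (g * g') *ᵥ v = (1 : Matrix I I (Cub ℚ)) *ᵥ v) (fun k => ?_)
      (fun x y hx hy => ?_) (fun c x hx => ?_) _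
    · rw [← mulVec_mulVec, hg', hg, one_mulVec]
    · rw [mulVec_add, mulVec_add, hx, hy]
    · rw [mulVec_smul, mulVec_smul, hx]
  have h2 : Sim (nJ (Cub ℚ)) (nJ (Cub ℚ)) g (Cub.C t) := fun x y z => by
    induction x using ind sp' with
    | ha x x' hx hx' => rw [mulVec_add, tri_add₁, tri_add₁, hx, hx', mul_add]
    | hs c x hx => rw [sm, mulVec_smul, tri_smul₁, tri_smul₁, hx, mul_left_comm]
    | h0 k =>
      induction y using ind sp' with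
      | ha x x' hx hx' => rw [mulVec_add, tri_add₂, tri_add₂, hx, hx', mul_add]
      | hs c x hx => rw [sm, mulVec_smul, tri_smul₂, tri_smul₂, hx, mul_left_comm]
      | h0 l =>
        induction z using ind sp' with
        | ha x x' hx hx' => rw [mulVec_add, tri_add₃, tri_add₃, hx, hx', mul_add]
        | hs c x hx => rw [sm, mulVec_smul, tri_smul₃, tri_smul₃, hx, mul_left_comm]
        | h0 m => rw [hg, hg, hg, hN, Algebra.smul_def]; rfl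
  have h3 : ∀ v, g *ᵥ PhiV Cub.sig (ph b (Cub ℚ)) v = PhiV Cub.sig (ph b (Cub ℚ)) (g *ᵥ v) :=
    fun v => by
    induction v using ind sp' with
    | ha x x' hx hx' => rw [PhiV_add, mulVec_add, hx, hx', mulVec_add, PhiV_add]
    | hs c x hx => rw [sm, PhiV_smul, mulVec_smul, hx, mulVec_smul, PhiV_smul]
    | h0 k => simp only [hy', mulVec_sum, mulVec_smul, hg, hy]
  have h4 : g * ph b (Cub ℚ) = ph b (Cub ℚ) * g.map Cub.sig :=
    Matrix.ext_of_mulVec_single fun a => by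
      have e := h3 (Pi.single a 1)
      have e1 : (Cub.sig : Cub ℚ → Cub ℚ) ∘ (Pi.single a 1 : I → Cub ℚ) = Pi.single a 1 := by
        funext c
        by_cases h : c = a
        · subst h
          simp
        · simp [h]
      have e2 : (Cub.sig : Cub ℚ → Cub ℚ) ∘ (g *ᵥ Pi.single a 1) =
          g.map Cub.sig *ᵥ Pi.single a 1 := by
        funext c
        simp
      rwa [PhiV, PhiV, e1, e2, mulVec_mulVec, mulVec_mulVec] at e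
  let G : Gt b ℚ := ⟨⟨g, g', h1, mul_eq_one_comm.1 h1⟩,
    ⟨Units.map (Cub.C : ℚ →+* Cub ℚ).toMonoidHom (Units.mk0 t ht), h2⟩, h4⟩
  exact ⟨G, Gt.nu_eq G h2, hg⟩

namespace CpFAux

open CpEAux

/-- Adelic points with a bounded basis. -/
def Dat (b : ℚ) (C : ℝ) : Type :=
  {d : (∀ p : Nat.Primes, Gt b ℚ_[p]) × ℚ × Gt b ℝ × (KI → I → Cub ℚ) //
    APt d.1 d.2.1 d.2.2.1 ∧ LBasis d.1 d.2.2.1 C d.2.2.2}

theorem exists_reps {b : ℚ} (hb : b ≠ 0) (C : ℝ) : ∃ s : Set (Dat b C), s.Finite ∧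
    ∀ d : Dat b C, ∃ r ∈ s, ∃ g : Gt b ℚ, Gt.nu g = d.1.2.1 / r.1.2.1 ∧
      ∀ k, g.1.1 *ᵥ r.1.2.2.2 k = d.1.2.2.2 k := by
  choose x hx using fun (d : Dat b C) k => d.2.2.span ((Cub.eta : Cub ℚ) • d.1.2.2.2 k)
  choose y hy using fun (d : Dat b C) k =>
    d.2.2.span (PhiV Cub.sig (ph b (Cub ℚ)) (d.1.2.2.2 k))
  let sc : Dat b C → (KI → KI → ℚ) × (KI → KI → ℚ) × (KI → KI → KI → Cub ℚ) := fun d =>
    (x d, y d, fun k l m => d.1.2.1⁻¹ • tri (nJ _) (d.1.2.2.2 k) (d.1.2.2.2 l) (d.1.2.2.2 m))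
  obtain ⟨T₁, f₁, h₁⟩ := finite_eta b C
  obtain ⟨T₂, f₂, h₂⟩ := finite_phi b C
  obtain ⟨T₃, f₃, h₃⟩ := finite_tri hb C
  have hfin : (Set.range sc).Finite := by
    refine ((Set.Finite.pi' fun _ : KI => Set.Finite.pi' fun _ : KI => f₁).prod
      ((Set.Finite.pi' fun _ : KI => Set.Finite.pi' fun _ : KI => f₂).prod
        (Set.Finite.pi' fun _ : KI => Set.Finite.pi' fun _ : KI =>
          Set.Finite.pi' fun _ : KI => f₃))).subset ?_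
    rintro _ ⟨d, rfl⟩
    exact ⟨fun k => h₁ _ _ _ d.2.2 k _ (hx d k), fun k => h₂ _ _ _ d.2.2 k _ (hy d k),
      h₃ _ _ _ _ d.2.1 d.2.2⟩
  have := hfin.to_subtype
  refine ⟨Set.range (Set.rangeSplitting sc), Set.finite_range _, fun d => ?_⟩
  refine ⟨_, ⟨⟨sc d, d, rfl⟩, rfl⟩, ?_⟩
  have e := Set.apply_rangeSplitting sc ⟨sc d, d, rfl⟩
  generalize Set.rangeSplitting sc ⟨sc d, d, rfl⟩ = r at e
  have e1 : x r = x d := congrArg (·.1) e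
  have e2 : y r = y d := congrArg (·.2.1) e
  have n1 := APt.ne hb d.2.1
  have n2 := APt.ne hb r.2.1
  refine exists_gt_of_const hb d.2.2.li d.2.2.span r.2.2.li r.2.2.span (x d) (y d) (hx d)
    (e1 ▸ hx r) (hy d) (e2 ▸ hy r) (div_ne_zero n1 n2) fun k l m => ?_
  have e3 : r.1.2.1⁻¹ • tri (nJ _) (r.1.2.2.2 k) (r.1.2.2.2 l) (r.1.2.2.2 m) =
      d.1.2.1⁻¹ • tri (nJ _) (d.1.2.2.2 k) (d.1.2.2.2 l) (d.1.2.2.2 m) :=
    congrArg (·.2.2 k l m) e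
  rw [div_eq_mul_inv, mul_smul, e3, smul_smul, mul_inv_cancel₀ n1, one_smul]

theorem exists_apt {b : ℚ} (hb : b ≠ 0) {ρ : UG b ℝ ≃* E6} (hρ : IsRho b ρ)
    {u : ∀ p : Nat.Primes, UG b ℚ_[p]} (hu : u ∈ Ad (Kst b)) (k : E6) :
    ∃ (v : ∀ p : Nat.Primes, Gt b ℚ_[p]) (n : ℚ) (h : Gt b ℝ), APt v n h ∧
      (∀ p, QuotientGroup.mk (v p) = u p) ∧ ρ (QuotientGroup.mk h) = k := by
  have h1 : ∀ p : Nat.Primes, ∃ g : Gt b ℚ_[p], QuotientGroup.mk g = u p ∧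
      (u p ∈ K0 b p → g.1 ∈ IntG p) := fun p => by
    by_cases h : u p ∈ K0 b p
    · obtain ⟨g, h1, h2⟩ := mem_K0.1 h
      exact ⟨g, h2, fun _ => h1⟩
    · obtain ⟨g, hg⟩ := QuotientGroup.mk_surjective (u p)
      exact ⟨g, hg, fun h' => absurd h' h⟩
  choose v hv hv' using h1
  have fin : {p : Nat.Primes | (v p).1 ∉ IntG p}.Finite :=
    Set.Finite.subset hu fun p hp h => hp (hv' p h)
  obtain ⟨n, hn, hn'⟩ := exists_rat_norm (fun p => Gt.nu (v p))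
    (fun p => (Gt.isUnit_nu hb (v p)).ne_zero) (fin.subset fun p hp h => hp (Gt.norm_nu hb h))
  obtain ⟨h, h1, h2⟩ := hρ.exists_rep hb k (n := (n : ℝ)) (by exact_mod_cast hn.ne')
  exact ⟨v, n, h, ⟨fin, hn', h1⟩, hv, h2⟩

theorem gmap_vmap {b : ℚ} (k : Type) [CommRing k] [Algebra ℚ k] {g : Gt b ℚ} {v w : I → Cub ℚ}
    (h : g.1.1 *ᵥ v = w) : (gmap b (algebraMap ℚ k) g).1.1 *ᵥ vmap k v = vmap k w := by
  rw [← h, vmap_mulVec, gmap_val]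

end CpFAux

open CpFAux CpEAux in
theorem cocpt_Kst {b : ℚ} (hb : Good b) {ρ : UG b ℝ ≃* E6} (hρ : IsRho b ρ) :
    Cocpt (Phi b) (rhoQ ρ) (Kst b) := by
  obtain ⟨C, hC⟩ := exists_lbasis hb
  obtain ⟨s, hs, H⟩ := exists_reps hb.ne C
  obtain ⟨B, hB⟩ := bd_iota (Fintype.card KI * (C * C))
  obtain ⟨R₀, hR₀⟩ := AA_le_of_entry B
  obtain ⟨M, hM⟩ := (hs.image fun r => AA oX (ρ (QuotientGroup.mk r.1.2.2.1) • oX)).bddAbove
  obtain ⟨R, hR⟩ := AA_triangle (max M R₀)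
  refine ⟨R, (fun r p => QuotientGroup.mk (r.1.1 p)) '' s, hs.image _, ?_, fun u hu x => ?_⟩
  · rintro _ ⟨r, -, rfl⟩
    exact r.2.1.fin.subset fun p hp h => hp (mem_K0.2 ⟨_, h, rfl⟩)
  obtain ⟨k, hk⟩ := x.2
  obtain ⟨v, n, h, A, hv, hh⟩ := exists_apt hb.ne hρ hu k
  obtain ⟨ε, L⟩ := hC v n h A
  obtain ⟨r, hr, g, g1, g2⟩ := H ⟨(v, n, h, ε), A, L⟩
  have g3 : ∀ k, (g⁻¹).1.1 *ᵥ ε k = r.1.2.2.2 k := fun k => by
    have e : g.1.1 *ᵥ r.1.2.2.2 k = ε k := g2 k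
    rw [← e]
    exact mul_inv_mulVec g.1⁻¹ _
  refine ⟨QuotientGroup.mk g, _, ⟨r, hr, rfl⟩, fun p => mem_K0.2
    ⟨(r.1.1 p)⁻¹ * (gmap b (algebraMap ℚ ℚ_[p]) g)⁻¹ * v p, ⟨?_, ?_⟩, ?_⟩, ?_⟩
  · rw [← map_inv]
    exact intX_of L r.2.2 fun k => gmap_vmap _ (g3 k)
  · have e : ((r.1.1 p)⁻¹ * (gmap b (algebraMap ℚ ℚ_[p]) g)⁻¹ * v p)⁻¹ =
        (v p)⁻¹ * gmap b (algebraMap ℚ ℚ_[p]) g * r.1.1 p := by group
    rw [← Subgroup.coe_inv, e]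
    exact intX_of r.2.2 L fun k => gmap_vmap _ (g2 k)
  · rw [← hv]
    rfl
  · set w : Gt b ℝ := r.1.2.2.1⁻¹ * gmap b (algebraMap ℚ ℝ) g⁻¹ * h with hw
    have n1 : (n : ℝ) ≠ 0 := Rat.cast_ne_zero.2 (APt.ne hb.ne A)
    have n2 : (r.1.2.1 : ℝ) ≠ 0 := Rat.cast_ne_zero.2 (APt.ne hb.ne r.2.1)
    have e : gmap b (algebraMap ℚ ℝ) g * (r.1.2.2.1 * w) = h := by
      rw [hw, map_inv]
      group
    have h1 : Gt.nu w = 1 := by
      have := congrArg Gt.nu e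
      rw [Gt.nu_mul hb.ne, Gt.nu_mul hb.ne, Gt.nu_gmap, g1, A.hh, r.2.1.hh, eq_ratCast,
        Rat.cast_div, ← mul_assoc, div_mul_cancel₀ _ n2] at this
      exact mul_left_cancel₀ n1 (this.trans (mul_one _).symm)
    have h2 : AA oX (ρ (QuotientGroup.mk w) • oX) ≤ R₀ := hR₀ _ fun a c => by
      rw [hρ.of_nu hb.ne h1]
      exact hB _ (bd_of L r.2.2 (fun k => gmap_vmap ℝ (g3 k)) c) a
    have h3 : (rhoQ ρ (QuotientGroup.mk g))⁻¹ • x =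
        ρ (QuotientGroup.mk r.1.2.2.1) • ρ (QuotientGroup.mk w) • oX := by
      have e1 : x = k • oX := Subtype.ext hk.symm
      have e2 : rhoQ ρ (QuotientGroup.mk g) =
          ρ (QuotientGroup.mk (gmap b (algebraMap ℚ ℝ) g)) := rfl
      rw [e1, e2, ← hh, ← e, QuotientGroup.mk_mul, QuotientGroup.mk_mul, map_mul, map_mul,
        mul_smul, mul_smul, inv_smul_smul]
    rw [h3]
    refine hR _ (ρ (QuotientGroup.mk r.1.2.2.1) • oX) _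
      ((hM ⟨r, hr, rfl⟩).trans (le_max_left _ _)) ?_
    rw [AA_smul]
    exact h2.trans (le_max_right _ _)

end Pool.Agent.P.MP_3c2f8c_gt.Ex
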