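import Pool.Agent.P.MP_3c2f8c_gt.Ex.Gl.CpA
import Pool.Agent.P.MP_3c2f8c_gt.Ex.Gl.CpF

/-!
Compactness of the adelic quotient and discreteness of the rational points.
-/

namespace Pool.Agent.P.MP_3c2f8c_gt.Ex

theorem cocpt_UG {b : ℚ} (hb : Good b) {ρ : UG b ℝ ≃* E6} (hρ : IsRho b ρ)
    {K : ∀ p : Nat.Primes, Subgroup (UG b ℚ_[p])} (hK : Level (Kst b) K) :
    Cocpt (Phi b) (rhoQ ρ) K := (cocpt_Kst hb hρ).level (fun p => co_K0 b p) hK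

theorem proper_UG {b : ℚ} (hb : b ≠ 0) {ρ : UG b ℝ ≃* E6} (hρ : IsRho b ρ)
    {K : ∀ p : Nat.Primes, Subgroup (UG b ℚ_[p])} (hK : Level (Kst b) K) :
    Proper (Phi b) (rhoQ ρ) K := (proper_Kst hb hρ).level (fun p => co_K0 b p) hK

end Pool.Agent.P.MP_3c2f8c_gt.Ex
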