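import Pool.Agent.P.MP_3c2f8c_gt.Ex.Al.Cub2

/-!
The arithmetic data: `b₁ = 55 * 323`, `b₂ = 55 * 323²`, `S' = {17, 19}`.
-/

namespace Pool.Agent.P.MP_3c2f8c_gt.Ex

namespace DataAux

section

variable {p : ℕ} [Fact p.Prime]

/-- `t` is the norm of an integral unit. -/
def UN (t : ℚ_[p]) : Prop := ∃ c : (Cub ℚ_[p])ˣ, (IntC c.1 ∧ IntC (c⁻¹).1) ∧ Cub.nrm c.1 = t

theorem UN.mul {s t : ℚ_[p]} (hs : UN s) (ht : UN t) : UN (s * t) := by
  obtain ⟨c, ⟨c1, c2⟩, rfl⟩ := hs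
  obtain ⟨d, ⟨d1, d2⟩, rfl⟩ := ht
  refine ⟨c * d, ⟨c1.mul d1, ?_⟩, Cub.nrm_mul _ _⟩
  rw [_root_.mul_inv_rev]
  exact d2.mul c2

theorem UN.inv {t : ℚ_[p]} (ht : UN t) : UN t⁻¹ := by
  obtain ⟨c, ⟨c1, c2⟩, rfl⟩ := ht
  refine ⟨c⁻¹, ⟨c2, c1⟩, eq_inv_of_mul_eq_one_left ?_⟩
  rw [← Cub.nrm_mul, Units.inv_mul, Cub.nrm_one]

theorem UN.sq {t : ℚ_[p]} (ht : UN t) : UN (t ^ 2) := by
  rw [pow_two]
  exact ht.mul ht

theorem cube {n : ℕ} {a : ℤ} (h3 : p.Coprime 3) (ha : a ^ 2 = 1) (h : (p : ℤ) ∣ a ^ 3 - n) :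
    ∃ z : ℚ_[p], z ^ 3 = n := by
  have ha' : (a : ℤ_[p]) ^ 2 = 1 := by exact_mod_cast congrArg (Int.cast : ℤ → ℤ_[p]) ha
  obtain ⟨z, hz, -⟩ := hensels_lemma (p := p)
    (F := (Polynomial.X ^ 3 - Polynomial.C (n : ℤ_[p]) : Polynomial ℤ_[p])) (a := (a : ℤ_[p])) (by
    have e1 : (Polynomial.X ^ 3 - Polynomial.C (n : ℤ_[p]) : Polynomial ℤ_[p]).aeval (a : ℤ_[p]) =
        ((a ^ 3 - n : ℤ) : ℤ_[p]) := by simp
    have e2 : (Polynomial.X ^ 3 - Polynomial.C (n : ℤ_[p]) : Polynomial ℤ_[p]).derivative.aeval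
        (a : ℤ_[p]) = ((3 : ℕ) : ℤ_[p]) := by
      simp [ha']
      norm_num
    rw [e1, e2, PadicInt.norm_natCast_eq_one_iff.2 h3, one_pow, PadicInt.norm_int_lt_one_iff_dvd]
    exact h)
  refine ⟨z, ?_⟩
  have h1 : z ^ 3 = (n : ℤ_[p]) := by simpa [sub_eq_zero] using hz
  exact_mod_cast congrArg (fun t : ℤ_[p] => (t : ℚ_[p])) h1

theorem un_nat {n : ℕ} (hp : p.Coprime n) (h7 : n % 7 = 1 ∨ n % 7 = 6) : UN (n : ℚ_[p]) := by
  have hn : ‖(n : ℚ_[p])‖ = 1 := Padic.norm_natCast_eq_one_iff.2 hp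
  by_cases h : p = 7
  · have hz : ∃ z : ℚ_[p], z ^ 3 = n := by
      rcases h7 with h7 | h7
      · exact cube (a := 1) (by rw [h]; norm_num) (by norm_num) (by rw [h]; omega)
      · exact cube (a := -1) (by rw [h]; norm_num) (by norm_num) (by rw [h]; omega)
    obtain ⟨z, hz⟩ := hz
    have h1 : ‖z‖ = 1 := by
      rw [← hz, norm_pow] at hn
      exact (pow_eq_one_iff_of_nonneg (norm_nonneg z) (by norm_num)).1 hn
    have h0 : z ≠ 0 := by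
      rintro rfl
      simp at h1
    refine ⟨Units.map (Cub.C : ℚ_[p] →+* Cub ℚ_[p]).toMonoidHom (Units.mk0 z h0),
      ⟨intC_C.2 h1.le, intC_C.2 ?_⟩, (Cub.nrm_C z).trans hz⟩
    show ‖z⁻¹‖ ≤ 1
    rw [norm_inv, h1, inv_one]
  · obtain ⟨c, c1, c2, c3⟩ := exists_nrm_unit h hn
    exact ⟨c, ⟨c1, c2⟩, c3⟩

theorem un55 (h5 : p ≠ 5) (h11 : p ≠ 11) : UN (55 : ℚ_[p]) := by
  have h := un_nat (p := p) (n := 5 * 11) (Nat.Coprime.mul_right
    ((Nat.coprime_primes Fact.out (by norm_num)).2 h5)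
    ((Nat.coprime_primes Fact.out (by norm_num)).2 h11)) (by norm_num)
  exact_mod_cast h

theorem un323 (h : ¬ (p = 17 ∨ p = 19)) : UN (323 : ℚ_[p]) := by
  have h := un_nat (p := p) (n := 17 * 19) (Nat.Coprime.mul_right
    ((Nat.coprime_primes Fact.out (by norm_num)).2 fun e => h (Or.inl e))
    ((Nat.coprime_primes Fact.out (by norm_num)).2 fun e => h (Or.inr e))) (by norm_num)
  exact_mod_cast h

theorem nr5 : ∀ t : ZMod 5, t ^ 3 + t ^ 2 - 2 * t - 1 ≠ 0 := by decide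

theorem nr11 : ∀ t : ZMod 11, t ^ 3 + t ^ 2 - 2 * t - 1 ≠ 0 := by decide

theorem nr17 : ∀ t : ZMod 17, t ^ 3 + t ^ 2 - 2 * t - 1 ≠ 0 := by decide

theorem nr19 : ∀ t : ZMod 19, t ^ 3 + t ^ 2 - 2 * t - 1 ≠ 0 := by decide

theorem inert (h : p = 5 ∨ p = 11 ∨ p = 17 ∨ p = 19) : Inert p := by
  rcases h with rfl | rfl | rfl | rfl
  exacts [inert_of_no_root nr5, inert_of_no_root nr11, inert_of_no_root nr17,
    inert_of_no_root nr19]

theorem not_dvd_val {q : ℚ} (k m : ℕ) (hq : q = (p ^ k * m : ℕ)) (hm : ¬ p ∣ m) (hk : ¬ 3 ∣ k) :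
    ¬ (3 : ℤ) ∣ padicValRat p q := by
  have hm0 : m ≠ 0 := by
    rintro rfl
    exact hm (dvd_zero p)
  rw [hq, padicValRat.of_nat, padicValNat.mul (pow_ne_zero k (Fact.out : p.Prime).ne_zero) hm0,
    padicValNat.prime_pow, padicValNat.eq_zero_of_not_dvd hm, add_zero]
  exact_mod_cast hk

theorem not_nrm {q : ℚ} (hq : q ≠ 0) (h : Div p q) (x : Cub ℚ) : Cub.nrm x ≠ q := fun e => by
  have h1 : Cub.nrm (Cub.map (algebraMap ℚ ℚ_[p]) x) = (q : ℚ_[p]) := by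
    rw [Cub.nrm_map, e]
    rfl
  have h2 : Cub.map (algebraMap ℚ ℚ_[p]) x ≠ 0 := fun h0 => by
    rw [h0, Cub.nrm_eq] at h1
    simp at h1
    exact hq (by exact_mod_cast h1.symm)
  have h3 := (h.1.three_dvd h2).2
  rw [h1, Padic.valuation_ratCast] at h3
  exact h.2 h3

theorem loc1 : IsNrm p (55 * 323) ∨ Div p (55 * 323) := by
  by_cases h : p = 5 ∨ p = 11 ∨ p = 17 ∨ p = 19
  · refine Or.inr ⟨inert h, ?_⟩
    rcases h with rfl | rfl | rfl | rfl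
    · exact not_dvd_val 1 (11 * 323) (by norm_num) (by norm_num) (by norm_num)
    · exact not_dvd_val 1 (5 * 323) (by norm_num) (by norm_num) (by norm_num)
    · exact not_dvd_val 1 (55 * 19) (by norm_num) (by norm_num) (by norm_num)
    · exact not_dvd_val 1 (55 * 17) (by norm_num) (by norm_num) (by norm_num)
  · obtain ⟨c, -, hc⟩ := (un55 (p := p) (by omega) (by omega)).mul (un323 (by omega))
    exact Or.inl ⟨c, by rw [hc]; push_cast; rfl⟩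

theorem loc2 : IsNrm p (55 * 323 ^ 2) ∨ Div p (55 * 323 ^ 2) := by
  by_cases h : p = 5 ∨ p = 11 ∨ p = 17 ∨ p = 19
  · refine Or.inr ⟨inert h, ?_⟩
    rcases h with rfl | rfl | rfl | rfl
    · exact not_dvd_val 1 (11 * 323 ^ 2) (by norm_num) (by norm_num) (by norm_num)
    · exact not_dvd_val 1 (5 * 323 ^ 2) (by norm_num) (by norm_num) (by norm_num)
    · exact not_dvd_val 2 (55 * 19 ^ 2) (by norm_num) (by norm_num) (by norm_num)
    · exact not_dvd_val 2 (55 * 17 ^ 2) (by norm_num) (by norm_num) (by norm_num)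
  · obtain ⟨c, -, hc⟩ := (un55 (p := p) (by omega) (by omega)).mul (un323 (by omega)).sq
    exact Or.inl ⟨c, by rw [hc]; push_cast; rfl⟩

end

/-- The prime five. -/
def p5 : Nat.Primes := ⟨5, by norm_num⟩

/-- The prime seventeen. -/
def p17 : Nat.Primes := ⟨17, by norm_num⟩

/-- The prime nineteen. -/
def p19 : Nat.Primes := ⟨19, by norm_num⟩

/-- The set of the two primes. -/
def S2 : Finset Nat.Primes := {p17, p19}

theorem mem_S2 {p : Nat.Primes} : p ∈ S2 ↔ p.1 = 17 ∨ p.1 = 19 := by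
  rw [S2, Finset.mem_insert, Finset.mem_singleton]
  exact or_congr Subtype.ext_iff Subtype.ext_iff

theorem bal {b t : ℚ} (ht : t ≠ 0) (hb : b = 55 * t)
    (hu : ∀ p : Nat.Primes, p ∉ S2 → UN (t : ℚ_[p])) : Bal b S2 := by
  have h : ∀ p : Nat.Primes, ∃ c : (Cub ℚ_[p])ˣ, (IntC c.1 ∧ IntC (c⁻¹).1) ∧
      ((t ^ 2 : ℚ) : ℚ_[p]) * Cub.nrm c.1 = if p ∈ S2 then (b : ℚ_[p]) ^ 2 else 1 := fun p => by
    by_cases hp : p ∈ S2
    · have h1 := mem_S2.1 hp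
      obtain ⟨c, hc, e⟩ := (un55 (p := p) (by omega) (by omega)).sq
      refine ⟨c, hc, ?_⟩
      rw [if_pos hp, e, hb]
      push_cast
      ring
    · obtain ⟨c, hc, e⟩ := (hu p hp).sq.inv
      refine ⟨c, hc, ?_⟩
      rw [if_neg hp, e, Rat.cast_pow]
      exact mul_inv_cancel₀ (pow_ne_zero 2 (by exact_mod_cast ht))
  choose c hc hc' using h
  exact ⟨t ^ 2, c, pow_ne_zero 2 ht, Set.finite_empty.subset fun p hp => hp (hc p), hc'⟩

theorem link (p : Nat.Primes) : ∃ c : (Cub ℚ_[p])ˣ, (p ∉ S2 → IntC c.1 ∧ IntC (c⁻¹).1) ∧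
    ((55 * 323 ^ 2 : ℚ) : ℚ_[p]) * Cub.nrm c.1 =
      if p ∈ S2 then ((55 * 323 : ℚ) : ℚ_[p])⁻¹ else ((55 * 323 : ℚ) : ℚ_[p]) := by
  by_cases hp : p ∈ S2
  · have h1 := mem_S2.1 hp
    obtain ⟨c, -, e⟩ := (un55 (p := p) (by omega) (by omega)).sq.inv
    refine ⟨c * Units.map (Cub.C : ℚ_[p] →+* Cub ℚ_[p]).toMonoidHom
      (Units.mk0 (323 : ℚ_[p])⁻¹ (by norm_num)), fun h => absurd hp h, ?_⟩
    show _ * Cub.nrm (c.1 * Cub.C (323 : ℚ_[p])⁻¹) = _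
    rw [if_pos hp, Cub.nrm_mul, Cub.nrm_C, e]
    push_cast
    norm_num
  · obtain ⟨c, hc, e⟩ := (un323 (p := p) fun h => hp (mem_S2.2 h)).inv
    refine ⟨c, fun _ => hc, ?_⟩
    rw [if_neg hp, e]
    push_cast
    norm_num

end DataAux

theorem exists_data : ∃ (b b' : ℚ) (S' : Finset Nat.Primes) (c : ∀ p : Nat.Primes, (Cub ℚ_[p])ˣ),
    Good b ∧ Good b' ∧ Bal b S' ∧ Bal b' S' ∧ l13 ∉ S' ∧
    {p : Nat.Primes | ¬ (IntC (c p).1 ∧ IntC ((c p)⁻¹).1)}.Finite ∧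
    (∀ p : Nat.Primes, (b' : ℚ_[p]) * Cub.nrm (c p).1 = if p ∈ S' then (b : ℚ_[p])⁻¹ else b) ∧
    (∀ x : Cub ℚ, b ^ 2 * Cub.nrm x ≠ b' ^ 2) ∧ ∀ x : Cub ℚ, Cub.nrm x ≠ b ^ 2 * b' ^ 2 := by
  choose c hc hc' using DataAux.link
  have : Fact (Nat.Prime 5) := ⟨by norm_num⟩
  have : Fact (Nat.Prime 17) := ⟨by norm_num⟩
  refine ⟨55 * 323, 55 * 323 ^ 2, DataAux.S2, c,
    ⟨by norm_num, fun p => DataAux.loc1, DataAux.p5, DataAux.inert (Or.inl rfl), ?_⟩,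
    ⟨by norm_num, fun p => DataAux.loc2, DataAux.p5, DataAux.inert (Or.inl rfl), ?_⟩,
    DataAux.bal (t := 323) (by norm_num) rfl fun p hp => ?_,
    DataAux.bal (t := 323 ^ 2) (by norm_num) rfl fun p hp => ?_, fun h => ?_,
    DataAux.S2.finite_toSet.subset fun p hp => ?_, hc', fun x h => ?_, fun x => ?_⟩
  · exact DataAux.not_dvd_val (p := 5) 1 (11 * 323) (by norm_num) (by norm_num) (by norm_num)
  · exact DataAux.not_dvd_val (p := 5) 1 (11 * 323 ^ 2) (by norm_num) (by norm_num) (by norm_num)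
  · exact_mod_cast DataAux.un323 (p := p) fun h => hp (DataAux.mem_S2.2 h)
  · exact_mod_cast (DataAux.un323 (p := p) fun h => hp (DataAux.mem_S2.2 h)).sq
  · have h1 : 13 = 17 ∨ 13 = 19 := DataAux.mem_S2.1 h
    omega
  · by_contra h
    exact hp (hc p h)
  · refine DataAux.not_nrm (p := 17) (q := 323 ^ 2) (by norm_num)
      ⟨DataAux.inert (Or.inr (Or.inr (Or.inl rfl))), ?_⟩ x (by linarith)
    exact DataAux.not_dvd_val (p := 17) 2 (19 ^ 2) (by norm_num) (by norm_num) (by norm_num)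
  · refine DataAux.not_nrm (p := 5) (by norm_num) ⟨DataAux.inert (Or.inl rfl), ?_⟩ x
    exact DataAux.not_dvd_val (p := 5) 4 (11 ^ 4 * 323 ^ 6) (by norm_num) (by norm_num)
      (by norm_num)

end Pool.Agent.P.MP_3c2f8c_gt.Ex
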