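import Pool.Agent.P.MP_3c2f8c_gt.Ex.Gl.Rho

/-!
The local isomorphisms between the two groups.
-/

namespace Pool.Agent.P.MP_3c2f8c_gt.Ex

namespace LinkAux

open Matrix Polynomial

section

variable {R : Type} [CommRing R] [Algebra ℚ R] {b b' : ℚ}

/-- Scalar matrices. -/
def Sc (g : GL I (Cub R)) : Prop := ∃ t : Rˣ, g.1 = (t : R) • (1 : Matrix I I (Cub R))

/-- `m` intertwines the two semilinear maps up to a unit. -/
def Rel (b b' : ℚ) (m : GL I (Cub R)) (c : (Cub R)ˣ) : Prop :=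
  m.1 * ph b (Cub R) = c.1 • (ph b' (Cub R) * m.1.map Cub.sig)

/-- The Galois action on invertible matrices. -/
abbrev sg : GL I (Cub R) →* GL I (Cub R) := glmap (Cub.sig : Cub R ≃+* Cub R).toRingHom

theorem Rel.mul {b'' : ℚ} {m m' : GL I (Cub R)} {c c' : (Cub R)ˣ} (h : Rel b' b'' m c)
    (h' : Rel b b' m' c') : Rel b b'' (m * m') (c * c') := by
  unfold Rel at *
  rw [Units.val_mul, Matrix.mul_assoc, h', Matrix.mul_smul, ← Matrix.mul_assoc, h,
    Matrix.smul_mul, smul_smul, Matrix.map_mul, Matrix.mul_assoc, Units.val_mul, mul_comm c.1]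

theorem Rel.inv {m : GL I (Cub R)} {c : (Cub R)ˣ} (h : Rel b b' m c) : Rel b' b m⁻¹ c⁻¹ := by
  have h1 : m.1 * ph b (Cub R) = c.1 • (ph b' (Cub R) * (sg m).1) := h
  change (m⁻¹).1 * ph b' (Cub R) = (c⁻¹).1 • (ph b (Cub R) * (sg m⁻¹).1)
  rw [map_inv, ← Units.mul_right_inj m, Units.mul_inv_cancel_left, Matrix.mul_smul,
    ← Matrix.mul_assoc, h1, Matrix.smul_mul, smul_smul, Units.inv_mul, one_smul,
    Units.mul_inv_cancel_right]

theorem Rel.cartan (hb : b ≠ 0) (hb' : b' ≠ 0) {m : GL I (Cub R)} {c : (Cub R)ˣ}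
    (h : Rel b b' m c) : Rel b⁻¹ b'⁻¹ (cartan m) c⁻¹ := by
  obtain ⟨φ, hφ⟩ := exists_phU hb (Cub R)
  obtain ⟨ψ, hψ⟩ := exists_phU hb' (Cub R)
  have e1 : (Ex.cartan φ).1 = ph b⁻¹ (Cub R) :=
    cartan_phi (b := Units.map (algebraMap ℚ (Cub R)).toMonoidHom (Units.mk0 b hb)) hφ
  have e2 : (Ex.cartan ψ).1 = ph b'⁻¹ (Cub R) :=
    cartan_phi (b := Units.map (algebraMap ℚ (Cub R)).toMonoidHom (Units.mk0 b' hb')) hψ
  have h1 : (m * φ).1 = c.1 • (ψ * sg m).1 := by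
    rw [Units.val_mul, Units.val_mul, hφ, hψ]
    exact h
  have h2 := cartan_smul h1
  rw [cartan_mul, cartan_mul, cartan_map, Units.val_mul, Units.val_mul, e1, e2] at h2
  exact h2

theorem mem_iff {g : GL I (Cub R)} : g ∈ Gt b R ↔ g ∈ Str (nJ (Cub R)) ∧ Rel b b g 1 := by
  rw [Rel, Units.val_one, one_smul]
  rfl

theorem conj_mem {m g : GL I (Cub R)} {c : (Cub R)ˣ} (hm : m ∈ Str (nJ (Cub R)))
    (h : Rel b b' m c) (hg : g ∈ Gt b R) : m * g * m⁻¹ ∈ Gt b' R := by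
  refine mem_iff.2 ⟨mul_mem (mul_mem hm hg.1) (inv_mem hm), ?_⟩
  simpa using (h.mul (mem_iff.1 hg).2).mul h.inv

theorem cartan_mem' (hb : b ≠ 0) {g : GL I (Cub R)} (hg : g ∈ Gt b R) : cartan g ∈ Gt b⁻¹ R := by
  refine mem_iff.2 ⟨cartan_mem hg.1, ?_⟩
  simpa using (mem_iff.1 hg).2.cartan hb hb

omit [Algebra ℚ R] in
theorem Sc.conj (m : GL I (Cub R)) {g : GL I (Cub R)} (h : Sc g) : Sc (m * g * m⁻¹) := by
  obtain ⟨t, ht⟩ := h
  exact ⟨t, by rw [Units.val_mul, Units.val_mul, ht, Matrix.mul_smul, Matrix.mul_one,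
    Matrix.smul_mul, Units.mul_inv]⟩

theorem Sc.cartan {g : GL I (Cub R)} (h : Sc g) : Sc (cartan g) := by
  obtain ⟨t, ht⟩ := h
  have h1 : g.1 = (Units.map (algebraMap R (Cub R)).toMonoidHom t).1 • (1 : GL I (Cub R)).1 :=
    ht.trans (algebraMap_smul _ _ _).symm
  have h2 := cartan_smul h1
  rw [cartan_one] at h2
  exact ⟨t⁻¹, h2.trans (algebraMap_smul _ _ _)⟩

theorem regP_smul {M : Matrix I I (PadicAlgCl 13)} {s : PadicAlgCl 13} (hs : s ≠ 0)
    (h : RegP M.charpoly) : RegP (s • M).charpoly := by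
  obtain ⟨lam, c, r, hc, hr, h1, h2⟩ := h
  refine ⟨fun a => s * lam a, c, ‖s‖ * r, hc, mul_pos (norm_pos_iff.2 hs) hr,
    Polynomial.funext fun x => ?_, fun a => by rw [norm_mul, h2, mul_assoc]⟩
  have e : Matrix.scalar I x - s • M = s • (Matrix.scalar I (s⁻¹ * x) - M) := by
    rw [smul_sub, scalar_apply, scalar_apply, ← diagonal_smul]
    congr 2
    funext i
    simp [hs]
  rw [eval_charpoly, e, det_smul, ← eval_charpoly, h1, eval_prod, eval_prod, ← Finset.card_univ,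
    ← Finset.prod_const, ← Finset.prod_mul_distrib]
  refine Finset.prod_congr rfl fun a _ => ?_
  simp [mul_sub, hs]

theorem reg_mk {g : Gt b R} (h : Reg (QuotientGroup.mk g : UG b R)) :
    ∃ j : Cub R →+* PadicAlgCl 13, RegP (g.1.1.charpoly.map j) := by
  obtain ⟨g', j, h1, h2⟩ := h
  obtain ⟨t, ht⟩ := QuotientGroup.eq.1 h1
  have e : g.1.1 = Cub.C (t : R) • g'.1.1 := by
    have e1 : g.1.1 = g'.1.1 * (g'⁻¹ * g).1.1 := by
      rw [← Units.val_mul, ← Subgroup.coe_mul, mul_inv_cancel_left]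
    rw [e1, ht, Matrix.mul_smul, Matrix.mul_one]
    exact (algebraMap_smul (Cub R) _ _).symm
  refine ⟨j, ?_⟩
  rw [← charpoly_map] at h2 ⊢
  have e2 : g.1.1.map j = j (Cub.C (t : R)) • g'.1.1.map j := by
    rw [e]
    ext a c
    simp
  rw [e2]
  exact regP_smul ((t.isUnit.map Cub.C).map j).ne_zero h2

variable [TopologicalSpace R] [IsTopologicalRing R]

omit [IsTopologicalRing R] in
theorem quot (F : GL I (Cub R) ≃* GL I (Cub R)) (c1 : Continuous F) (c2 : Continuous F.symm)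
    (g1 : ∀ g ∈ Gt b R, F g ∈ Gt b' R) (g2 : ∀ g ∈ Gt b' R, F.symm g ∈ Gt b R)
    (s1 : ∀ g, Sc g → Sc (F g)) (s2 : ∀ g, Sc g → Sc (F.symm g)) :
    ∃ e : UG b R ≃ₜ* UG b' R, ∀ g : Gt b R,
      e (QuotientGroup.mk g) = QuotientGroup.mk ⟨F g, g1 _ g.2⟩ := by
  let f : Gt b R ≃* Gt b' R :=
    { toFun := fun g => ⟨F g, g1 _ g.2⟩
      invFun := fun g => ⟨F.symm g, g2 _ g.2⟩
      left_inv := fun g => Subtype.ext (F.symm_apply_apply g)
      right_inv := fun g => Subtype.ext (F.apply_symm_apply g)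
      map_mul' := fun g h => Subtype.ext (map_mul F g.1 h.1) }
  have hf : (Scal R (Gt b R)).map f = Scal R (Gt b' R) := by
    ext g
    exact ⟨by rintro ⟨h, hh, rfl⟩; exact s1 _ hh,
      fun hg => ⟨f.symm g, s2 _ hg, f.apply_symm_apply g⟩⟩
  exact ⟨{ QuotientGroup.congr _ _ f hf with
    continuous_toFun := (QuotientGroup.isQuotientMap_mk _).continuous_iff.2
      (QuotientGroup.continuous_mk.comp ((c1.comp continuous_subtype_val).subtype_mk _))
    continuous_invFun := (QuotientGroup.isQuotientMap_mk _).continuous_iff.2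
      (QuotientGroup.continuous_mk.comp ((c2.comp continuous_subtype_val).subtype_mk _)) },
    fun g => rfl⟩

theorem continuous_cartan : Continuous (cartan : GL I (Cub R) → GL I (Cub R)) :=
  (continuous_const.mul (Units.continuous_iff.2
    ⟨Units.continuous_coe_inv.matrix_transpose, Units.continuous_val.matrix_transpose⟩)).mul
    continuous_const

theorem loc (hb : b ≠ 0) (P : Prop) [Decidable P] {m : GL I (Cub R)} {c : (Cub R)ˣ}
    (hm : m ∈ Str (nJ (Cub R))) (h : Rel (if P then b⁻¹ else b) b' m c) :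
    ∃ e : UG b R ≃ₜ* UG b' R, ∀ g : Gt b R, ∃ g' : Gt b' R,
      e (QuotientGroup.mk g) = QuotientGroup.mk g' ∧
        g'.1 = m * (if P then cartan g.1 else g.1) * m⁻¹ := by
  obtain ⟨e, he⟩ := quot (b := if P then b⁻¹ else b) (b' := b') (MulAut.conj m)
    ((continuous_const.mul continuous_id).mul continuous_const)
    ((continuous_const.mul continuous_id).mul continuous_const) (fun g => conj_mem hm h)
    (fun g => conj_mem (inv_mem hm) h.inv) (fun g => Sc.conj m) fun g => Sc.conj m⁻¹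
  by_cases hP : P
  · simp only [if_pos hP]
    obtain ⟨e', he'⟩ := quot (R := R) (b := b) (b' := if P then b⁻¹ else b)
      ⟨⟨cartan, cartan, cartan_cartan, cartan_cartan⟩, cartan_mul⟩ continuous_cartan
      continuous_cartan (fun g hg => by rw [if_pos hP]; exact cartan_mem' hb hg)
      (fun g hg => by
        rw [if_pos hP] at hg
        simpa using cartan_mem' (inv_ne_zero hb) hg) (fun g => Sc.cartan) fun g => Sc.cartan
    exact ⟨e'.trans e, fun g => ⟨_, (congrArg e (he' g)).trans (he _), rfl⟩⟩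
  · generalize hb₀ : (if P then b⁻¹ else b) = b₀ at *
    obtain rfl : b = b₀ := by rw [← hb₀, if_neg hP]
    simp only [if_neg hP]
    exact ⟨e, fun g => ⟨_, he g, rfl⟩⟩

end

theorem rd_mul {A : Type} [CommRing A] {x y : Fin 3 → A} (h : ∀ i, x i * y i = 1) :
    diagonal (rdiag x) * diagonal (rdiag y) = 1 := by
  have e := rdiag_mul x y
  rw [show x * y = 1 from funext h, rdiag_one] at e
  rw [diagonal_mul_diagonal, ← diagonal_one]
  exact congrArg diagonal e.symm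

/-- The invertible diagonal similitude. -/
def rdU {A : Type} [CommRing A] (d : Fin 3 → Aˣ) : GL I A where
  val := diagonal (rdiag fun i => (d i).1)
  inv := diagonal (rdiag fun i => ((d i)⁻¹).1)
  val_inv := rd_mul fun i => (d i).mul_inv
  inv_val := rd_mul fun i => (d i).inv_mul

theorem intX_rdiag {p : ℕ} [Fact p.Prime] {d : Fin 3 → Cub ℚ_[p]} (h : ∀ i, IntC (d i)) :
    IntX (diagonal (rdiag d)) := fun a c => by
  rw [diagonal_apply]
  split_ifs
  · rcases a with i | j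
    · change IntC (d i ^ 2)
      rw [sq]
      exact (h i).mul (h i)
    · exact (h _).mul (h _)
  · exact intC_zero

theorem rdU_mem {A : Type} [CommRing A] (d : Fin 3 → Aˣ) : rdU d ∈ Str (nJ A) :=
  ⟨(d 0 * d 1 * d 2) ^ 2, by
    rw [Units.val_pow_eq_pow_val, Units.val_mul, Units.val_mul]
    exact sim_rdiag fun i => (d i).1⟩

theorem rdU_int {p : ℕ} [Fact p.Prime] {c : (Cub ℚ_[p])ˣ} (h : IntC c.1 ∧ IntC (c⁻¹).1) :
    rdU ![1, c, c * Units.map (Cub.sig : Cub ℚ_[p] ≃+* Cub ℚ_[p]).toMonoidHom c] ∈ IntG p := by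
  refine ⟨intX_rdiag fun i => ?_, intX_rdiag fun i => ?_⟩
  · fin_cases i
    exacts [intC_one, h.1, h.1.mul h.1.sig]
  · fin_cases i
    exacts [intC_one, h.2, h.2.sig.mul h.2]

theorem rel_rdU {R : Type} [CommRing R] [Algebra ℚ R] {b b' : ℚ} (c : (Cub R)ˣ)
    (h : algebraMap ℚ R b' * Cub.nrm c.1 = algebraMap ℚ R b) :
    Rel b b' (rdU ![1, c, c * Units.map (Cub.sig : Cub R ≃+* Cub R).toMonoidHom c]) (c ^ 2) := by
  obtain ⟨d, hd⟩ : ∃ d : Fin 3 → Cub R, d = ![1, c.1, c.1 * Cub.sig c.1] := ⟨_, rfl⟩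
  have e : (rdU ![1, c, c * Units.map (Cub.sig : Cub R ≃+* Cub R).toMonoidHom c]).1 =
      diagonal (rdiag d) := by
    rw [hd]
    refine congrArg (fun d => diagonal (rdiag d)) (funext fun i => ?_)
    fin_cases i <;> rfl
  have e1 := rdiag_phi (b := algebraMap ℚ (Cub R) b) (b' := algebraMap ℚ (Cub R) b') (d := d)
    (d' := fun i => c.1 * Cub.sig (d i)) (by simp [hd]) (by simp [hd]) (by
      have := congrArg Cub.C h
      rw [map_mul, Cub.C_nrm, mul_assoc c.1, ← map_mul] at this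
      rw [hd]
      exact (one_mul _).trans this.symm)
  rw [Rel, e, ← Matrix.mul_smul, diagonal_map (map_zero _), ← diagonal_smul]
  refine e1.trans (congrArg (fun v => ph b' (Cub R) * diagonal v) (funext fun a => ?_))
  rcases a with i | j <;> simp [rdiag] <;> ring

end LinkAux

open LinkAux

variable {b b' : ℚ} {S' : Finset Nat.Primes}

theorem exists_link (hb : b ≠ 0) (hb' : b' ≠ 0) (c : ∀ p : Nat.Primes, (Cub ℚ_[p])ˣ)
    (hc : {p : Nat.Primes | ¬ (IntC (c p).1 ∧ IntC ((c p)⁻¹).1)}.Finite)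
    (hn : ∀ p : Nat.Primes, (b' : ℚ_[p]) * Cub.nrm (c p).1 =
      if p ∈ S' then (b : ℚ_[p])⁻¹ else b) :
    ∃ e : ∀ p : Nat.Primes, UG b ℚ_[p] ≃ₜ* UG b' ℚ_[p], IsLink b b' S' e := by
  have hr : ∀ p : Nat.Primes, Rel (if p ∈ S' then b⁻¹ else b) b' (rdU ![1, c p,
      c p * Units.map (Cub.sig : Cub ℚ_[p] ≃+* Cub ℚ_[p]).toMonoidHom (c p)]) (c p ^ 2) :=
    fun p => rel_rdU (c p) ((hn p).trans (by split_ifs <;> simp))
  choose e he using fun p => loc hb (p ∈ S') (rdU_mem _) (hr p)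
  exact ⟨e, _, fun p => rdU_mem _, hc.subset fun p hp h => hp (rdU_int h), fun p => ⟨_, hr p⟩, he⟩

variable {e : ∀ p : Nat.Primes, UG b ℚ_[p] ≃ₜ* UG b' ℚ_[p]}

theorem IsLink.symm (hb : b ≠ 0) (hb' : b' ≠ 0) (he : IsLink b b' S' e) :
    IsLink b' b S' fun p => (e p).symm := by
  obtain ⟨m, h1, h2, h3, h4⟩ := he
  choose c hc using h3
  refine ⟨fun p => if p ∈ S' then cartan (m p)⁻¹ else (m p)⁻¹, fun p => ?_,
    (h2.union S'.finite_toSet).subset fun p hp => ?_, fun p => ?_, fun p g => ?_⟩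
  · beta_reduce
    split_ifs
    exacts [cartan_mem (inv_mem (h1 p)), inv_mem (h1 p)]
  · by_contra hn
    rw [Set.mem_union, not_or] at hn
    have hS : p ∉ S' := hn.2
    exact hp (by simpa only [if_neg hS] using inv_mem (not_not.1 hn.1))
  · have h := Rel.inv (hc p)
    by_cases hS : p ∈ S'
    · simp only [if_pos hS] at h ⊢
      have h' := h.cartan hb' (inv_ne_zero hb)
      rw [inv_inv b] at h'
      exact ⟨_, h'⟩
    · simp only [if_neg hS] at h ⊢
      exact ⟨_, h⟩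
  · have h := conj_mem (inv_mem (h1 p)) (Rel.inv (hc p)) g.2
    by_cases hS : p ∈ S'
    · simp only [if_pos hS] at h ⊢
      have h' := cartan_mem' (inv_ne_zero hb) h
      rw [inv_inv b] at h'
      obtain ⟨g', e1, e2⟩ := h4 p ⟨_, h'⟩
      obtain rfl : g' = g := Subtype.ext (by
        rw [e2, if_pos hS, cartan_cartan]
        group)
      refine ⟨_, (e p).symm_apply_eq.2 e1.symm, ?_⟩
      rw [← cartan_inv (m p)⁻¹, ← cartan_mul, ← cartan_mul]
    · simp only [if_neg hS] at h ⊢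
      obtain ⟨g', e1, e2⟩ := h4 p ⟨_, h⟩
      obtain rfl : g' = g := Subtype.ext (by
        rw [e2, if_neg hS]
        group)
      exact ⟨_, (e p).symm_apply_eq.2 e1.symm, rfl⟩

theorem IsLink.comap_K0 (he : IsLink b b' S' e) :
    {p : Nat.Primes | (Kst b' p).comap (e p).toMulEquiv.toMonoidHom ≠ Kst b p}.Finite := by
  obtain ⟨m, h1, h2, h3, h4⟩ := he
  refine (h2.union S'.finite_toSet).subset fun p hp => ?_
  by_contra hn
  rw [Set.mem_union, not_or] at hn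
  have hS : p ∉ S' := hn.2
  have hm : m p ∈ IntG p := not_not.1 hn.1
  obtain ⟨c, hc⟩ := h3 p
  simp only [if_neg hS] at hc
  refine hp (Subgroup.ext fun x => ⟨?_, ?_⟩)
  · rintro ⟨g, hg, hx⟩
    obtain ⟨g', e1, e2⟩ := h4 p ⟨_, conj_mem (inv_mem (h1 p)) (Rel.inv hc) g.2⟩
    obtain rfl : g' = g := Subtype.ext (by
      rw [e2, if_neg hS]
      group)
    exact ⟨_, Subgroup.mem_subgroupOf.2 (mul_mem (mul_mem (inv_mem hm)
      (Subgroup.mem_subgroupOf.1 hg)) (inv_mem (inv_mem hm))), (e p).injective (e1.trans hx)⟩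
  · rintro ⟨g, hg, rfl⟩
    obtain ⟨g', e1, e2⟩ := h4 p g
    rw [if_neg hS] at e2
    exact ⟨g', Subgroup.mem_subgroupOf.2 (e2 ▸ mul_mem (mul_mem hm hg) (inv_mem hm)), e1.symm⟩

theorem reg_of_local {γ : UG b ℚ} (h : Reg (Phi b γ l13)) : Reg γ := by
  obtain ⟨g, rfl⟩ := QuotientGroup.mk_surjective γ
  obtain ⟨j, hj⟩ := reg_mk (g := gmap b (algebraMap ℚ ℚ_[l13]) g) h
  refine ⟨g, j.comp (Cub.map (algebraMap ℚ ℚ_[l13])), rfl, ?_⟩
  rwa [gmap_val, Matrix.charpoly_map, Polynomial.map_map] at hj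

theorem IsLink.reg (he : IsLink b b' S' e) (hl : l13 ∉ S') {γ : UG b ℚ_[l13]}
    (h : Reg (e l13 γ)) : Reg γ := by
  obtain ⟨g, rfl⟩ := QuotientGroup.mk_surjective γ
  obtain ⟨m, -, -, -, h4⟩ := he
  obtain ⟨g', e1, e2⟩ := h4 l13 g
  rw [e1] at h
  obtain ⟨j, hj⟩ := reg_mk h
  refine ⟨g, j, rfl, ?_⟩
  rwa [e2, if_neg hl, Units.val_mul, Matrix.charpoly_mul_comm, Units.val_mul,
    Units.inv_mul_cancel_left] at hj

end Pool.Agent.P.MP_3c2f8c_gt.Ex
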