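import Pool.Agent.P.MP_3c2f8c_gt.Ex.BDefs

/-!
Two finite checks on the 27 weights.
-/

namespace Pool.Agent.P.MP_3c2f8c_gt.Ex

namespace NCAux

theorem row_zero : ∀ u e : I, u ≠ e →
    ∃ a, Rt e a ∧ ∀ v, ¬ (Adj e v ∧ Adj a u ∧ thd e v = thd a u) := by decide +kernel

theorem conn : ∀ a : I, a = .inl 0 ∨ Rt (.inl 0) a ∨ ∃ c, Rt (.inl 0) c ∧ Rt c a := by
  decide +kernel

end NCAux

end Pool.Agent.P.MP_3c2f8c_gt.Ex
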