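import Pool.Agent.P.MP_3c2f8c_gt.Ex.Lo.Split
import Pool.Agent.P.MP_3c2f8c_gt.Ex.Al.Std
import Pool.Agent.P.MP_3c2f8c_gt.Ex.Gl.NC0

/-!
The commutant of an open subgroup at a split prime consists of scalars.
-/

namespace Pool.Agent.P.MP_3c2f8c_gt.Ex

namespace NCAux

open Matrix Filter Topology

theorem scalar_of_comm {R : Type} [CommRing R] {Z : Matrix I I R}
    (h : ∀ e a, Rt e a → Z * Er R e a = Er R e a * Z) :
    Z = Z (.inl 0) (.inl 0) • (1 : Matrix I I R) := by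
  have h1 : ∀ e a, Rt e a → ∀ u, (Z * Er R e a) u a = Z u e := fun e a hr u => by
    rw [mul_apply, Finset.sum_eq_single e]
    · rw [Er_apply hr, if_pos ⟨rfl, rfl⟩, mul_one]
    · intro w _ hw
      rw [Er_apply hr, if_neg fun h => hw h.1, if_neg fun h => hr.2 h.1, mul_zero]
    · simp
  have h2 : ∀ e a, Rt e a → Z e e = Z a a := fun e a hr => by
    rw [← h1 e a hr e, h e a hr, mul_apply, Finset.sum_eq_single a]
    · rw [Er_apply hr, if_pos ⟨rfl, rfl⟩, one_mul]
    · intro w _ hw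
      rw [Er_apply hr, if_neg fun h => hw h.2, if_neg fun h => hr.2 h.2.1.symm, zero_mul]
    · simp
  ext u e
  by_cases hu : u = e
  · subst hu
    rw [Matrix.smul_apply, one_apply_eq, smul_eq_mul, mul_one]
    rcases conn u with rfl | hr | ⟨c, hc, hr⟩
    · rfl
    · exact (h2 _ _ hr).symm
    · exact ((h2 _ _ hc).trans (h2 _ _ hr)).symm
  · obtain ⟨a, hr, ha⟩ := row_zero u e hu
    rw [Matrix.smul_apply, one_apply_ne hu, smul_zero, ← h1 e a hr u, h e a hr, mul_apply]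
    refine Finset.sum_eq_zero fun w _ => ?_
    rw [Er_apply hr, if_neg fun h => hu h.1, if_neg (ha w), zero_mul]

theorem isOpen_closure_inf {G : Type} [Group G] [TopologicalSpace G] [IsTopologicalGroup G]
    {A B : Subgroup G} (h : A.relIndex B ≠ 0) (hB : IsOpen (B.topologicalClosure : Set G)) :
    IsOpen ((A ⊓ B).topologicalClosure : Set G) := by
  set D := (A ⊓ B).topologicalClosure
  have hfin : Finite (B ⧸ A.subgroupOf B) := Nat.finite_of_card_ne_zero h
  have hc : ∀ r : G, IsClosed {x : G | r⁻¹ * x ∈ D} := fun r =>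
    (Subgroup.isClosed_topologicalClosure _).preimage (continuous_const.mul continuous_id)
  have hcov : (B.topologicalClosure : Set G) ⊆
      ⋃ q : B ⧸ A.subgroupOf B, {x : G | (q.out : G)⁻¹ * x ∈ D} := by
    refine closure_minimal (fun x hx => Set.mem_iUnion.2 ⟨QuotientGroup.mk ⟨x, hx⟩, ?_⟩)
      (isClosed_iUnion_of_finite fun q => hc _)
    have h1 := QuotientGroup.eq.1 (QuotientGroup.out_eq' (QuotientGroup.mk (⟨x, hx⟩ : B) :
      B ⧸ A.subgroupOf B))
    exact Subgroup.le_topologicalClosure _ ⟨h1, B.mul_mem (B.inv_mem (Subtype.property _)) hx⟩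
  have hU : IsOpen ((B.topologicalClosure : Set G) \
      ⋃ q : {q : B ⧸ A.subgroupOf B // (q.out : G) ∉ D}, {x : G | (q.1.out : G)⁻¹ * x ∈ D}) :=
    hB.sdiff (isClosed_iUnion_of_finite fun q => hc _)
  refine Subgroup.isOpen_of_mem_nhds D (g := 1) (mem_of_superset (hU.mem_nhds ⟨one_mem _, ?_⟩) ?_)
  · intro h1
    obtain ⟨q, hq⟩ := Set.mem_iUnion.1 h1
    exact q.2 (by simpa using hq)
  · rintro x ⟨hx, hx'⟩
    obtain ⟨q, hq⟩ := Set.mem_iUnion.1 (hcov hx)
    by_cases hqD : (q.out : G) ∈ D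
    · simpa using mul_mem hqD hq
    · exact absurd (Set.mem_iUnion.2 ⟨⟨q, hqD⟩, hq⟩) hx'

/-- The root subgroups. -/
def xr {R : Type} [CommRing R] {e a : I} (h : Rt e a) (t : R) : Str (nZ R) :=
  ⟨⟨1 + t • Er R e a, 1 - t • Er R e a,
    by simp [add_mul, mul_sub, Er_mul_self h], by simp [sub_mul, mul_add, Er_mul_self h]⟩,
    1, sim_root h t⟩

theorem scalar_of_open {b : ℚ} {p : ℕ} [Fact p.Prime] (hb : IsNrm p b) {O : Subgroup (UG b ℚ_[p])}
    (hO : IsOpen (O.topologicalClosure : Set (UG b ℚ_[p]))) {Z : Matrix I I (Cub ℚ_[p])}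
    (h : ∀ g : Gt b ℚ_[p], QuotientGroup.mk g ∈ O → Z * g.1.1 ^ 3 = g.1.1 ^ 3 * Z) :
    ∃ c : Cub ℚ_[p], Z = c • (1 : Matrix I I (Cub ℚ_[p])) := by
  have : T2Space (Cub ℚ_[p]) := IsEmbedding.t2Space ⟨Cub.isInducing_co, Cub.co_injective⟩
  obtain ⟨ε, P, hε⟩ := exists_split_equiv hb
  have hS : IsClosed {u : UG b ℚ_[p] | ∀ g : Gt b ℚ_[p], QuotientGroup.mk g = u →
      Z * g.1.1 ^ 3 = g.1.1 ^ 3 * Z} := by
    rw [← (QuotientGroup.isQuotientMap_mk _).isClosed_preimage]
    have e : QuotientGroup.mk ⁻¹' {u : UG b ℚ_[p] | ∀ g : Gt b ℚ_[p], QuotientGroup.mk g = u →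
        Z * g.1.1 ^ 3 = g.1.1 ^ 3 * Z} = {g : Gt b ℚ_[p] | Z * g.1.1 ^ 3 = g.1.1 ^ 3 * Z} := by
      ext g
      refine ⟨fun hg => hg g rfl, fun hg g' hg' => ?_⟩
      obtain ⟨t, ht⟩ := QuotientGroup.eq.1 hg'.symm
      have e1 : g'.1.1 = g.1.1 * (g⁻¹ * g').1.1 := by
        rw [← Units.val_mul, ← Subgroup.coe_mul, mul_inv_cancel_left]
      rw [e1, ht, Matrix.mul_smul, Matrix.mul_one, smul_pow, Matrix.mul_smul, Matrix.smul_mul]
      exact congrArg _ hg
    rw [e]
    have hc : Continuous fun g : Gt b ℚ_[p] => g.1.1 :=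
      Units.continuous_val.comp continuous_subtype_val
    exact isClosed_eq (continuous_const.mul (hc.pow 3)) ((hc.pow 3).mul continuous_const)
  have hcl : closure (O : Set (UG b ℚ_[p])) ⊆ _ :=
    (hS.closure_subset_iff).2 fun u hu g hg => h g (by rw [hg]; exact hu)
  have key : ∀ e a, Rt e a → (P⁻¹).1 * Z * P.1 * Er _ e a = Er _ e a * ((P⁻¹).1 * Z * P.1) := by
    intro e a hr
    have hx : Continuous (xr (R := ℚ_[p]) hr) :=
      (Units.continuous_iff.2 ⟨continuous_const.add (continuous_id.smul continuous_const),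
        continuous_const.sub (continuous_id.smul continuous_const)⟩).subtype_mk _
    have h0 : xr (R := ℚ_[p]) hr 0 = 1 := Subtype.ext (Units.ext (by simp [xr]))
    have hev : ∀ᶠ t in 𝓝 (0 : ℚ_[p]), ε (QuotientGroup.mk (xr hr t)) ∈ O.topologicalClosure :=
      (ε.continuous.comp (QuotientGroup.continuous_mk.comp hx)).continuousAt.eventually_mem
        (hO.mem_nhds (by
          change ε (QuotientGroup.mk (xr hr 0)) ∈ _
          rw [h0, QuotientGroup.mk_one, map_one]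
          exact O.topologicalClosure.one_mem))
    obtain ⟨t, ht, ht0⟩ := ((hev.filter_mono nhdsWithin_le_nhds).and
      (self_mem_nhdsWithin (s := {0}ᶜ))).exists
    obtain ⟨g, hg, hg'⟩ := hε (xr hr t)
    have h3 := hcl ht g hg.symm
    have e1 : g.1.1 ^ 3 = P.1 * (1 + Cub.C (3 * t) • Er _ e a) * (P⁻¹).1 := by
      rw [← Units.val_pow_eq_pow_val, hg', conj_pow, Units.val_mul, Units.val_mul,
        Units.val_pow_eq_pow_val]
      have e2 : (glmap Cub.C (xr hr t).1).1 = 1 + Cub.C t • Er (Cub ℚ_[p]) e a := by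
        rw [← Er_map Cub.C]
        ext1 u v
        by_cases huv : u = v <;> simp [xr, huv]
      have e3 : (1 + Cub.C t • Er (Cub ℚ_[p]) e a) ^ 3 = 1 + (3 * Cub.C t) • Er _ e a := by
        simp only [pow_succ, pow_zero, one_mul, add_mul, mul_add, mul_one, Matrix.mul_smul,
          Matrix.smul_mul, Er_mul_self hr, smul_zero, add_zero]
        module
      rw [e2, map_mul, map_ofNat, e3]
    have hP : (P⁻¹).1 * P.1 = 1 := by rw [← Units.val_mul, inv_mul_cancel, Units.val_one]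
    have hP' : P.1 * (P⁻¹).1 = 1 := by rw [← Units.val_mul, mul_inv_cancel, Units.val_one]
    have h4 := congrArg (fun X => (P⁻¹).1 * X * P.1) h3
    simp only [e1, Matrix.mul_assoc, hP, Matrix.mul_one] at h4
    rw [← Matrix.mul_assoc (P⁻¹).1 P.1, hP, Matrix.one_mul] at h4
    simp only [mul_add, add_mul, Matrix.mul_one, Matrix.one_mul, Matrix.mul_smul, Matrix.smul_mul,
      add_right_inj] at h4
    have hu : IsUnit (Cub.C (3 * t)) :=
      (IsUnit.mk0 _ (mul_ne_zero three_ne_zero ht0)).map Cub.C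
    simpa only [Matrix.mul_assoc] using hu.smul_left_cancel.1 h4
  refine ⟨((P⁻¹).1 * Z * P.1) (.inl 0) (.inl 0), ?_⟩
  have h5 := congrArg (fun X => P.1 * X * (P⁻¹).1) (scalar_of_comm key)
  simpa only [Matrix.mul_smul, Matrix.smul_mul, Matrix.mul_one, Matrix.mul_assoc, Units.mul_inv,
    Units.mul_inv_cancel_left] using h5

theorem isNrm_13 {b : ℚ} (hb : b ≠ 0) : IsNrm 13 b := by
  obtain ⟨j, hj, -⟩ := exists_root_of_root (p := 13) (by norm_num) (t := 7) (by decide)
  obtain ⟨x, hx⟩ := (Cub.split_bijective j hj).2 ((b : ℚ_[13]), 1, 1)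
  simp only [Prod.mk.injEq] at hx
  have h : Cub.nrm x = b := by
    rw [← hj (Cub.nrm x), Cub.C_nrm, map_mul, map_mul, hx.1, hx.2.1, hx.2.2, mul_one, mul_one]
  have hu : IsUnit x := (Cub.isUnit_iff x).2 (h ▸ IsUnit.mk0 _ (by exact_mod_cast hb))
  exact ⟨hu.unit, h⟩

end NCAux

end Pool.Agent.P.MP_3c2f8c_gt.Ex
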