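import Pool.Agent.P.MP_3c2f8c_gt.Ex.Lo.Split
import Pool.Agent.P.MP_3c2f8c_gt.Ex.Gl.NC1
import Pool.Agent.P.MP_3c2f8c_gt.Ex.Gl.Link

/-!
The two manifolds are not commensurable.
-/

namespace Pool.Agent.P.MP_3c2f8c_gt.Ex

namespace NCAux

open Matrix

theorem nu_fixed {b : ℚ} (hb : b ≠ 0) (h : Gt b ℚ) {ν : Cub ℚ}
    (hν : Sim (nJ (Cub ℚ)) (nJ (Cub ℚ)) h.1.1 ν) : Cub.sig ν = ν := by
  have h1 := hν.mul (sim_phi (algebraMap ℚ (Cub ℚ) b))
  have h2 := hν.map (Cub.sig : Cub ℚ ≃+* Cub ℚ).toRingHom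
  rw [nJ_map] at h2
  have h3 := (sim_phi (algebraMap ℚ (Cub ℚ) b)).mul h2
  have e : h.1.1 * phi (algebraMap ℚ (Cub ℚ) b) =
      phi (algebraMap ℚ (Cub ℚ) b) * h.1.1.map (Cub.sig : Cub ℚ ≃+* Cub ℚ).toRingHom := h.2.2
  rw [e] at h1
  have h4 := (h1.nu_eq nJ_base).symm.trans (h3.nu_eq nJ_base)
  have hb0 : algebraMap ℚ (Cub ℚ) b ^ 2 ≠ 0 := pow_ne_zero _ ((map_ne_zero _).2 hb)
  rw [mul_comm] at h4
  exact (mul_left_cancel₀ hb0 h4).symm

theorem map_sig_mul (X Y : Matrix I I (Cub ℚ)) :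
    (X * Y).map Cub.sig = X.map Cub.sig * Y.map Cub.sig :=
  Matrix.map_mul (f := (Cub.sig : Cub ℚ ≃+* Cub ℚ).toRingHom)

theorem map_sig_ph (b : ℚ) : (ph b (Cub ℚ)).map Cub.sig = ph b (Cub ℚ) :=
  ph_map b (Cub.sig : Cub ℚ ≃+* Cub ℚ).toRingHom

theorem map_sig_smul (c : Cub ℚ) (X : Matrix I I (Cub ℚ)) :
    (c • X).map Cub.sig = Cub.sig c • X.map Cub.sig := by
  ext1 a c
  simp

theorem cube_comm {b : ℚ} (h : Gt b ℚ) :
    h.1.1 ^ 3 * ph b (Cub ℚ) = ph b (Cub ℚ) * (h.1.1 ^ 3).map Cub.sig := by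
  have := (h ^ 3).2.2
  rwa [Subgroup.coe_pow, Units.val_pow_eq_pow_val] at this

theorem exists_norm {b b' : ℚ} (hb : b ≠ 0) (hb' : b' ≠ 0) {g : GL I ℝ}
    (hg : Sim (nJ ℝ) (nJ ℝ) g.1 1) (S : Set (Gt b' ℚ))
    (hS : ∀ h' ∈ S, ∃ (h : Gt b ℚ) (s : ℝ),
      h'.1.1.map iotaQ * g.1 = s • (g.1 * h.1.1.map iotaQ))
    (hZ : ∀ Z : Matrix I I (Cub ℚ), (∀ h' ∈ S, Z * h'.1.1 ^ 3 = h'.1.1 ^ 3 * Z) →
      ∃ c : Cub ℚ, Z = c • (1 : Matrix I I (Cub ℚ))) :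
    ∃ x : Cub ℚ, b ^ 2 * Cub.nrm x = b' ^ 2 := by
  let _ : Algebra (Cub ℚ) ℝ := iotaQ.toAlgebra
  have hsm : ∀ (c : Cub ℚ) (x : ℝ), c • x = iotaQ c * x := fun _ _ => rfl
  have hg1 : g.1 * (g⁻¹).1 = 1 := by rw [← Units.val_mul, mul_inv_cancel, Units.val_one]
  have hg2 : (g⁻¹).1 * g.1 = 1 := by rw [← Units.val_mul, inv_mul_cancel, Units.val_one]
  have hA : ∀ h' ∈ S, ∃ A : Matrix I I (Cub ℚ),
      A * ph b (Cub ℚ) = ph b (Cub ℚ) * A.map Cub.sig ∧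
      (h'.1.1 ^ 3).map iotaQ * g.1 = g.1 * A.map iotaQ := by
    intro h' hh'
    obtain ⟨h, s, e⟩ := hS h' hh'
    obtain ⟨ν, hν⟩ := h.2.1
    obtain ⟨ν', hν'⟩ := h'.2.1
    have m1 := hν.map iotaQ
    have m2 := hν'.map iotaQ
    rw [nJ_map] at m1 m2
    have m3 := m2.mul hg
    rw [e] at m3
    have m4 := (m3.nu_eq nJ_base).symm.trans (((hg.mul m1).smul s).nu_eq nJ_base)
    have hs : s ^ 3 = iotaQ (ν'.1 / ν.1) := by
      rw [map_div₀, eq_div_iff ((map_ne_zero _).2 ν.ne_zero), ← mul_one (iotaQ ν'.1), m4, one_mul]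
    refine ⟨(ν'.1 / ν.1) • h.1.1 ^ 3, ?_, ?_⟩
    · rw [map_sig_smul, map_div₀, nu_fixed hb h hν, nu_fixed hb' h' hν', Matrix.smul_mul,
        Matrix.mul_smul, cube_comm]
    · have e2 : ((ν'.1 / ν.1) • h.1.1 ^ 3).map iotaQ = s ^ 3 • h.1.1.map iotaQ ^ 3 := by
        rw [hs, ← Matrix.map_pow]
        ext1 a c
        simp
      rw [e2, Matrix.map_pow, pow_three, pow_three, pow_three]
      simp only [Matrix.mul_assoc, e, Matrix.mul_smul]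
      rw [← Matrix.mul_assoc _ g.1, e, Matrix.smul_mul, Matrix.mul_smul, ← Matrix.mul_assoc,
        ← Matrix.mul_assoc, e]
      simp only [Matrix.smul_mul, smul_smul, Matrix.mul_assoc, mul_assoc]
  have hl : ∀ (l : ℝ →ₗ[Cub ℚ] Cub ℚ) (B : Matrix I I (Cub ℚ)) (X : Matrix I I ℝ),
      (B.map iotaQ * X).map l = B * X.map l ∧ (X * B.map iotaQ).map l = X.map l * B := by
    intro l B X
    constructor <;> ext1 a c <;> simp only [map_apply, mul_apply, map_sum] <;>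
      refine Finset.sum_congr rfl fun k _ => ?_
    · rw [← hsm, map_smul, smul_eq_mul]
    · rw [mul_comm, ← hsm, map_smul, smul_eq_mul, mul_comm]
  have hex : ∀ X : Matrix I I ℝ, X ≠ 0 → ∃ l : ℝ →ₗ[Cub ℚ] Cub ℚ, X.map l ≠ 0 := by
    intro X hX
    by_contra hc
    push Not at hc
    apply hX
    ext1 a c
    exact (Module.forall_dual_apply_eq_zero_iff (Cub ℚ) _).1 fun l =>
      congrFun (congrFun (hc l) a) c
  obtain ⟨μ, hμ⟩ := hex (g⁻¹).1 (g⁻¹).ne_zero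
  set X := (g⁻¹).1.map μ with hX
  obtain ⟨l, hl0⟩ := hex (g.1 * X.map iotaQ) fun h => hμ (by
    have h1 := congrArg (fun M => (g⁻¹).1 * M) h
    simp only [← Matrix.mul_assoc, hg2, Matrix.one_mul, Matrix.mul_zero] at h1
    ext1 a c
    exact iotaQ_injective ((congrFun (congrFun h1 a) c).trans (map_zero _).symm))
  rw [(hl l X g.1).2] at hl0
  set Y := g.1.map l with hY
  have hXY : ∀ h' ∈ S, ∃ A : Matrix I I (Cub ℚ),
      A * ph b (Cub ℚ) = ph b (Cub ℚ) * A.map Cub.sig ∧ h'.1.1 ^ 3 * Y = Y * A ∧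
      A * X = X * h'.1.1 ^ 3 := by
    intro h' hh'
    obtain ⟨A, h1, h2⟩ := hA h' hh'
    refine ⟨A, h1, by rw [← (hl l _ _).1, h2, (hl l _ _).2], ?_⟩
    have h3 : A.map iotaQ * (g⁻¹).1 = (g⁻¹).1 * (h'.1.1 ^ 3).map iotaQ := by
      have h4 := congrArg (fun M => (g⁻¹).1 * M * (g⁻¹).1) h2
      simp only [Matrix.mul_assoc, hg1, Matrix.mul_one] at h4
      rw [h4, ← Matrix.mul_assoc, hg2, Matrix.one_mul]
    rw [← (hl μ _ _).1, h3, (hl μ _ _).2]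
  obtain ⟨c, hc⟩ := hZ (Y * X) fun h' hh' => by
    obtain ⟨A, -, h2, h3⟩ := hXY h' hh'
    rw [Matrix.mul_assoc, ← h3, ← Matrix.mul_assoc, ← h2, Matrix.mul_assoc]
  have hc0 : c ≠ 0 := by
    rintro rfl
    exact hl0 (by rw [hc, zero_smul])
  have hXY1 : X * (c⁻¹ • Y) = 1 := mul_eq_one_comm.1 (by
    rw [Matrix.smul_mul, hc, smul_smul, inv_mul_cancel₀ hc0, one_smul])
  obtain ⟨φ, hφ⟩ := exists_phU hb (Cub ℚ)
  obtain ⟨c', hc'⟩ := hZ (ph b' (Cub ℚ) * Y.map Cub.sig * (φ⁻¹).1 * X) fun h' hh' => by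
    obtain ⟨A, h1, h2, h3⟩ := hXY h' hh'
    have h4 : (φ⁻¹).1 * A = A.map Cub.sig * (φ⁻¹).1 := by
      rw [← hφ] at h1
      rw [Units.inv_mul_eq_iff_eq_mul, ← Matrix.mul_assoc, ← h1, Units.mul_inv_cancel_right]
    calc _ = ph b' (Cub ℚ) * Y.map Cub.sig * ((φ⁻¹).1 * A) * X := by
          simp only [Matrix.mul_assoc, h3]
      _ = ph b' (Cub ℚ) * (Y * A).map Cub.sig * (φ⁻¹).1 * X := by
          simp only [h4, map_sig_mul, Matrix.mul_assoc]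
      _ = _ := by
          rw [← h2, map_sig_mul, ← Matrix.mul_assoc, ← cube_comm]
          simp only [Matrix.mul_assoc]
  have h1 : ph b' (Cub ℚ) * Y.map Cub.sig = (c' * c⁻¹) • (Y * ph b (Cub ℚ)) := by
    have h2 := congrArg (fun M => M * (c⁻¹ • Y) * φ.1) hc'
    simp only [Matrix.mul_assoc _ X, hXY1, Matrix.mul_one, Units.inv_mul_cancel_right] at h2
    rw [h2, hφ]
    simp only [Matrix.smul_mul, Matrix.mul_smul, Matrix.one_mul, smul_smul, mul_comm]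
  generalize c' * c⁻¹ = κ at h1
  have h2 := congrArg (fun M => M.map Cub.sig) h1
  simp only [map_sig_mul, map_sig_smul, map_sig_ph] at h2
  have h3 := congrArg (fun M => M.map Cub.sig) h2
  simp only [map_sig_mul, map_sig_smul, map_sig_ph] at h3
  have h4 : ((Y.map Cub.sig).map Cub.sig).map Cub.sig = Y := by
    ext1 a c
    exact Cub.sig_sig_sig _
  rw [h4] at h3
  have h5 : algebraMap ℚ (Cub ℚ) b' ^ 2 • Y =
      (κ * Cub.sig κ * Cub.sig (Cub.sig κ) * algebraMap ℚ (Cub ℚ) b ^ 2) • Y := by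
    have c1 := phi_cube (algebraMap ℚ (Cub ℚ) b)
    have c2 := phi_cube (algebraMap ℚ (Cub ℚ) b')
    change ph b _ * ph b _ * ph b _ = _ at c1
    change ph b' _ * ph b' _ * ph b' _ = _ at c2
    calc _ = ph b' (Cub ℚ) * ph b' (Cub ℚ) * ph b' (Cub ℚ) * Y := by
          rw [c2, Matrix.smul_mul, Matrix.one_mul]
      _ = (κ * Cub.sig κ * Cub.sig (Cub.sig κ)) •
          (Y * (ph b (Cub ℚ) * ph b (Cub ℚ) * ph b (Cub ℚ))) := by
          rw [Matrix.mul_assoc, h3, Matrix.mul_smul, Matrix.mul_assoc, ← Matrix.mul_assoc _ _ (ph b _),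
            h2, Matrix.smul_mul, Matrix.mul_smul, ← Matrix.mul_assoc, ← Matrix.mul_assoc, h1]
          simp only [Matrix.smul_mul, smul_smul, Matrix.mul_assoc]
          congr 1
          ring
      _ = _ := by rw [c1, Matrix.mul_smul, Matrix.mul_one, smul_smul]
  have hY0 : Y ≠ 0 := fun h => hl0 (by rw [h, Matrix.zero_mul])
  refine ⟨κ, Cub.C_injective ?_⟩
  have h6 := smul_left_injective (Cub ℚ) hY0 h5
  rw [map_mul, Cub.C_nrm, map_pow, map_pow, mul_comm]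
  exact h6.symm

end NCAux

open NCAux

theorem not_wideComm {b b' : ℚ} (hb : b ≠ 0) (hb' : b' ≠ 0) {ρ : UG b ℝ ≃* E6}
    {ρ' : UG b' ℝ ≃* E6} (hρ : IsRho b ρ) (hρ' : IsRho b' ρ')
    {K : ∀ p : Nat.Primes, Subgroup (UG b ℚ_[p])} (hK : Level (Kst b) K)
    {K' : ∀ p : Nat.Primes, Subgroup (UG b' ℚ_[p])} (hK' : Level (Kst b') K')
    (ho : ∀ K, Level (Kst b') K → IsOpen
      (((Gam (Phi b') K).map (cmp (Phi b') l13)).topologicalClosure : Set (UG b' ℚ_[l13])))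
    (h₁ : ∀ x : Cub ℚ, b ^ 2 * Cub.nrm x ≠ b' ^ 2) (h₂ : ∀ x : Cub ℚ, Cub.nrm x ≠ b ^ 2 * b' ^ 2) :
    ¬ WideComm ((Gam (Phi b) K).map (rhoQ ρ)) ((Gam (Phi b') K').map (rhoQ ρ')) := by
  have hq : ∀ {b : ℚ} {ρ : UG b ℝ ≃* E6}, IsRho b ρ → ∀ h : Gt b ℚ, ∃ t : ℝ, t ≠ 0 ∧
      (rhoQ ρ (QuotientGroup.mk h)).1.1 = t • h.1.1.map iotaQ := by
    intro b ρ hρ h
    obtain ⟨t, ht⟩ := hρ (gmap b (algebraMap ℚ ℝ) h)
    exact ⟨t, RhoAux.ne_zero ht, ht⟩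
  have key : ∀ (Δ : Subgroup E6) (g : E6) (b₀ : ℚ), b₀ ≠ 0 →
      (∀ δ ∈ Δ, ∃ (h : Gt b₀ ℚ) (t : ℝ), δ.1.1 = t • h.1.1.map iotaQ) →
      Subgroup.Commensurable (Δ.map (MulAut.conj g).toMonoidHom)
        ((Gam (Phi b') K').map (rhoQ ρ')) → ∃ x : Cub ℚ, b₀ ^ 2 * Cub.nrm x = b' ^ 2 := by
    intro Δ g b₀ hb₀ hΔ hc
    set A := (Δ.map (MulAut.conj g).toMonoidHom).comap (rhoQ ρ')
    refine exists_norm hb₀ hb' (mem_E6_iff.1 g.2)
      {h' | QuotientGroup.mk h' ∈ A ⊓ Gam (Phi b') K'} (fun h' hh' => ?_) fun Z hZ => ?_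
    · obtain ⟨δ, hδ, e⟩ := hh'.1
      obtain ⟨h, t, ht⟩ := hΔ δ hδ
      obtain ⟨t', ht0, ht'⟩ := hq hρ' h'
      refine ⟨h, t'⁻¹ * t, ?_⟩
      have e1 : (rhoQ ρ' (QuotientGroup.mk h')).1.1 * g.1.1 = g.1.1 * δ.1.1 := by
        rw [← e, ← Units.val_mul, ← Units.val_mul, ← Subgroup.coe_mul, ← Subgroup.coe_mul]
        simp
      rw [ht, ht', Matrix.smul_mul, Matrix.mul_smul] at e1
      rw [mul_smul, ← e1, smul_smul, inv_mul_cancel₀ ht0, one_smul]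
    · have h1 : A.relIndex (Gam (Phi b') K') ≠ 0 := by
        rw [Subgroup.relIndex_comap]
        exact hc.1
      have hinj : Function.Injective (cmp (Phi b') l13) :=
        umap_injective b' (algebraMap ℚ ℚ_[l13])
      have h2 : (A.map (cmp (Phi b') l13)).relIndex ((Gam (Phi b') K').map (cmp (Phi b') l13)) ≠ 0 := by
        rwa [Subgroup.relIndex_map_map_of_injective _ _ hinj]
      have h3 := isOpen_closure_inf h2 (ho K' hK')
      rw [← Subgroup.map_inf _ _ _ hinj] at h3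
      obtain ⟨c, hc⟩ := scalar_of_open (isNrm_13 hb') h3
        (Z := Z.map (Cub.map (algebraMap ℚ ℚ_[13]))) fun u ⟨γ, hγ, e⟩ => by
          obtain ⟨h', rfl⟩ := QuotientGroup.mk_surjective γ
          have e0 : (QuotientGroup.mk (gmap b' (algebraMap ℚ ℚ_[13]) h') : UG b' ℚ_[13]) =
            QuotientGroup.mk u := e
          obtain ⟨t, ht⟩ := QuotientGroup.eq.1 e0
          have e1 : u.1.1 = (gmap b' (algebraMap ℚ ℚ_[13]) h').1.1 *
              ((gmap b' (algebraMap ℚ ℚ_[13]) h')⁻¹ * u).1.1 := by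
            rw [← Units.val_mul, ← Subgroup.coe_mul, mul_inv_cancel_left]
          rw [e1, ht, Matrix.mul_smul, Matrix.mul_one, smul_pow, Matrix.mul_smul, Matrix.smul_mul,
            gmap_val, ← Matrix.map_pow, ← Matrix.map_mul, ← Matrix.map_mul, hZ h' hγ]
      have hi := Cub.map_injective (algebraMap ℚ ℚ_[13]).injective
      refine ⟨Z (.inl 0) (.inl 0), ?_⟩
      ext1 u v
      apply hi
      have e1 := congrFun (congrFun hc u) v
      have e2 := congrFun (congrFun hc (.inl 0)) (.inl 0)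
      simp only [Matrix.map_apply, Matrix.smul_apply, Matrix.one_apply_eq, smul_eq_mul,
        mul_one] at e1 e2
      rw [e1, ← e2]
      by_cases huv : u = v
      · subst huv
        simp
      · simp [huv]
  rintro ⟨g, hc | hc⟩
  · obtain ⟨x, hx⟩ := key _ g b hb (by
      rintro _ ⟨γ, -, rfl⟩
      obtain ⟨h, rfl⟩ := QuotientGroup.mk_surjective γ
      obtain ⟨t, -, ht⟩ := hq hρ h
      exact ⟨h, t, ht⟩) hc
    exact h₁ x hx
  · obtain ⟨x, hx⟩ := key _ g b⁻¹ (inv_ne_zero hb) (by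
      rintro δ ⟨_, ⟨γ, -, rfl⟩, e⟩
      obtain ⟨h, rfl⟩ := QuotientGroup.mk_surjective γ
      obtain ⟨t, ht0, ht⟩ := hq hρ h
      refine ⟨⟨cartan h.1, LinkAux.cartan_mem' hb h.2⟩, t⁻¹, ?_⟩
      rw [eq_cartan e, cartan_smul (g := glmap iotaQ h.1) (t := Units.mk0 t ht0) ht, cartan_map]
      rfl) hc
    refine h₂ x ?_
    rw [← hx]
    field_simp

end Pool.Agent.P.MP_3c2f8c_gt.Ex
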