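import Pool.Agent.P.MP_3c2f8c_gt.Ex.ADefs
import Pool.Agent.P.MP_3c2f8c_gt.Ex.Al.Tw

/-!
The real points of the twisted groups; elementary facts on the rational points.
-/

namespace Pool.Agent.P.MP_3c2f8c_gt.Ex

namespace RhoAux

open Matrix

/-- The second real point. -/
noncomputable def j1 : Cub ℝ →+* ℝ := iota.comp (Cub.sig : Cub ℝ ≃+* Cub ℝ).toRingHom

/-- The third real point. -/
noncomputable def j2 : Cub ℝ →+* ℝ := j1.comp (Cub.sig : Cub ℝ ≃+* Cub ℝ).toRingHom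

theorem elt_ext {x y : Cub ℝ} (h0 : iota x = iota y) (h1 : j1 x = j1 y) (h2 : j2 x = j2 y) :
    x = y :=
  (Cub.split_bijective iota iota_C).1 (Prod.ext h0 (Prod.ext h1 h2))

theorem mat_ext {X Y : Matrix I I (Cub ℝ)} (h0 : X.map iota = Y.map iota)
    (h1 : X.map j1 = Y.map j1) (h2 : X.map j2 = Y.map j2) : X = Y := by
  ext1 a c
  exact elt_ext (congrFun (congrFun h0 a) c) (congrFun (congrFun h1 a) c)
    (congrFun (congrFun h2 a) c)

theorem mat_surj (A B C : Matrix I I ℝ) :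
    ∃ X : Matrix I I (Cub ℝ), X.map iota = A ∧ X.map j1 = B ∧ X.map j2 = C := by
  choose x hx using fun a c => (Cub.split_bijective iota iota_C).2 (A a c, B a c, C a c)
  refine ⟨Matrix.of x, ?_, ?_, ?_⟩ <;> ext a c
  · exact congrArg (·.1) (hx a c)
  · exact congrArg (·.2.1) (hx a c)
  · exact congrArg (·.2.2) (hx a c)

theorem sig_iota (X : Matrix I I (Cub ℝ)) : (X.map Cub.sig).map iota = X.map j1 := rfl

theorem sig_j1 (X : Matrix I I (Cub ℝ)) : (X.map Cub.sig).map j1 = X.map j2 := rfl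

theorem sig_j2 (X : Matrix I I (Cub ℝ)) : (X.map Cub.sig).map j2 = X.map iota := by
  ext a c
  exact congrArg iota (Cub.sig_sig_sig (X a c))

theorem sim_of_three {X : Matrix I I (Cub ℝ)} (h0 : Sim (nJ ℝ) (nJ ℝ) (X.map iota) 1)
    (h1 : Sim (nJ ℝ) (nJ ℝ) (X.map j1) 1) (h2 : Sim (nJ ℝ) (nJ ℝ) (X.map j2) 1) :
    Sim (nJ (Cub ℝ)) (nJ (Cub ℝ)) X 1 := by
  have key : ∀ j : Cub ℝ →+* ℝ, Sim (nJ ℝ) (nJ ℝ) (X.map j) 1 → ∀ a b c,
      j ((nJ (Cub ℝ)).pull X a b c) = j (((1 : Cub ℝ) • nJ (Cub ℝ)) a b c) := by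
    intro j h a b c
    have e := T3.pull_map j (nJ (Cub ℝ)) X
    rw [nJ_map, sim_iff_pull.1 h] at e
    have e' := congrFun (congrFun (congrFun e a) b) c
    simp only [one_smul] at e' ⊢
    rw [← nJ_map j] at e'
    exact e'.symm
  rw [sim_iff_pull]
  funext a b c
  exact elt_ext (key _ h0 a b c) (key _ h1 a b c) (key _ h2 a b c)

theorem smul_map (t : ℝ) (j : Cub ℝ →+* ℝ) (hj : ∀ t, j (Cub.C t) = t) :
    (t • (1 : Matrix I I (Cub ℝ))).map j = t • (1 : Matrix I I ℝ) := by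
  ext a c
  by_cases h : a = c
  · subst h
    have : t • (1 : Cub ℝ) = Cub.C t := by ext <;> simp
    simp [this, hj]
  · simp [h]

theorem j1_C (t : ℝ) : j1 (Cub.C t) = t := by
  change iota (Cub.sig (Cub.C t)) = t
  rw [Cub.sig_C, iota_C]

theorem j2_C (t : ℝ) : j2 (Cub.C t) = t := by
  change j1 (Cub.sig (Cub.C t)) = t
  rw [Cub.sig_C, j1_C]

theorem ne_zero {X : Matrix I I ℝ} {k : GL I ℝ} {t : ℝ} (h : k.1 = t • X) : t ≠ 0 := by
  rintro rfl
  have h1 : k.1 * (k⁻¹).1 = 1 := by rw [← Units.val_mul, mul_inv_cancel, Units.val_one]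
  rw [h, zero_smul, Matrix.zero_mul] at h1
  simpa using congrFun (congrFun h1 (.inl 0)) (.inl 0)

theorem uniq {X : Matrix I I ℝ} {k k' : E6} {t t' : ℝ} (h : k.1.1 = t • X)
    (h' : k'.1.1 = t' • X) : k = k' := by
  have ht := ne_zero h
  have e : k'.1.1 = (t' * t⁻¹) • k.1.1 := by
    rw [h, h', smul_smul, inv_mul_cancel_right₀ ht]
  have s1 := (mem_E6_iff.1 k.2).smul (t' * t⁻¹)
  rw [← e] at s1
  have s2 := (s1.nu_eq nJ_base).symm.trans ((mem_E6_iff.1 k'.2).nu_eq nJ_base)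
  rw [mul_one] at s2
  have s3 : t' * t⁻¹ = 1 :=
    (Odd.pow_injective (R := ℝ) (n := 3) (by decide)) (by simpa using s2)
  rw [s3, one_smul] at e
  exact Subtype.ext (Units.ext e.symm)

theorem ex {b : ℚ} (g : Gt b ℝ) : ∃ k : E6, ∃ t : ℝ, k.1.1 = t • g.1.1.map iota := by
  obtain ⟨ν, hν⟩ := g.2.1
  have h1 := hν.map iota
  rw [nJ_map] at h1
  have hn : iota ν.1 ≠ 0 := (ν.isUnit.map iota).ne_zero
  obtain ⟨t, ht⟩ : ∃ t : ℝ, t ^ 3 = (iota ν.1)⁻¹ := by
    rcases le_total 0 (iota ν.1)⁻¹ with h | h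
    · exact ⟨_, Real.rpow_inv_natCast_pow h (n := 3) (by norm_num)⟩
    · refine ⟨-((-(iota ν.1)⁻¹) ^ (((3 : ℕ) : ℝ)⁻¹)), ?_⟩
      rw [Odd.neg_pow (by decide), Real.rpow_inv_natCast_pow (neg_nonneg.2 h) (by norm_num),
        neg_neg]
  have ht0 : t ≠ 0 := by
    rintro rfl
    exact inv_ne_zero hn (by simpa using ht.symm)
  have h2 := h1.smul t
  rw [ht, inv_mul_cancel₀ hn] at h2
  exact ⟨⟨Units.mk0 t ht0 • glmap iota g.1, mem_E6_iff.2 h2⟩, t, rfl⟩

/-- The map from the similitudes to `E6`. -/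
noncomputable def fE (b : ℚ) : Gt b ℝ →* E6 :=
  MonoidHom.mk' (fun g => (ex g).choose) fun g h => by
    obtain ⟨t, ht⟩ := (ex g).choose_spec
    obtain ⟨s, hs⟩ := (ex h).choose_spec
    obtain ⟨u, hu⟩ := (ex (g * h)).choose_spec
    refine uniq hu (t' := t * s) ?_
    rw [Subgroup.coe_mul, Units.val_mul, ht, hs, Subgroup.coe_mul, Units.val_mul, Matrix.map_mul,
      Matrix.smul_mul, Matrix.mul_smul, smul_smul]

theorem fE_spec {b : ℚ} (g : Gt b ℝ) : ∃ t : ℝ, (fE b g).1.1 = t • g.1.1.map iota :=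
  (ex g).choose_spec

theorem comp {b : ℚ} (g : Gt b ℝ) : g.1.1.map iota * ph b ℝ = ph b ℝ * g.1.1.map j1 ∧
    g.1.1.map j1 * ph b ℝ = ph b ℝ * g.1.1.map j2 := by
  have h0 := congrArg (fun X => X.map iota) g.2.2
  have h1 := congrArg (fun X => X.map j1) g.2.2
  simp only [Matrix.map_mul, ph_map] at h0 h1
  exact ⟨h0, h1⟩

theorem ker_fE {b : ℚ} (hb : b ≠ 0) : Scal ℝ (Gt b ℝ) = (fE b).ker := by
  ext g
  rw [MonoidHom.mem_ker]
  obtain ⟨s, hs⟩ := fE_spec g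
  constructor
  · rintro ⟨t, ht⟩
    refine uniq hs (t' := (t⁻¹).1) ?_
    rw [ht, smul_map _ _ iota_C, smul_smul, Units.inv_mul, one_smul]
    rfl
  · intro h
    have hs0 := ne_zero hs
    rw [h] at hs
    have h0 : g.1.1.map iota = s⁻¹ • (1 : Matrix I I ℝ) := by
      have : (1 : Matrix I I ℝ) = s • g.1.1.map iota := hs
      rw [this, smul_smul, inv_mul_cancel₀ hs0, one_smul]
    obtain ⟨φ, hφ⟩ := exists_phU hb ℝ
    obtain ⟨c1, c2⟩ := comp g
    rw [← hφ] at c1 c2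
    have h1 : g.1.1.map j1 = s⁻¹ • (1 : Matrix I I ℝ) := by
      rw [← φ.mul_right_inj, ← c1, h0]
      simp
    have h2 : g.1.1.map j2 = s⁻¹ • (1 : Matrix I I ℝ) := by
      rw [← φ.mul_right_inj, ← c2, h1]
      simp
    refine ⟨Units.mk0 s⁻¹ (inv_ne_zero hs0), mat_ext ?_ ?_ ?_⟩
    · rw [h0, smul_map _ _ iota_C]; rfl
    · rw [h1, smul_map _ _ j1_C]; rfl
    · rw [h2, smul_map _ _ j2_C]; rfl

theorem surj_fE {b : ℚ} (hb : b ≠ 0) : Function.Surjective (fE b) := by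
  intro k
  obtain ⟨φ, hφ⟩ := exists_phU hb ℝ
  have hb' : (algebraMap ℚ ℝ b) ^ 2 ≠ 0 := pow_ne_zero _ (by simpa using hb)
  have hsφ : Sim (nJ ℝ) (nJ ℝ) φ.1 (Units.mk0 _ hb').1 := by
    rw [hφ]
    exact sim_phi _
  have hconj : ∀ h : GL I ℝ, Sim (nJ ℝ) (nJ ℝ) h.1 1 → Sim (nJ ℝ) (nJ ℝ) (φ⁻¹ * h * φ).1 1 := by
    intro h hh
    have := (hsφ.inv.mul hh).mul hsφ
    rwa [mul_one, Units.inv_mul] at this
  have hk := mem_E6_iff.1 k.2
  obtain ⟨X, x0, x1, x2⟩ := mat_surj k.1.1 (φ⁻¹ * k.1 * φ).1 (φ⁻¹ * (φ⁻¹ * k.1 * φ) * φ).1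
  obtain ⟨Y, y0, y1, y2⟩ := mat_surj (k.1⁻¹).1 ((φ⁻¹ * k.1 * φ)⁻¹).1
    ((φ⁻¹ * (φ⁻¹ * k.1 * φ) * φ)⁻¹).1
  have hXY : X * Y = 1 := by
    refine mat_ext ?_ ?_ ?_
    · rw [Matrix.map_mul, x0, y0, Units.mul_inv, Matrix.map_one _ (map_zero _) (map_one _)]
    · rw [Matrix.map_mul, x1, y1, Units.mul_inv, Matrix.map_one _ (map_zero _) (map_one _)]
    · rw [Matrix.map_mul, x2, y2, Units.mul_inv, Matrix.map_one _ (map_zero _) (map_one _)]
  have hsim : Sim (nJ (Cub ℝ)) (nJ (Cub ℝ)) X 1 :=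
    sim_of_three (x0 ▸ hk) (x1 ▸ hconj _ hk) (x2 ▸ hconj _ (hconj _ hk))
  have hcube : (φ * φ * φ) * k.1 = k.1 * (φ * φ * φ) := by
    refine Units.ext ?_
    simp only [Units.val_mul, hφ, ph, phi_cube]
    simp
  have hcomm : X * ph b (Cub ℝ) = ph b (Cub ℝ) * X.map Cub.sig := by
    refine mat_ext ?_ ?_ ?_
    · rw [Matrix.map_mul, Matrix.map_mul, ph_map, sig_iota, x0, x1, ← hφ, ← Units.val_mul,
        ← Units.val_mul]
      congr 1
      group
    · rw [Matrix.map_mul, Matrix.map_mul, ph_map, sig_j1, x1, x2, ← hφ, ← Units.val_mul,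
        ← Units.val_mul]
      congr 1
      group
    · rw [Matrix.map_mul, Matrix.map_mul, ph_map, sig_j2, x2, x0, ← hφ, ← Units.val_mul,
        ← Units.val_mul]
      congr 1
      calc φ⁻¹ * (φ⁻¹ * k.1 * φ) * φ * φ = φ⁻¹ * φ⁻¹ * (k.1 * (φ * φ * φ)) := by group
        _ = φ * k.1 := by rw [← hcube]; group
  let g : Gt b ℝ := ⟨⟨X, Y, hXY, mul_eq_one_comm.1 hXY⟩, ⟨1, hsim⟩, hcomm⟩
  obtain ⟨t, ht⟩ := fE_spec g
  refine ⟨g, uniq ht (t' := 1) ?_⟩
  rw [one_smul]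
  exact x0.symm

section Top

variable {p : ℕ} [Fact p.Prime]

theorem isClosedEmbedding_co : Topology.IsClosedEmbedding (Cub.co : Cub ℚ_[p] → Fin 3 → ℚ_[p]) :=
  ⟨⟨Cub.isInducing_co, Cub.co_injective⟩, by
    have : Function.Surjective (Cub.co : Cub ℚ_[p] → Fin 3 → ℚ_[p]) :=
      (Cub.coEquiv ℚ_[p]).surjective
    rw [this.range_eq]
    exact isClosed_univ⟩

theorem t2_cub : T2Space (Cub ℚ_[p]) := isClosedEmbedding_co.isEmbedding.t2Space

theorem intC_eq : {x : Cub ℚ_[p] | IntC x} =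
    Cub.co ⁻¹' (Set.univ.pi fun _ : Fin 3 => Metric.closedBall (0 : ℚ_[p]) 1) := by
  ext x
  simp only [Set.mem_preimage, Set.mem_pi, Set.mem_univ, true_imp_iff, mem_closedBall_zero_iff,
    Fin.forall_fin_succ, IsEmpty.forall_iff, and_true, Set.mem_ofPred_eq]
  rfl

theorem isCompact_intC : IsCompact {x : Cub ℚ_[p] | IntC x} := by
  rw [intC_eq]
  exact isClosedEmbedding_co.isCompact_preimage
    (isCompact_univ_pi fun _ => isCompact_closedBall _ _)

theorem isOpen_intC : IsOpen {x : Cub ℚ_[p] | IntC x} := by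
  rw [intC_eq]
  exact (isOpen_set_pi Set.finite_univ fun _ _ =>
    IsUltrametricDist.isOpen_closedBall (0 : ℚ_[p]) one_ne_zero).preimage
      Cub.isInducing_co.continuous

theorem isCompact_intX : IsCompact {X : Matrix I I (Cub ℚ_[p]) | IntX X} :=
  isCompact_pi_infinite (s := fun _ : I => {v : I → Cub ℚ_[p] |
    ∀ j, v j ∈ {z : Cub ℚ_[p] | IntC z}}) fun _ => isCompact_pi_infinite fun _ => isCompact_intC

theorem isOpen_intX : IsOpen {X : Matrix I I (Cub ℚ_[p]) | IntX X} := by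
  have : {X : Matrix I I (Cub ℚ_[p]) | IntX X} =
      ⋂ i, ⋂ j, (fun X => X i j) ⁻¹' {z : Cub ℚ_[p] | IntC z} := by
    ext X
    simp only [Set.mem_iInter]
    rfl
  rw [this]
  exact isOpen_iInter_of_finite fun i => isOpen_iInter_of_finite fun j =>
    isOpen_intC.preimage (continuous_id.matrix_elem i j)

theorem mem_str_iff {R : Type} [CommRing R] (g : GL I R) :
    g ∈ Str (nJ R) ↔ (nJ R).pull g.1 = nu (nJ R) g.1 • nJ R := by
  constructor
  · rintro ⟨ν, hν⟩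
    rw [hν.nu_eq nJ_base]
    exact sim_iff_pull.1 hν
  · intro h
    have hs := sim_iff_pull.2 h
    have e : ∀ x, g.1 *ᵥ ((g⁻¹).1 *ᵥ x) = x := fun x => by
      rw [mulVec_mulVec, ← Units.val_mul, mul_inv_cancel, Units.val_one, one_mulVec]
    have h1 := hs ((g⁻¹).1 *ᵥ Pi.single (.inl 0) 1) ((g⁻¹).1 *ᵥ Pi.single (.inl 1) 1)
      ((g⁻¹).1 *ᵥ Pi.single (.inl 2) 1)
    rw [e, e, e, tri_single, nJ_base] at h1
    obtain ⟨u, hu⟩ := IsUnit.of_mul_eq_one _ h1.symm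
    exact ⟨u, hu ▸ hs⟩

theorem continuous_pull (n : T3 (Cub ℚ_[p])) (a b c : I) :
    Continuous fun g : Matrix I I (Cub ℚ_[p]) => n.pull g a b c := by
  unfold T3.pull tri
  refine continuous_finsetSum _ fun i _ => continuous_finsetSum _ fun j _ =>
    continuous_finsetSum _ fun k _ => continuous_const.mul ?_
  exact ((continuous_id.matrix_elem i a).mul (continuous_id.matrix_elem j b)).mul
    (continuous_id.matrix_elem k c)

theorem continuous_sig : Continuous (Cub.sig : Cub ℚ_[p] → Cub ℚ_[p]) := by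
  have h0 := Cub.continuous_c0 (R := ℚ_[p])
  have h1 := Cub.continuous_c1 (R := ℚ_[p])
  have h2 := Cub.continuous_c2 (R := ℚ_[p])
  refine Cub.continuous_iff.2 ⟨?_, ?_, ?_⟩ <;>
    simp only [Cub.sig_c0, Cub.sig_c1, Cub.sig_c2] <;> fun_prop

theorem isClosed_Gt (b : ℚ) : IsClosed (Gt b ℚ_[p] : Set (GL I (Cub ℚ_[p]))) := by
  have : T2Space (Cub ℚ_[p]) := t2_cub
  have hv : Continuous fun g : GL I (Cub ℚ_[p]) => g.1 := Units.continuous_val
  have h1 : IsClosed {g : GL I (Cub ℚ_[p]) | g ∈ Str (nJ (Cub ℚ_[p]))} := by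
    simp only [mem_str_iff]
    refine isClosed_eq ?_ ?_
    · exact continuous_pi fun a => continuous_pi fun b => continuous_pi fun c =>
        (continuous_pull _ a b c).comp hv
    · exact continuous_pi fun a => continuous_pi fun b => continuous_pi fun c =>
        ((continuous_pull _ _ _ _).comp hv).mul continuous_const
  have h2 : IsClosed {g : GL I (Cub ℚ_[p]) |
      g.1 * ph b (Cub ℚ_[p]) = ph b (Cub ℚ_[p]) * g.1.map Cub.sig} :=
    isClosed_eq (hv.mul continuous_const) (continuous_const.mul (hv.matrix_map continuous_sig))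
  exact h1.inter h2

theorem co_int (b : ℚ) : CO ((IntG p).subgroupOf (Gt b ℚ_[p])) := by
  have : T2Space (Cub ℚ_[p]) := t2_cub
  have h3 : Continuous fun g : Gt b ℚ_[p] => g.1.1 :=
    Units.continuous_val.comp continuous_subtype_val
  refine ⟨?_, (isOpen_intX.preimage h3).inter (isOpen_intX.preimage (h3.comp continuous_inv))⟩
  have h1 := (Units.isClosedEmbedding_embedProduct (α := Matrix I I (Cub ℚ_[p]))).comp
    (isClosed_Gt (p := p) b).isClosedEmbedding_subtypeVal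
  have h2 := h1.isCompact_preimage
    (isCompact_intX.prod (isCompact_intX.image MulOpposite.continuous_op))
  refine (congrArg IsCompact (Set.ext fun g => ?_)).mp h2
  simp only [Set.mem_preimage, Function.comp_apply, Units.embedProduct_apply, Set.mem_prod,
    MulOpposite.op_injective.mem_set_image]
  rfl

end Top

end RhoAux

open RhoAux

theorem exists_rho {b : ℚ} (hb : b ≠ 0) : ∃ ρ : UG b ℝ ≃* E6, IsRho b ρ := by
  refine ⟨(QuotientGroup.quotientMulEquivOfEq (ker_fE hb)).trans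
    (QuotientGroup.quotientKerEquivOfSurjective (fE b) (surj_fE hb)), fun g => ?_⟩
  exact fE_spec g

theorem countable_UG (b : ℚ) : Countable (UG b ℚ) := by
  have : Countable (Cub ℚ) := Cub.co_injective.countable
  have : Countable (Matrix I I (Cub ℚ)) := inferInstanceAs (Countable (I → I → Cub ℚ))
  have : Countable (GL I (Cub ℚ)) := Units.val_injective.countable
  exact QuotientGroup.mk_surjective.countable

theorem umap_injective (b : ℚ) {R S : Type} [Field R] [Algebra ℚ R] [Field S] [Algebra ℚ S]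
    (f : R →+* S) : Function.Injective (umap b f) := by
  rw [injective_iff_map_eq_one]
  intro u hu
  obtain ⟨g, rfl⟩ := QuotientGroup.mk_surjective u
  rw [umap_mk, QuotientGroup.eq_one_iff] at hu
  rw [QuotientGroup.eq_one_iff]
  obtain ⟨t, ht⟩ := hu
  rw [gmap_val] at ht
  have h0 : f (g.1.1 (.inl 0) (.inl 0)).c0 = t.1 := by
    simpa using congrArg Cub.c0 (congrFun (congrFun ht (.inl 0)) (.inl 0))
  have hs : (g.1.1 (.inl 0) (.inl 0)).c0 ≠ 0 := fun h => t.ne_zero (by rw [← h0, h, map_zero])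
  refine ⟨Units.mk0 _ hs, ?_⟩
  ext1 a c
  apply Cub.map_injective f.injective
  have h1 := congrFun (congrFun ht a) c
  rw [Matrix.map_apply] at h1
  rw [h1, ← h0]
  by_cases h : a = c <;> ext <;> simp [h]

theorem phi_mem_Ad (b : ℚ) (g : UG b ℚ) : Phi b g ∈ Ad (Kst b) := by
  obtain ⟨g, rfl⟩ := QuotientGroup.mk_surjective g
  refine ((finite_not_intX g.1.1).union (finite_not_intX (g.1⁻¹).1)).subset fun p hp => ?_
  by_contra h
  simp only [Set.mem_union, Set.mem_ofPred_eq, not_or, not_not] at h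
  exact hp ⟨gmap b (algebraMap ℚ ℚ_[p]) g, ⟨h.1, h.2⟩, rfl⟩

theorem co_K0 (b : ℚ) (p : ℕ) [Fact p.Prime] : CO (K0 b p) := by
  obtain ⟨h1, h2⟩ := co_int (p := p) b
  exact ⟨h1.image QuotientGroup.continuous_mk, QuotientGroup.isOpenMap_coe _ h2⟩

end Pool.Agent.P.MP_3c2f8c_gt.Ex
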