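import Pool.Agent.P.MP_3c2f8c_gt.Ex.MDefs
import Pool.Agent.P.MP_3c2f8c_gt.Ex.Gl.Rho
import Pool.Agent.P.MP_3c2f8c_gt.Ex.Gl.Link

/-! Ex-Gl-Nu: the multiplier; representatives. -/

namespace Pool.Agent.P.MP_3c2f8c_gt.Ex

open Matrix

variable {b : ℚ} {R S : Type} [CommRing R] [Algebra ℚ R] [CommRing S] [Algebra ℚ S]

namespace NuAux

omit [Algebra ℚ R] in
theorem smul_eq (t : R) (X : Matrix I I (Cub R)) : t • X = Cub.C t • X := by
  ext1 a c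
  ext <;> simp

theorem cube_root (x : ℝ) : ∃ t : ℝ, t ^ 3 = x := by
  rcases le_total 0 x with h | h
  · exact ⟨_, Real.rpow_inv_natCast_pow h (n := 3) (by norm_num)⟩
  · refine ⟨-((-x) ^ (((3 : ℕ) : ℝ)⁻¹)), ?_⟩
    rw [Odd.neg_pow (by decide), Real.rpow_inv_natCast_pow (neg_nonneg.2 h) (by norm_num), neg_neg]

theorem intC_nu {p : ℕ} [Fact p.Prime] {X : Matrix I I (Cub ℚ_[p])} (h : IntX X) :
    IntC (nu (nJ (Cub ℚ_[p])) X) := by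
  have hz : ∀ z : ℤ, IntC (z : Cub ℚ_[p]) := fun z => by
    simpa [IntC] using Padic.norm_int_le_one z
  unfold nu T3.pull tri
  refine Finset.sum_induction _ IntC (fun _ _ => IntC.add) intC_zero fun i _ =>
    Finset.sum_induction _ IntC (fun _ _ => IntC.add) intC_zero fun j _ =>
      Finset.sum_induction _ IntC (fun _ _ => IntC.add) intC_zero fun k _ => ?_
  exact (hz _).mul (((h _ _).mul (h _ _)).mul (h _ _))

theorem c0_le {p : ℕ} [Fact p.Prime] {x : Cub ℚ_[p]} (h : IntC x) : ‖x.c0‖ ≤ 1 := h.1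

theorem entry {β : ℝ} {X Y : Matrix I I ℝ} (h : X * phi β = phi β * Y) (a c : I) :
    X (sh a) (sh c) * phc β c = phc β a * Y a c := by
  have h1 := congrFun (congrArg (fun Z => Z *ᵥ Pi.single c 1) h) (sh a)
  simp only [← mulVec_mulVec] at h1
  rw [phi_mulVec, mulVec_single_one, mulVec_single_one] at h1
  have e : (phi β).col c = Pi.single (sh c) (phc β c) := by
    funext i
    simp [phi, Pi.single_apply]
  rw [e, mulVec_single] at h1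
  simpa [mul_comm] using h1

theorem bd_conj {β : ℝ} (hβ : β ≠ 0) : ∃ K : ℝ, 1 ≤ K ∧ ∀ (X Y : Matrix I I ℝ) (B : ℝ),
    X * phi β = phi β * Y → (∀ a c, |X a c| ≤ B) → ∀ a c, |Y a c| ≤ K * B := by
  have h0 : ∀ a, phc β a ≠ 0 := fun a => by
    rcases a with i | ⟨i, u⟩ <;> fin_cases i <;> simp [phc, hβ]
  refine ⟨1 + ∑ a, ∑ c, |phc β c / phc β a|, le_add_of_nonneg_right (by positivity),
    fun X Y B h hB a c => ?_⟩
  have e : Y a c = phc β c / phc β a * X (sh a) (sh c) := by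
    have := entry h a c
    have := h0 a
    field_simp
    linarith
  have h1 : |phc β c / phc β a| ≤ ∑ a, ∑ c, |phc β c / phc β a| :=
    (Finset.single_le_sum (f := fun c => |phc β c / phc β a|) (fun _ _ => abs_nonneg _)
      (Finset.mem_univ c)).trans
      (Finset.single_le_sum (f := fun a => ∑ c, |phc β c / phc β a|)
        (fun _ _ => by positivity) (Finset.mem_univ a))
  rw [e, abs_mul]
  exact mul_le_mul (by linarith) (hB _ _) (abs_nonneg _) (by positivity)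

end NuAux

open NuAux

theorem Gt.sim (hb : b ≠ 0) (g : Gt b R) :
    Sim (nJ (Cub R)) (nJ (Cub R)) g.1.1 (Cub.C (Gt.nu g)) := by
  obtain ⟨ν, hν⟩ := g.2.1
  have h1 := hν.map (Cub.sig : Cub R ≃+* Cub R).toRingHom
  rw [nJ_map] at h1
  have h2 := hν.mul (sim_phi (algebraMap ℚ (Cub R) b))
  have h3 := (sim_phi (algebraMap ℚ (Cub R) b)).mul h1
  have e : g.1.1 * phi (algebraMap ℚ (Cub R) b) = phi (algebraMap ℚ (Cub R) b) *
      g.1.1.map (Cub.sig : Cub R ≃+* Cub R).toRingHom := g.2.2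
  rw [e] at h2
  have h4 := (h2.nu_eq nJ_base).symm.trans (h3.nu_eq nJ_base)
  have hu : IsUnit (algebraMap ℚ (Cub R) b ^ 2) := ((IsUnit.mk0 b hb).map _).pow 2
  rw [mul_comm] at h4
  have h5 : Cub.sig ν.1 = ν.1 := (hu.mul_left_cancel h4).symm
  rw [Gt.nu, hν.nu_eq nJ_base, ← Cub.eq_C_of_sig h5]
  exact hν

theorem Gt.nu_eq (g : Gt b R) {t : R} (h : Sim (nJ (Cub R)) (nJ (Cub R)) g.1.1 (Cub.C t)) :
    Gt.nu g = t := by
  rw [Gt.nu, h.nu_eq nJ_base, Cub.C_c0]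

theorem Gt.nu_mul (hb : b ≠ 0) (g h : Gt b R) : Gt.nu (g * h) = Gt.nu g * Gt.nu h := 
  Gt.nu_eq _ (by rw [map_mul]; exact (Gt.sim hb g).mul (Gt.sim hb h))

theorem Gt.nu_one : Gt.nu (1 : Gt b R) = 1 := 
  Gt.nu_eq _ (by rw [map_one]; exact sim_one _)

theorem Gt.isUnit_nu (hb : b ≠ 0) (g : Gt b R) : IsUnit (Gt.nu g) := 
  IsUnit.of_mul_eq_one (Gt.nu g⁻¹) (by rw [← Gt.nu_mul hb, mul_inv_cancel, Gt.nu_one])

theorem Gt.nu_gmap (f : R →+* S) (g : Gt b R) : Gt.nu (gmap b f g) = f (Gt.nu g) := by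
  rw [Gt.nu, Gt.nu, gmap_val, Ex.nu, Ex.nu, ← nJ_map (Cub.map f), T3.pull_map, T3.map,
    Cub.map_c0]

theorem Gt.exists_smul (g : Gt b R) (t : Rˣ) : ∃ g' : Gt b R, g'.1.1 = t.1 • g.1.1 ∧
    (g'.1⁻¹).1 = (t⁻¹).1 • (g.1⁻¹).1 ∧ (QuotientGroup.mk g' : UG b R) = QuotientGroup.mk g := by
  let s : GL I (Cub R) := ⟨t.1 • 1, (t⁻¹).1 • 1, by simp [smul_smul], by simp [smul_smul]⟩
  have hs : s ∈ Gt b R := by
    refine ⟨⟨Units.map (Cub.C : R →+* Cub R).toMonoidHom t ^ 3, ?_⟩, ?_⟩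
    · have := (sim_one (nJ (Cub R))).smul (Cub.C t.1)
      rw [← smul_eq, mul_one] at this
      exact this
    · have e : (t.1 • (1 : Matrix I I (Cub R))).map Cub.sig = t.1 • 1 := by
        ext1 a c
        by_cases h : a = c <;> ext <;> simp [h]
      change (t.1 • 1) * _ = _ * (t.1 • (1 : Matrix I I (Cub R))).map Cub.sig
      rw [e]
      simp
  refine ⟨g * ⟨s, hs⟩, ?_, ?_, ?_⟩
  · change g.1.1 * (t.1 • 1) = _
    simp
  · rw [Subgroup.coe_mul, _root_.mul_inv_rev, Units.val_mul]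
    change ((t⁻¹).1 • 1) * _ = _
    simp
  · exact QuotientGroup.mk_mul_of_mem g ⟨t, rfl⟩

theorem Gt.nu_smul (hb : b ≠ 0) {g g' : Gt b R} {t : R} (h : g'.1.1 = t • g.1.1) :
    Gt.nu g' = t ^ 3 * Gt.nu g := by
  refine Gt.nu_eq _ ?_
  rw [h, smul_eq, map_mul, map_pow]
  exact (Gt.sim hb g).smul _

theorem Gt.mk_eq_iff {g g' : Gt b R} : (QuotientGroup.mk g' : UG b R) = QuotientGroup.mk g ↔
    ∃ t : Rˣ, g'.1.1 = t.1 • g.1.1 := by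
  rw [eq_comm, QuotientGroup.eq]
  constructor
  · rintro ⟨t, ht⟩
    refine ⟨t, ?_⟩
    have : g' = g * (g⁻¹ * g') := by group
    rw [this, Subgroup.coe_mul, Units.val_mul, ht]
    simp
  · rintro ⟨t, ht⟩
    refine ⟨t, ?_⟩
    rw [Subgroup.coe_mul, Units.val_mul, ht, Matrix.mul_smul, ← Units.val_mul, ← Subgroup.coe_mul,
      inv_mul_cancel]
    rfl

theorem Gt.comm_pow (g : Gt b R) (i : ℕ) :
    g.1.1 * ph b (Cub R) ^ i = ph b (Cub R) ^ i * g.1.1.map ⇑(Cub.sig ^ i : Cub R ≃+* Cub R) := by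
  induction i with
  | zero =>
    rw [pow_zero, pow_zero, Matrix.mul_one, Matrix.one_mul]
    rfl
  | succ i ih =>
    have h := congrArg (fun X => X.map (Cub.sig ^ i : Cub R ≃+* Cub R).toRingHom) g.2.2
    simp only [Matrix.map_mul, ph_map] at h
    rw [pow_succ, ← Matrix.mul_assoc, ih, Matrix.mul_assoc, Matrix.mul_assoc]
    congr 1

theorem Gt.phiV (g : Gt b R) (v : I → Cub R) :
    g.1.1 *ᵥ PhiV Cub.sig (ph b (Cub R)) v = PhiV Cub.sig (ph b (Cub R)) (g.1.1 *ᵥ v) := by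
  unfold PhiV
  rw [mulVec_mulVec, g.2.2, ← mulVec_mulVec]
  congr 1
  funext a
  exact (RingHom.map_mulVec (Cub.sig : Cub R ≃+* Cub R).toRingHom g.1.1 v a).symm

theorem Gt.trace (hb : b ≠ 0) (g : Gt b R) : g.1.1.trace = Cub.C (g.1.1.trace).c0 := by
  refine Cub.eq_C_of_sig ?_
  obtain ⟨φ, hφ⟩ := exists_phU hb (Cub R)
  have h : g.1.1 = φ.1 * g.1.1.map Cub.sig * (φ⁻¹).1 := by
    rw [hφ, ← g.2.2, ← hφ, Units.mul_inv_cancel_right]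
  have h2 : g.1.1.trace = (g.1.1.map Cub.sig).trace := by
    conv_lhs => rw [h, trace_mul_comm, ← Matrix.mul_assoc, Units.inv_mul, Matrix.one_mul]
  rw [h2]
  conv_lhs => rw [← h2]
  simp [Matrix.trace]

theorem Gt.charpoly_sig (hb : b ≠ 0) (g : Gt b R) :
    g.1.1.charpoly.map (Cub.sig : Cub R ≃+* Cub R).toRingHom = g.1.1.charpoly := by
  obtain ⟨φ, hφ⟩ := exists_phU hb (Cub R)
  have h : g.1.1 = φ.1 * g.1.1.map Cub.sig * (φ⁻¹).1 := by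
    rw [hφ, ← g.2.2, ← hφ, Units.mul_inv_cancel_right]
  rw [← charpoly_map]
  conv_rhs => rw [h, charpoly_mul_comm, ← Matrix.mul_assoc, Units.inv_mul, Matrix.one_mul]
  rfl

theorem Gt.exists_cartan (hb : b ≠ 0) (g : Gt b R) : ∃ g' : Gt b⁻¹ R, g'.1 = cartan g.1 ∧
    Gt.nu g' * Gt.nu g = 1 := by
  obtain ⟨g', hg'⟩ : ∃ g' : Gt b⁻¹ R, g'.1 = cartan g.1 :=
    ⟨⟨cartan g.1, LinkAux.cartan_mem' hb g.2⟩, rfl⟩
  refine ⟨g', hg', ?_⟩
  obtain ⟨u, hu⟩ := Gt.isUnit_nu hb g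
  have h : Sim (nJ (Cub R)) (nJ (Cub R)) g.1.1
      (Units.map (Cub.C : R →+* Cub R).toMonoidHom u).1 := by
    have := Gt.sim hb g
    rwa [← hu] at this
  have h' : Sim (nJ (Cub R)) (nJ (Cub R)) g'.1.1 (Cub.C (u⁻¹).1) := by
    rw [hg']
    exact h.cartan
  rw [Gt.nu_eq g' h', ← hu, Units.inv_mul]

theorem NuAux.norm_nu_le {p : ℕ} [Fact p.Prime] (g : Gt b ℚ_[p]) (hg : IntX g.1.1) :
    ‖Gt.nu g‖ ≤ 1 := by
  rw [Gt.nu]
  exact c0_le (intC_nu hg)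

theorem NuAux.nu_mul_inv (hb : b ≠ 0) (g : Gt b R) : Gt.nu g * Gt.nu g⁻¹ = 1 := by
  rw [← Gt.nu_mul hb, mul_inv_cancel, Gt.nu_one]

theorem Gt.norm_nu {p : ℕ} [Fact p.Prime] (hb : b ≠ 0) {g : Gt b ℚ_[p]} (hg : g.1 ∈ IntG p) :
    ‖Gt.nu g‖ = 1 := by
  have h1 : ‖Gt.nu g‖ ≤ 1 := NuAux.norm_nu_le g hg.1
  have h2 : ‖Gt.nu g⁻¹‖ ≤ 1 := NuAux.norm_nu_le g⁻¹ hg.2
  have h3 := NuAux.nu_mul_inv hb g
  generalize Gt.nu g = x at *
  generalize Gt.nu g⁻¹ = y at *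
  have h4 : ‖x‖ * ‖y‖ = 1 := by rw [← norm_mul, h3, norm_one]
  nlinarith [norm_nonneg x, norm_nonneg y]

theorem mem_K0 {p : ℕ} [Fact p.Prime] {γ : UG b ℚ_[p]} :
    γ ∈ K0 b p ↔ ∃ g : Gt b ℚ_[p], g.1 ∈ IntG p ∧ QuotientGroup.mk g = γ := 
  ⟨fun ⟨g, hg, e⟩ => ⟨g, hg, e⟩, fun ⟨g, hg, e⟩ => ⟨g, hg, e⟩⟩

theorem IsRho.spec (hb : b ≠ 0) {ρ : UG b ℝ ≃* E6} (hρ : IsRho b ρ) (g : Gt b ℝ) :
    ∃ t : ℝ, t ^ 3 * Gt.nu g = 1 ∧ (ρ (QuotientGroup.mk g)).1.1 = t • g.1.1.map iota := by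
  obtain ⟨t, ht⟩ := hρ g
  refine ⟨t, ?_, ht⟩
  have h1 := ((Gt.sim hb g).map iota).smul t
  rw [nJ_map, iota_C, ← ht] at h1
  exact (h1.nu_eq nJ_base).symm.trans ((mem_E6_iff.1 (ρ _).2).nu_eq nJ_base)

theorem IsRho.of_nu (hb : b ≠ 0) {ρ : UG b ℝ ≃* E6} (hρ : IsRho b ρ) {g : Gt b ℝ}
    (hg : Gt.nu g = 1) : (ρ (QuotientGroup.mk g)).1.1 = g.1.1.map iota := by
  obtain ⟨t, h1, h2⟩ := hρ.spec hb g
  rw [hg, mul_one] at h1
  have : t = 1 := (Odd.pow_injective (R := ℝ) (n := 3) (by decide)) (by simpa using h1)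
  rw [h2, this, one_smul]

theorem IsRho.exists_rep (hb : b ≠ 0) {ρ : UG b ℝ ≃* E6} (hρ : IsRho b ρ) (h : E6) {n : ℝ}
    (hn : n ≠ 0) : ∃ g : Gt b ℝ, Gt.nu g = n ∧ ρ (QuotientGroup.mk g) = h := by
  obtain ⟨g, hg⟩ := QuotientGroup.mk_surjective (ρ.symm h)
  have h0 : Gt.nu g ≠ 0 := (Gt.isUnit_nu hb g).ne_zero
  obtain ⟨t, ht⟩ := cube_root (n / Gt.nu g)
  have ht0 : t ≠ 0 := by
    rintro rfl
    exact div_ne_zero hn h0 (by simpa using ht.symm)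
  obtain ⟨g', h1, -, h2⟩ := Gt.exists_smul g (Units.mk0 t ht0)
  refine ⟨g', ?_, by rw [h2, hg, MulEquiv.apply_symm_apply]⟩
  rw [Gt.nu_smul hb h1, Units.val_mk0, ht, div_mul_cancel₀ _ h0]

theorem Good.inv (hb : Good b) : Good b⁻¹ := by
  have hd : ∀ p : Nat.Primes, Div p b → Div p b⁻¹ := fun p h =>
    ⟨h.1, by rw [padicValRat.inv, dvd_neg]; exact h.2⟩
  refine ⟨inv_ne_zero hb.ne, fun p => (hb.loc p).imp ?_ (hd p), hb.div.imp hd⟩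
  rintro ⟨c, hc⟩
  refine ⟨c⁻¹, ?_⟩
  rw [Rat.cast_inv, ← hc]
  refine eq_inv_of_mul_eq_one_left ?_
  rw [← Cub.nrm_mul, Units.inv_mul, Cub.nrm_one]

/-- Bounds for the coordinates from bounds for the first real component. -/
theorem Gt.bd_of_iota (hb : b ≠ 0) : ∃ C : ℝ, 0 < C ∧ ∀ (g : Gt b ℝ) (B : ℝ),
    (∀ a c, |iota (g.1.1 a c)| ≤ B) → ∀ a c i, |Cub.co (g.1.1 a c) i| ≤ C * B := by
  obtain ⟨C, hC, hco⟩ := Cub.abs_co_le
  obtain ⟨K, hK, hk⟩ := bd_conj (β := algebraMap ℚ ℝ b) (by simpa using hb)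
  refine ⟨C * (K * K), by positivity, fun g B hB a c i => ?_⟩
  have hB0 : 0 ≤ B := (abs_nonneg _).trans (hB a c)
  obtain ⟨e1, e2⟩ := RhoAux.comp g
  have h1 := hk _ _ B e1 hB
  have h2 := hk _ _ _ e2 h1
  have b1 : K * B ≤ K * (K * B) := by nlinarith [mul_nonneg (sub_nonneg.2 hK) hB0]
  have b0 : B ≤ K * B := by nlinarith
  have := hco (g.1.1 a c) (K * (K * B)) ((hB a c).trans (b0.trans b1)) ((h1 a c).trans b1)
    (h2 a c) i
  linarith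

end Pool.Agent.P.MP_3c2f8c_gt.Ex
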