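import Pool.Agent.P.MP_3c2f8c_gt.Ex.An.Geom
import Pool.Agent.P.MP_3c2f8c_gt.Gl.Abs2
import Pool.Agent.P.MP_3c2f8c_gt.Gl.Abs3

/-!
The abstract assembly: adelic data, Hecke data and matchings give isospectral manifolds.
-/

namespace Pool.Agent.P.MP_3c2f8c_gt.Ex

variable {P : Type} {U : P → Type} [∀ p, Group (U p)] {G G' : Type} [Group G] [Group G']

theorem Cocpt.finCl {Φ : G →* ∀ p, U p} {ρ : G →* E6} {K : ∀ p, Subgroup (U p)}
    (h : Cocpt Φ ρ K) : FinCl Φ K := by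
  obtain ⟨R, s, hs, -, h⟩ := h
  refine ⟨s, hs, fun u hu => ?_⟩
  obtain ⟨g, r, hr, hg, -⟩ := h u hu oX
  exact ⟨g, r, hr, hg⟩

theorem Cocpt.gam {Φ : G →* ∀ p, U p} {ρ : G →* E6} {K : ∀ p, Subgroup (U p)}
    (h : Cocpt Φ ρ K) : ∃ R : ℝ, ∀ x : XS, ∃ g ∈ Gam Φ K, AA oX (ρ g • x) ≤ R := by
  obtain ⟨R, s, hs, -, hc⟩ := h
  have h1 : ∀ r : ∀ p, U p, ∃ g₀ : G, ∀ g : G, (∀ p, (r p)⁻¹ * (Φ g p)⁻¹ ∈ K p) →
      ∀ p, (r p)⁻¹ * (Φ g₀ p)⁻¹ ∈ K p := fun r => by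
    by_cases h : ∃ g : G, ∀ p, (r p)⁻¹ * (Φ g p)⁻¹ ∈ K p
    · obtain ⟨g, hg⟩ := h
      exact ⟨g, fun _ _ => hg⟩
    · exact ⟨1, fun g hg => absurd ⟨g, hg⟩ h⟩
  choose g₀ hg₀ using h1
  obtain ⟨M, hM⟩ := (hs.image fun r => AA oX (ρ (g₀ r) • oX)).bddAbove
  obtain ⟨R', hR'⟩ := AA_triangle (max M R)
  refine ⟨R', fun x => ?_⟩
  obtain ⟨g, r, hr, hg, hb⟩ := hc 1 (one_mem _) x
  simp only [Pi.one_apply, mul_one] at hg
  refine ⟨g₀ r * g⁻¹, (mem_Gam _ _ _).2 fun p => ?_, ?_⟩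
  · have := mul_mem (inv_mem (hg₀ r g hg p)) (hg p)
    rw [mul_inv_rev, inv_inv, inv_inv, mul_assoc, mul_inv_cancel_left] at this
    rw [map_mul, map_inv]
    exact this
  · rw [map_mul, mul_smul, map_inv]
    refine hR' _ (ρ (g₀ r) • oX) _ ((hM ⟨r, hr, rfl⟩).trans (le_max_left _ _)) ?_
    rw [AA_smul]
    exact hb.trans (le_max_right _ _)

theorem Cocpt.infinite {Φ : G →* ∀ p, U p} {ρ : G →* E6} {K : ∀ p, Subgroup (U p)}
    (h : Cocpt Φ ρ K) : Infinite (Gam Φ K) := by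
  by_contra hfin
  rw [not_infinite_iff_finite] at hfin
  obtain ⟨R, hR⟩ := h.gam
  obtain ⟨M, hM⟩ := (Set.finite_range fun g : Gam Φ K => AA (ρ g • oX) oX).bddAbove
  obtain ⟨R', hR'⟩ := AA_triangle (max M R)
  obtain ⟨x, hx⟩ := exists_AA_gt R'
  obtain ⟨g, hg, hgx⟩ := hR x
  have h2 := hR' (ρ g • oX) oX (ρ g • x) ((hM ⟨⟨g, hg⟩, rfl⟩).trans (le_max_left _ _))
    (hgx.trans (le_max_right _ _))
  rw [AA_smul] at h2
  exact absurd h2 hx.not_ge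

theorem matched_of {K : ∀ p, Subgroup (U p)} (Φ : G →* ∀ p, U p) (Φ' : G' →* ∀ p, U p)
    (h : ∀ g, Φ g ∈ Ad K) (h' : ∀ g, Φ' g ∈ Ad K) (ρ : G →* E6) (ρ' : G' →* E6) (l : P)
    {κ : U l ⧸ K l → U l ⧸ K l → ℕ} (hinv : ∀ (g : U l) z z', κ (g • z) (g • z') = κ z z')
    {γ : G} {γ' : G'} (τ : Subgroup.centralizer {γ} ≃* Subgroup.centralizer {γ'})
    (hτ : ∀ t : Subgroup.centralizer {γ}, (t : G) = γ → (τ t : G') = γ')
    (hc : ∀ t t' : Subgroup.centralizer {γ}, t * t' = t' * t) {u : ∀ p, U p} (hu : u ∈ Ad K)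
    (ε : P → ℤ) (hε : ∀ p, ε p = 1 ∨ ε p = -1) (hε' : {p | ε p ≠ 1}.Finite) (hl : ε l = 1)
    (hu' : ∀ p (t : Subgroup.centralizer {γ}), Φ' (τ t) p * u p = u p * Φ t p ^ ε p)
    (g : E6) (hg : ∀ t : Subgroup.centralizer {γ}, ρ' (τ t) * g = g * ρ t) :
    letI := zAct Φ K h
    letI := zAct Φ' K h'
    letI := MulAction.compHom XS ρ
    letI := MulAction.compHom XS ρ'
    Matched (kerAt K l κ) γ γ' := by
  letI := zAct Φ K h
  letI := zAct Φ' K h'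
  letI := MulAction.compHom XS ρ
  letI := MulAction.compHom XS ρ'
  have key : ∀ p, ∃ ι : U p ⧸ K p ≃ U p ⧸ K p, (ε p = 1 → ∀ y, ι y = y) ∧
      ∀ (t : Subgroup.centralizer {γ}) y, ι (Φ t p • y) = (Φ t p ^ ε p) • ι y := fun p => by
    rcases hε p with e | e
    · exact ⟨Equiv.refl _, fun _ _ => rfl, fun t y => by rw [e, zpow_one]; rfl⟩
    · letI := MulAction.compHom (U p ⧸ K p) ((cmp Φ p).comp (Subgroup.centralizer {γ}).subtype)
      obtain ⟨ι, hι⟩ := exists_inv_equiv (Y := U p ⧸ K p) hc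
      refine ⟨ι, fun e' => absurd (e.symm.trans e') (by decide), fun t y => ?_⟩
      rw [e, zpow_neg_one]
      refine (hι t y).trans ?_
      show ((cmp Φ p).comp (Subgroup.centralizer {γ}).subtype) t⁻¹ • ι y = _
      rw [map_inv]
      rfl
  choose ι h1 h2 using key
  let e : ∀ p, U p ⧸ K p ≃ U p ⧸ K p := fun p => (ι p).trans (MulAction.toPerm (u p))
  have he : ∀ p y, e p y = u p • ι p y := fun _ _ => rfl
  have hfix : ∀ p, p ∉ {p | u p ∉ K p} ∪ {p | ε p ≠ 1} →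
      e p ((1 : U p) : U p ⧸ K p) = ((1 : U p) : U p ⧸ K p) := fun p hp => by
    simp only [Set.mem_union, Set.mem_setOf_eq, not_or, not_not] at hp
    rw [he, h1 p hp.2, MulAction.Quotient.smul_mk, smul_eq_mul, mul_one, QuotientGroup.eq]
    simpa using hp.1
  have hfin : ({p | u p ∉ K p} ∪ {p | ε p ≠ 1}).Finite := Set.Finite.union hu hε'
  let Ψ : Zs K ≃ Zs K := Equiv.subtypeEquiv (Equiv.piCongrRight e) fun z =>
    ⟨fun hz => (hz.union hfin).subset fun p hp => by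
      by_contra h0
      rw [Set.mem_union, not_or] at h0
      apply hp
      have h3 : z p = ((1 : U p) : U p ⧸ K p) := not_not.1 h0.1
      show e p (z p) = _
      rw [h3, hfix p h0.2],
    fun hz => (hz.union hfin).subset fun p hp => by
      by_contra h0
      rw [Set.mem_union, not_or] at h0
      have h3 : e p (z p) = ((1 : U p) : U p ⧸ K p) := not_not.1 h0.1
      exact hp ((e p).injective (h3.trans (hfix p h0.2).symm))⟩
  have hΨ : ∀ z p, (Ψ z).1 p = e p (z.1 p) := fun _ _ => rfl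
  refine ⟨τ, g, Ψ, hτ, fun t x => ?_, fun t z => Subtype.ext (funext fun p => ?_), fun z z' =>
    Abs3Aux.kerAt_congr (fun p => (e p).injective.eq_iff) ?_⟩
  · show g • ρ t • x = ρ' (τ t) • g • x
    rw [← mul_smul, ← mul_smul, hg]
  · show e p (Φ t p • z.1 p) = Φ' (τ t) p • e p (z.1 p)
    rw [he, he, h2, ← mul_smul, ← mul_smul, hu']
  · rw [hΨ, hΨ, he, he, hinv, h1 l hl, h1 l hl]

variable [∀ p, TopologicalSpace (U p)] [∀ p, IsTopologicalGroup (U p)]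
  {K₀ : ∀ p, Subgroup (U p)}

theorem AdData.nice {Φ : G →* ∀ p, U p} {ρ : G →* E6} (D : AdData Φ ρ K₀)
    {K : ∀ p, Subgroup (U p)} (hK : Level K₀ K) (h : ∀ g, Φ g ∈ Ad K) {q : P}
    (hq : ∀ g ∈ K q, IsOfFinOrder g → g = 1) :
    letI := MulAction.compHom XS ρ
    letI := zAct Φ K h
    Nice G (Zs K) ρ := by
  letI := MulAction.compHom XS ρ
  letI := zAct Φ K h
  have hact : ∀ (g : G) (x : XS), g • x = ρ g • x := fun _ _ => rfl
  have hpr : ∀ (z z' : Zs K) (R : ℝ),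
      {g : G | g • z = z' ∧ AA oX (g • oX) ≤ R}.Finite := fun z z' R => by
    obtain ⟨u, rfl⟩ := exists_smul_z0 z
    obtain ⟨u', rfl⟩ := exists_smul_z0 z'
    exact (D.proper K hK u.1 u.2 u'.1 u'.2 R).subset fun g hg =>
      ⟨(zAct_smul_eq_iff Φ h g u u').1 hg.1, hg.2⟩
  refine ⟨hact, fun g x z hx hz => ?_, hpr, ?_⟩
  · have hf : IsOfFinOrder g := by
      obtain ⟨R', hR'⟩ := AA_triangle (AA oX x)
      refine finite_powers.1 ((hpr z z R').subset ?_)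
      rintro _ ⟨k, rfl⟩
      have h1 : g ^ k • x = x := (MulAction.stabilizer G x).pow_mem hx k
      refine ⟨(MulAction.stabilizer G z).pow_mem hz k, hR' _ x _ le_rfl (le_of_eq ?_)⟩
      have h2 := AA_smul (ρ (g ^ k)) x oX
      rw [← hact, ← hact, h1] at h2
      exact h2.trans (AA_comm _ _)
    obtain ⟨u, rfl⟩ := exists_smul_z0 z
    have hu := (zAct_smul_eq_iff Φ h g u u).1 hz q
    have h1 : IsOfFinOrder ((u.1 q)⁻¹ * Φ g q * u.1 q) := by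
      have := (MulAut.conj (u.1 q)⁻¹).toMonoidHom.isOfFinOrder ((cmp Φ q).isOfFinOrder hf)
      simpa [cmp] using this
    apply D.inj q
    rw [map_one]
    change Φ g q = 1
    calc Φ g q = u.1 q * ((u.1 q)⁻¹ * Φ g q * u.1 q) * (u.1 q)⁻¹ := by group
      _ = 1 := by rw [hq _ hu h1, mul_one, mul_inv_cancel]
  · obtain ⟨R, s, hs, hsA, hc⟩ := D.cocpt K hK
    have hfin : ((fun r : Ad K => r • z0 K) '' (Subtype.val ⁻¹' s)).Finite :=
      (hs.preimage Subtype.val_injective.injOn).image _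
    refine ⟨R, hfin.toFinset, fun x z => ?_⟩
    obtain ⟨u, rfl⟩ := exists_smul_z0 z
    obtain ⟨g, r, hr, hg, hb⟩ := hc u.1 u.2 x
    refine ⟨g⁻¹, ?_, hfin.mem_toFinset.2 ⟨⟨r, hsA hr⟩, hr, ?_⟩⟩
    · rw [hact, map_inv]
      exact hb
    · refine ((zAct_smul_eq_iff Φ h g⁻¹ u ⟨r, hsA hr⟩).2 fun p => ?_).symm
      rw [map_inv]
      exact hg p

end Pool.Agent.P.MP_3c2f8c_gt.Ex
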