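import Pool.Agent.P.MP_3c2f8c_gt.Ex.An.Main
import Pool.Agent.P.MP_3c2f8c_gt.Ex.Gl.AbsA
import Pool.Agent.P.MP_3c2f8c_gt.Ex.Gl.AbsB

/-!
The abstract assembly: adelic data, Hecke data and matchings give isospectral manifolds.
-/

namespace Pool.Agent.P.MP_3c2f8c_gt.Ex

variable {P : Type} {U : P → Type} [∀ p, Group (U p)] {G G' : Type} [Group G] [Group G']

variable [∀ p, TopologicalSpace (U p)] [∀ p, IsTopologicalGroup (U p)]
  {K₀ : ∀ p, Subgroup (U p)}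

namespace AbsAux

/-- Weak approximation at `l` modulo the normaliser. -/
theorem wa {Φ : G →* ∀ p, U p} {ρ : G →* E6} (D : AdData Φ ρ K₀) {K : ∀ p, Subgroup (U p)}
    (hK : Level K₀ K) {l : P}
    (hn : ∀ g : U l, ∃ e ∈ fiRes (U l), e⁻¹ * g ∈ Subgroup.normalizer (K l : Set (U l)))
    (u : ∀ p, U p) : ∃ g : G, ∀ p ∈ ({l} : Finset P),
      (Φ g p)⁻¹ * u p ∈ Subgroup.normalizer (K p : Set (U p)) := by
  obtain ⟨e, he, hu⟩ := hn (u l)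
  obtain ⟨g, -, hg⟩ := strong_approx_one (D.cocpt K hK).finCl (hK.1 l) (D.opn K hK l) he
  refine ⟨g, fun p hp => ?_⟩
  obtain rfl := Finset.mem_singleton.1 hp
  have := mul_mem (Subgroup.le_normalizer hg) hu
  rwa [mul_assoc, mul_inv_cancel_left] at this

omit [∀ p, IsTopologicalGroup (U p)] in
/-- Adelic matchings give a transfer. -/
theorem transfer {Φ : G →* ∀ p, U p} {Φ' : G' →* ∀ p, U p} {ρ : G →* E6} {ρ' : G' →* E6}
    {K : ∀ p, Subgroup (U p)} (hK : Level K₀ K) (h : ∀ g, Φ g ∈ Ad K) (h' : ∀ g, Φ' g ∈ Ad K)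
    {l : P} {RgL : U l → Prop} {κ : U l ⧸ K l → U l ⧸ K l → ℕ}
    (hinv : ∀ (g : U l) z z', κ (g • z) (g • z') = κ z z')
    (hreg : ∀ (m : ℕ) (γ : U l) (z : U l ⧸ K l), Chain κ (m + 1) z (γ • z) → RgL γ)
    {ε : P → ℤ} (hε : ∀ p, ε p = 1 ∨ ε p = -1) (hε' : {p | ε p ≠ 1}.Finite) (hl : ε l = 1)
    {Rg : G → Prop} (hR : ∀ γ, RgL (Φ γ l) → Rg γ) (M : AdMatch Φ Φ' ρ ρ' K₀ ε Rg) :
    letI := zAct Φ K h
    letI := zAct Φ' K h'
    letI := MulAction.compHom XS ρ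
    letI := MulAction.compHom XS ρ'
    Transfer G G' (kerAt K l κ) := by
  obtain ⟨φ, h1, h2⟩ := M
  refine ⟨Rg, φ, fun m γ z hc => hR γ (hreg m _ (z.1 l) (chain_kerAt l hc)), fun γ hγ => ?_, h2⟩
  obtain ⟨τ, u, g, hτ, hc, hu, hu', hg⟩ := h1 γ hγ
  exact matched_of Φ Φ' h h' ρ ρ' l hinv τ hτ hc (hK.ad_eq ▸ hu) ε hε hε' hl hu' g hg

end AbsAux

theorem exists_isospectral [Countable G] [Countable G'] {Φ : G →* ∀ p, U p}
    {Φ' : G' →* ∀ p, U p} {ρ : G →* E6} {ρ' : G' →* E6} (D : AdData Φ ρ K₀)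
    (D' : AdData Φ' ρ' K₀) (h₀ : ∀ p, CO (K₀ p)) (hlev : ∀ p, ∃ L : Subgroup (U p), GoodLev L)
    {l q : P} (hq : q ≠ l) {RgL : U l → Prop} (hH : HeckeData RgL) {ε : P → ℤ}
    (hε : ∀ p, ε p = 1 ∨ ε p = -1) (hε' : {p | ε p ≠ 1}.Finite) (hl : ε l = 1)
    {Rg : G → Prop} {Rg' : G' → Prop} (hR : ∀ γ, RgL (Φ γ l) → Rg γ)
    (hR' : ∀ γ, RgL (Φ' γ l) → Rg' γ) (M : AdMatch Φ Φ' ρ ρ' K₀ ε Rg)
    (M' : AdMatch Φ' Φ ρ' ρ K₀ ε Rg') :
    ∃ K, Level K₀ K ∧ IsClosedMfd ((Gam Φ K).map ρ) ∧ IsClosedMfd ((Gam Φ' K).map ρ') ∧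
      Isospectral ((Gam Φ K).map ρ) ((Gam Φ' K).map ρ') := by
  classical
  obtain ⟨L, κ, hL, hn, hκ, hinv, hreg⟩ := hH
  have h00 : Level K₀ K₀ := ⟨h₀, by simp⟩
  have h₁ : Level K₀ (Function.update K₀ l L) := h00.update l hL
  have hn₁ : ∀ g : U l, ∃ e ∈ fiRes (U l),
      e⁻¹ * g ∈ Subgroup.normalizer ((Function.update K₀ l L) l : Set (U l)) := by
    rwa [Function.update_self]
  obtain ⟨K, hK, hKT, hKq, o, o'⟩ := exists_good_level h₁ Φ Φ' D.mem D'.mem {l} (q := q)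
    (by simpa using hq) (fun K hK => (D.cocpt K hK).finCl) (fun K hK => (D'.cocpt K hK).finCl)
    (fun K hK p _ => D.opn K hK p) (fun K hK p _ => D'.opn K hK p) (fun p _ => hlev p)
    (AbsAux.wa D h₁ hn₁) (AbsAux.wa D' h₁ hn₁)
  have hKl : K l = L := by rw [hKT l (Finset.mem_singleton_self l), Function.update_self]
  subst hKl
  have h : ∀ g, Φ g ∈ Ad K := fun g => hK.ad_eq ▸ D.mem g
  have h' : ∀ g, Φ' g ∈ Ad K := fun g => hK.ad_eq ▸ D'.mem g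
  let _ := MulAction.compHom XS ρ
  let _ := MulAction.compHom XS ρ'
  let _ := zAct Φ K h
  let _ := zAct Φ' K h'
  refine ⟨K, hK, ?_⟩
  rw [← stabilizer_z0 Φ h, ← stabilizer_z0 Φ' h']
  exact ⟨(D.nice hK h hKq).isClosedMfd _, (D'.nice hK h' hKq).isClosedMfd _,
    isospectral_of_transfer (D.nice hK h hKq) (D'.nice hK h' hKq) (hk_kerAt l hκ)
      (fun g => kerAt_smul l hinv ⟨_, h g⟩) (fun g => kerAt_smul l hinv ⟨_, h' g⟩)
      (AbsAux.transfer hK h h' hinv hreg hε hε' hl hR M)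
      (AbsAux.transfer hK h' h hinv hreg hε hε' hl hR' M') (z0 K)
      (o.stabilizer h) (o'.stabilizer h')⟩

end Pool.Agent.P.MP_3c2f8c_gt.Ex
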