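import Pool.Agent.P.MP_3c2f8c_gt.Ex.ADefs
import Pool.Agent.P.MP_3c2f8c_gt.Gl.Abs1

/-! Ex-Gl-CpA: change of level. -/

namespace Pool.Agent.P.MP_3c2f8c_gt.Ex

open Matrix

variable {P : Type} {U : P → Type} [∀ p, Group (U p)] {G : Type} [Group G]
  [∀ p, TopologicalSpace (U p)] [∀ p, IsTopologicalGroup (U p)] {K₀ K : ∀ p, Subgroup (U p)}
  {Φ : G →* ∀ p, U p} {ρ : G →* E6}

namespace CpAAux

/-- Finitely many coset representatives for a change of level. -/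
theorem reps {K' : ∀ p, Subgroup (U p)} (h : Level K₀ K) (h' : Level K₀ K') :
    ∃ T : Set (∀ p, U p), T.Finite ∧ T ⊆ Ad K₀ ∧ ∀ k : ∀ p, U p, (∀ p, k p ∈ K p) →
      ∃ t ∈ T, ∀ p, (t p)⁻¹ * k p ∈ K' p := by
  have h1 := Abs1Aux.relIndex_ne_zero h' h (MonoidHom.id (∀ p, U p))
  have h2 : Finite (Gam (MonoidHom.id (∀ p, U p)) K ⧸
      (Gam (MonoidHom.id (∀ p, U p)) K').subgroupOf (Gam (MonoidHom.id (∀ p, U p)) K)) :=
    Subgroup.index_ne_zero_iff_finite.1 h1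
  refine ⟨Set.range fun c : Gam (MonoidHom.id (∀ p, U p)) K ⧸
      (Gam (MonoidHom.id (∀ p, U p)) K').subgroupOf (Gam (MonoidHom.id (∀ p, U p)) K) =>
    c.out.1, Set.finite_range _, ?_, fun k hk => ?_⟩
  · rintro _ ⟨c, rfl⟩
    rw [← h.ad_eq]
    exact Set.finite_empty.subset fun p hp => hp ((mem_Gam _ _ _).1 c.out.2 p)
  · let k' : Gam (MonoidHom.id (∀ p, U p)) K := ⟨k, (mem_Gam _ _ _).2 hk⟩
    refine ⟨_, ⟨QuotientGroup.mk k', rfl⟩, ?_⟩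
    have h3 := QuotientGroup.eq.1 (QuotientGroup.out_eq'
      (s := (Gam (MonoidHom.id (∀ p, U p)) K').subgroupOf _) (QuotientGroup.mk k'))
    exact (mem_Gam (MonoidHom.id (∀ p, U p)) K' _).1 (Subgroup.mem_subgroupOf.1 h3)

end CpAAux

theorem Cocpt.level (h₀ : ∀ p, CO (K₀ p)) (h : Cocpt Φ ρ K₀) (hK : Level K₀ K) : Cocpt Φ ρ K := by
  obtain ⟨R, s, hs, hs', hcl⟩ := h
  obtain ⟨T, hT, hT', hrep⟩ := CpAAux.reps (K := K₀) ⟨h₀, by simp⟩ hK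
  refine ⟨R, Set.image2 (· * ·) s T, hs.image2 _ hT, ?_, fun u hu x => ?_⟩
  · rintro _ ⟨r, hr, t, ht, rfl⟩
    rw [hK.ad_eq]
    exact mul_mem (hs' hr) (hT' ht)
  · rw [hK.ad_eq] at hu
    obtain ⟨g, r, hr, h1, h2⟩ := hcl u hu x
    obtain ⟨t, ht, h3⟩ := hrep _ h1
    refine ⟨g, r * t, ⟨r, hr, t, ht, rfl⟩, fun p => ?_, h2⟩
    have e : ((r * t) p)⁻¹ * (Φ g p)⁻¹ * u p = (t p)⁻¹ * ((r p)⁻¹ * (Φ g p)⁻¹ * u p) := by
      rw [Pi.mul_apply]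
      group
    rw [e]
    exact h3 p

theorem Proper.level (h₀ : ∀ p, CO (K₀ p)) (h : Proper Φ ρ K₀) (hK : Level K₀ K) : Proper Φ ρ K := by
  intro u hu u' hu' R
  rw [hK.ad_eq] at hu hu'
  obtain ⟨T, hT, hT', hrep⟩ := CpAAux.reps (K' := K₀) hK ⟨h₀, by simp⟩
  refine (hT.biUnion fun t ht => h u hu (u' * t) (mul_mem hu' (hT' ht)) R).subset fun g hg => ?_
  obtain ⟨t, ht, h3⟩ := hrep _ hg.1
  refine Set.mem_biUnion ht ⟨fun p => ?_, hg.2⟩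
  have e : ((u' * t) p)⁻¹ * Φ g p * u p = (t p)⁻¹ * ((u' p)⁻¹ * Φ g p * u p) := by
    rw [Pi.mul_apply]
    group
  rw [e]
  exact h3 p

end Pool.Agent.P.MP_3c2f8c_gt.Ex
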