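import Pool.Agent.P.MP_3c2f8c_gt.Ex.Defs
import Pool.Agent.P.MP_3c2f8c_gt.Gl.Hermite
import Pool.Agent.P.MP_3c2f8c_gt.Ex.Gl.Mah1

/-! Ex-Gl-CpC: lattices: class number one and bounded bases. -/

namespace Pool.Agent.P.MP_3c2f8c_gt.Ex

open Matrix

variable {κ : Type} [Fintype κ] [DecidableEq κ]

namespace CpCAux

theorem exists_int {v : κ → ℚ} (h : ∀ (p : Nat.Primes) i, ‖(v i : ℚ_[p])‖ ≤ 1) :
    ∃ z : κ → ℤ, ∀ i, (z i : ℚ) = v i := by
  choose z hz using fun i => FinAux.exists_intCast (x := v i) fun p => h p i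
  exact ⟨z, hz⟩

theorem minB {μ : ℝ} {B : Matrix κ κ ℝ}
    (h : ∀ z : κ → ℤ, z ≠ 0 → ∃ i, μ ≤ |(B *ᵥ fun j => (z j : ℝ)) i|) :
    Mah.MinB μ (fun _ => 1) B := fun v hv hi => by
  obtain ⟨z, hz⟩ := exists_int (v := v) fun p i => by simpa using hi p i
  obtain ⟨i, h1⟩ := h z fun h0 => hv (funext fun i => by rw [← hz, h0]; simp)
  refine ⟨i, h1.trans_eq ?_⟩
  congr 3
  funext j
  rw [← hz, Rat.cast_intCast]

end CpCAux

theorem exists_rat_basis (u : ∀ p : Nat.Primes, GL κ (@Padic p.1 ⟨p.2⟩))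
    (fin : {p : Nat.Primes | haveI : Fact p.1.Prime := ⟨p.2⟩;
      ¬ ∀ i j, ‖(u p).1 i j‖ ≤ 1 ∧ ‖((u p)⁻¹).1 i j‖ ≤ 1}.Finite) :
    ∃ A : GL κ ℚ, ∀ p : Nat.Primes, haveI : Fact p.1.Prime := ⟨p.2⟩; ∀ i j,
      ‖(((u p)⁻¹).1 * A.1.map (algebraMap ℚ ℚ_[p])) i j‖ ≤ 1 ∧
      ‖((A⁻¹).1.map (algebraMap ℚ ℚ_[p]) * (u p).1) i j‖ ≤ 1 := by
  obtain ⟨D, hD, -, h3⟩ := ShortAux.exists_mult (κ := κ × κ) (fun q k => (u q).1 k.1 k.2)
    (fin.subset fun p hp h => hp fun k => (h k.1 k.2).1) ∅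
  have hD' : (0 : ℝ) < D := by exact_mod_cast hD
  obtain ⟨C, hC⟩ := Mah.short_dual κ (inv_pos.2 hD')
  obtain ⟨e, he, -⟩ := hC (fun p => ((u p)⁻¹).1) (fun p => (u p).1) 1 1
    (fun p => Units.inv_mul _) (Matrix.one_mul _)
    (fin.subset fun p hp h => hp fun i j => (h i j).2) (fun v hv hi => by
      obtain ⟨z, hz⟩ := CpCAux.exists_int (v := fun i => (D : ℚ) * v i) fun p i => by
        have e1 : (fun j => (v j : ℚ_[p])) =
            (u p).1 *ᵥ (((u p)⁻¹).1 *ᵥ fun j => (v j : ℚ_[p])) := by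
          rw [mulVec_mulVec, Units.mul_inv, one_mulVec]
        have e2 := congrFun e1 i
        rw [Rat.cast_mul, Rat.cast_natCast, e2, mulVec, dotProduct, Finset.mul_sum]
        simp only [← mul_assoc]
        exact ShortAux.sum_le (fun j => h3 p (Finset.notMem_empty _) (i, j)) (hi p)
      obtain ⟨i, h0⟩ := Function.ne_iff.1 hv
      refine ⟨i, ?_⟩
      have h1 : z i ≠ 0 := fun h => by
        have := hz i
        rw [h] at this
        exact mul_ne_zero (by exact_mod_cast hD.ne') h0 this.symm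
      have h2 : (1 : ℝ) ≤ |(z i : ℝ)| := by exact_mod_cast Int.one_le_abs h1
      have h4 : (z i : ℝ) = D * (v i : ℝ) := by exact_mod_cast hz i
      rw [h4, abs_mul, abs_of_pos hD'] at h2
      rw [one_mulVec, inv_le_iff_one_le_mul₀' hD']
      exact h2)
  exact ⟨e, fun p i j => ⟨(he p).1 i j, (he p).2 i j⟩⟩

theorem exists_bounded (κ : Type) [Fintype κ] [DecidableEq κ] {μ : ℝ} (hμ : 0 < μ) :
    ∃ C : ℝ, ∀ B : GL κ ℝ,
      (∀ z : κ → ℤ, z ≠ 0 → ∃ i, μ ≤ |(B.1 *ᵥ fun j => (z j : ℝ)) i|) →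
      (∀ z : κ → ℤ, z ≠ 0 → ∃ i, μ ≤ |((B⁻¹).1ᵀ *ᵥ fun j => (z j : ℝ)) i|) →
      ∃ T : GL κ ℤ, ∀ i j, |(B.1 * T.1.map (Int.castRingHom ℝ)) i j| ≤ C ∧
        |((T⁻¹).1.map (Int.castRingHom ℝ) * (B⁻¹).1) i j| ≤ C := by
  obtain ⟨C, hC⟩ := Mah.mahler κ hμ
  have h1 : ∀ p : Nat.Primes, Mah.IntQ (1 : Matrix κ κ ℚ_[p]) := fun p i j => by
    rw [Matrix.one_apply]
    split_ifs <;> simp
  refine ⟨C, fun B hB hB' => ?_⟩
  obtain ⟨e, he, b1, b2⟩ := hC (fun _ => 1) (fun _ => 1) B.1 (B⁻¹).1 (fun _ => Matrix.one_mul _)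
    (Units.mul_inv _) (by simp [h1]) (by simp [h1]) (CpCAux.minB hB)
    (by simpa only [transpose_one] using CpCAux.minB hB')
  obtain ⟨X, hX⟩ := CpCAux.exists_int (κ := κ × κ) (v := fun k => e.1 k.1 k.2) fun p k => by
    simpa using (he p).1 k.1 k.2
  obtain ⟨Y, hY⟩ := CpCAux.exists_int (κ := κ × κ) (v := fun k => (e⁻¹).1 k.1 k.2) fun p k => by
    have := (he p).2 k.1 k.2
    rwa [Matrix.mul_one] at this
  let X' : Matrix κ κ ℤ := Matrix.of fun i j => X (i, j)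
  let Y' : Matrix κ κ ℤ := Matrix.of fun i j => Y (i, j)
  have eX : X'.map (Int.castRingHom ℚ) = e.1 := Matrix.ext fun i j => hX (i, j)
  have eY : Y'.map (Int.castRingHom ℚ) = (e⁻¹).1 := Matrix.ext fun i j => hY (i, j)
  have hXY : X' * Y' = 1 := by
    apply Matrix.map_injective (f := Int.castRingHom ℚ) Int.cast_injective
    change (X' * Y').map (Int.castRingHom ℚ) = (1 : Matrix κ κ ℤ).map (Int.castRingHom ℚ)
    rw [Matrix.map_mul, eX, eY, Units.mul_inv, Matrix.map_one _ (map_zero _) (map_one _)]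
  have eR : ∀ Z : Matrix κ κ ℤ,
      Z.map (Int.castRingHom ℝ) = (Z.map (Int.castRingHom ℚ)).map (ra ℝ) := fun Z => by
    ext i j
    simp
  refine ⟨⟨X', Y', hXY, mul_eq_one_comm.1 hXY⟩, fun i j => ⟨?_, ?_⟩⟩
  · change |(B.1 * X'.map (Int.castRingHom ℝ)) i j| ≤ C
    rw [eR, eX]
    exact b1 i j
  · change |(Y'.map (Int.castRingHom ℝ) * (B⁻¹).1) i j| ≤ C
    rw [eR, eY]
    exact b2 i j

end Pool.Agent.P.MP_3c2f8c_gt.Ex
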