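import Pool.Agent.P.MP_3c2f8c_gt.Ex.Gl.Nu

/-! Ex-Gl-CpD: no short vectors. -/

namespace Pool.Agent.P.MP_3c2f8c_gt.Ex

open Matrix

namespace CpDAux

/-- Polynomial expressions in the coordinates and their conjugates. -/
inductive Tm where
  | k (q : ℚ) | x (a : I) | s (e : Tm) | mul (e f : Tm) | sum (f : I → Tm)

variable {R S : Type} [CommRing R] [Algebra ℚ R] [CommRing S] [Algebra ℚ S]

/-- The value of an expression. -/
def ev (w : I → Cub R) : Tm → Cub R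
  | .k q => algebraMap ℚ (Cub R) q
  | .x a => w a
  | .s e => Cub.sig (ev w e)
  | .mul e f => ev w e * ev w f
  | .sum f => ∑ a, ev w (f a)

theorem ev_map (f : R →+* S) (w : I → Cub R) (e : Tm) :
    ev (fun a => Cub.map f (w a)) e = Cub.map f (ev w e) := by
  induction e with
  | k q => exact (RingHom.map_rat_algebraMap _ q).symm
  | x a => rfl
  | s e ih => rw [ev, ev, ih, Cub.map_sig]
  | mul e e' ih ih' => rw [ev, ev, ih, ih', map_mul]
  | sum g ih => simp only [ev, ih, map_sum]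

theorem intC_nat {p : ℕ} [Fact p.Prime] (M : ℕ) : IntC (M : Cub ℚ_[p]) := by
  rw [← map_natCast Cub.C, intC_C]
  exact_mod_cast Padic.norm_int_le_one (p := p) M

theorem ev_int (e : Tm) : ∃ M : ℕ, 0 < M ∧ ∀ (p : Nat.Primes) (w : I → Cub ℚ_[p]), IntV w →
    IntC ((M : Cub ℚ_[p]) * ev w e) := by
  induction e with
  | k q =>
    refine ⟨q.den, q.den_pos, fun p w _ => ?_⟩
    rw [ev, ← map_natCast (algebraMap ℚ (Cub ℚ_[p])), ← map_mul, Rat.den_mul_eq_num,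
      map_intCast, ← map_intCast (Cub.C : ℚ_[p] →+* Cub ℚ_[p]), intC_C]
    exact Padic.norm_int_le_one _
  | x a => exact ⟨1, one_pos, fun p w hw => by rw [Nat.cast_one, one_mul]; exact hw a⟩
  | s e ih =>
    obtain ⟨M, hM, h⟩ := ih
    refine ⟨M, hM, fun p w hw => ?_⟩
    have := (h p w hw).sig
    rwa [map_mul, map_natCast] at this
  | mul e e' ih ih' =>
    obtain ⟨M, hM, h⟩ := ih
    obtain ⟨M', hM', h'⟩ := ih'
    refine ⟨M * M', Nat.mul_pos hM hM', fun p w hw => ?_⟩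
    rw [ev, Nat.cast_mul, mul_mul_mul_comm]
    exact (h p w hw).mul (h' p w hw)
  | sum g ih =>
    choose M hM h using ih
    refine ⟨∏ a, M a, Finset.prod_pos fun a _ => hM a, fun p w hw => ?_⟩
    rw [ev, Finset.mul_sum]
    refine Finset.sum_induction _ IntC (fun _ _ => IntC.add) intC_zero fun a ha => ?_
    obtain ⟨c, hc⟩ := Finset.dvd_prod_of_mem M ha
    rw [hc, mul_comm (M a), Nat.cast_mul, mul_assoc]
    exact (intC_nat c).mul (h a p w hw)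

theorem ev_cont (e : Tm) : Continuous fun w : I → Cub ℝ => ev w e := by
  induction e with
  | k q => exact continuous_const
  | x a => exact continuous_apply a
  | s e ih =>
    obtain ⟨h0, h1, h2⟩ := Cub.continuous_iff.1 ih
    refine Cub.continuous_iff.2 ⟨?_, ?_, ?_⟩ <;>
      simp only [ev, Cub.sig_c0, Cub.sig_c1, Cub.sig_c2] <;> fun_prop
  | mul e e' ih ih' => exact ih.mul ih'
  | sum g ih => exact continuous_finsetSum _ fun a _ => ih a

theorem small (e : Tm) (h0 : ev (0 : I → Cub ℝ) e = 0) {ε : ℝ} (hε : 0 < ε) :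
    ∃ μ : ℝ, 0 < μ ∧ ∀ w : I → Cub ℝ, (∀ a i, |Cub.co (w a) i| < μ) →
      |Cub.nrm (ev w e)| < ε := by
  let mk : (I → Fin 3 → ℝ) → I → Cub ℝ := fun c a => ⟨c a 0, c a 1, c a 2⟩
  have hmk : Continuous mk := continuous_pi fun a => by
    refine Cub.continuous_iff.2 ⟨?_, ?_, ?_⟩ <;> simp only [mk] <;> fun_prop
  obtain ⟨c0, c1, c2⟩ := Cub.continuous_iff.1 ((ev_cont e).comp hmk)
  have hc : Continuous fun c => Cub.nrm (ev (mk c) e) := by
    simp only [Cub.nrm_eq]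
    simp only [Function.comp_apply] at c0 c1 c2
    fun_prop
  obtain ⟨μ, hμ, h⟩ := Metric.continuous_iff.1 hc 0 ε hε
  refine ⟨μ, hμ, fun w hw => ?_⟩
  have h1 := h (fun a => Cub.co (w a)) (by
    rw [dist_zero_right, pi_norm_lt_iff hμ]
    intro a
    rw [pi_norm_lt_iff hμ]
    exact hw a)
  have e0 : mk 0 = 0 := rfl
  have e1 : Cub.nrm (0 : Cub ℝ) = 0 := by simp [Cub.nrm]
  rwa [e0, h0, e1, Real.dist_eq, sub_zero] at h1

theorem mul_inv_vec {A : Type} [CommRing A] (g : GL I A) (x : I → A) : g.1 *ᵥ ((g⁻¹).1 *ᵥ x) = x := by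
  rw [mulVec_mulVec, ← Units.val_mul, mul_inv_cancel, Units.val_one, one_mulVec]

theorem key {b : ℚ} (hb : b ≠ 0) (e : Tm) (d : ℕ) (h0 : ev (0 : I → Cub ℝ) e = 0)
    (hc : ∀ (R : Type) [CommRing R] [Algebra ℚ R] (g : Gt b R) (w : I → Cub R),
      ev (g.1.1 *ᵥ w) e = Cub.C (Gt.nu g ^ d) * ev w e) : ∃ μ : ℝ, 0 < μ ∧
    ∀ (u : ∀ p : Nat.Primes, Gt b ℚ_[p]) (n : ℚ) (h : Gt b ℝ), APt u n h → ∀ v : I → Cub ℚ,
      ev v e ≠ 0 → (∀ p : Nat.Primes, IntV (((u p).1⁻¹).1 *ᵥ vmap ℚ_[p] v)) →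
      ∃ a i, μ ≤ |Cub.co (((h.1⁻¹).1 *ᵥ vmap ℝ v) a) i| := by
  obtain ⟨M, hM, hint⟩ := ev_int e
  have hM' : (0 : ℝ) < (M : ℝ) ^ 3 := by positivity
  obtain ⟨μ, hμ, hs⟩ := small e h0 (inv_pos.2 hM')
  refine ⟨μ, hμ, fun u n h hA v hv hI => ?_⟩
  have hN : Cub.nrm (ev v e) ≠ 0 := ((Cub.isUnit_iff _).1 (Ne.isUnit hv)).ne_zero
  have hn : n ≠ 0 := by
    have := (Gt.isUnit_nu hb h).ne_zero
    rw [hA.hh] at this
    exact_mod_cast this
  have loc : ∀ (R : Type) [CommRing R] [Algebra ℚ R] (g : Gt b R),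
      algebraMap ℚ R (Cub.nrm (ev v e)) =
        (Gt.nu g ^ d) ^ 3 * Cub.nrm (ev ((g.1⁻¹).1 *ᵥ vmap R v) e) := by
    intro R _ _ g
    rw [← Cub.nrm_C, ← Cub.nrm_mul, ← hc, mul_inv_vec, ← Cub.nrm_map, ← ev_map]
    rfl
  set q : ℚ := M ^ 3 * Cub.nrm (ev v e) / (n ^ d) ^ 3 with hq
  have hq0 : q ≠ 0 := by
    have : (M : ℚ) ≠ 0 := by exact_mod_cast hM.ne'
    positivity
  have hqi : (q.num : ℚ) = q := by
    refine Cub2Aux.int_of_rat fun p => ?_
    have h1 := (hint p _ (hI p)).nrm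
    rw [Cub.nrm_mul, ← map_natCast Cub.C, Cub.nrm_C] at h1
    have hn' : ‖(n : ℚ_[p])‖ ≠ 0 := by
      rw [norm_ne_zero_iff]
      exact_mod_cast hn
    rw [hq, map_div₀, map_mul, loc _ (u p), map_pow, map_natCast, mul_left_comm, norm_div,
      norm_mul, map_pow, map_pow, eq_ratCast, norm_pow, norm_pow, norm_pow, norm_pow, hA.hn,
      mul_div_cancel_left₀ _ (pow_ne_zero _ (pow_ne_zero _ hn'))]
    exact h1
  have h1 : (1 : ℝ) ≤ |(q : ℝ)| := by
    have : q.num ≠ 0 := Rat.num_ne_zero.2 hq0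
    rw [← hqi, Rat.cast_intCast]
    exact_mod_cast Int.one_le_abs this
  by_contra hcon
  have h2 := hs ((h.1⁻¹).1 *ᵥ vmap ℝ v) fun a i => not_le.1 fun hle => hcon ⟨a, i, hle⟩
  have h3 := loc ℝ h
  have hn' : (n : ℝ) ≠ 0 := by exact_mod_cast hn
  rw [eq_ratCast, hA.hh] at h3
  have h4 : (q : ℝ) = (M : ℝ) ^ 3 * Cub.nrm (ev ((h.1⁻¹).1 *ᵥ vmap ℝ v) e) := by
    rw [hq, Rat.cast_div, Rat.cast_mul, h3, Rat.cast_pow, Rat.cast_pow, Rat.cast_pow,
      Rat.cast_natCast, mul_left_comm,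
      mul_div_cancel_left₀ _ (pow_ne_zero _ (pow_ne_zero _ hn'))]
  rw [h4, abs_mul, abs_of_pos hM'] at h1
  have h5 := mul_lt_mul_of_pos_left h2 hM'
  rw [mul_inv_cancel₀ hM'.ne'] at h5
  exact absurd h1 (not_le.2 h5)

/-- The semilinear map on expressions. -/
def phT (b : ℚ) (X : I → Tm) : I → Tm := fun a =>
  .sum fun c => .mul (.k (ph b ℚ a c)) (.s (X c))

/-- The cross product on expressions. -/
def crT (X : I → Tm) : I → Tm := fun c =>
  .sum fun a => .sum fun a' => .mul (.k (nJ ℚ a a' c)) (.mul (X a) (X a'))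

/-- The trilinear form on expressions. -/
def trT (n : T3 ℚ) (X Y Z : I → Tm) : Tm :=
  .sum fun a => .sum fun a' => .sum fun c => .mul (.k (n a a' c)) (.mul (.mul (X a) (Y a')) (Z c))

/-- The value of a vector of expressions. -/
def evV (w : I → Cub R) (X : I → Tm) : I → Cub R := fun a => ev w (X a)

theorem evV_x (w : I → Cub R) : evV w .x = w := rfl

theorem evV_phT [Algebra ℚ (Cub R)] (b : ℚ) (w : I → Cub R) (X : I → Tm) :
    evV w (phT b X) = PhiV Cub.sig (ph b (Cub R)) (evV w X) := by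
  rw [← ph_map b (Cub.C.comp (algebraMap ℚ R))]
  rfl

theorem evV_crT (w : I → Cub R) (X : I → Tm) :
    evV w (crT X) = crs (nJ (Cub R)) (evV w X) (evV w X) := by
  rw [← nJ_map (algebraMap ℚ (Cub R))]
  rfl

theorem ev_trN (w : I → Cub R) (X Y Z : I → Tm) :
    ev w (trT (nJ ℚ) X Y Z) = tri (nJ (Cub R)) (evV w X) (evV w Y) (evV w Z) := by
  rw [← nJ_map (algebraMap ℚ (Cub R))]
  rfl

theorem ev_trM [Algebra ℚ (Cub R)] (w : I → Cub R) (X Y Z : I → Tm) :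
    ev w (trT (mJ ℚ) X Y Z) = tri (mJ (Cub R)) (evV w X) (evV w Y) (evV w Z) := by
  rw [← mJ_map (Cub.C.comp (algebraMap ℚ R))]
  rfl

theorem tri_zero {A : Type} [CommRing A] (n : T3 A) (y z : I → A) : tri n 0 y z = 0 := by
  simp [tri]

end CpDAux

open CpDAux in
theorem no_short {b : ℚ} (hb : Good b) : ∃ μ : ℝ, 0 < μ ∧
    ∀ (u : ∀ p : Nat.Primes, Gt b ℚ_[p]) (n : ℚ) (h : Gt b ℝ), APt u n h → ∀ v : I → Cub ℚ, v ≠ 0 →
      (∀ p : Nat.Primes, IntV (((u p).1⁻¹).1 *ᵥ vmap ℚ_[p] v)) →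
      ∃ a i, μ ≤ |Cub.co (((h.1⁻¹).1 *ᵥ vmap ℝ v) a) i| := by
  obtain ⟨μ₁, p₁, h₁⟩ := key hb.ne (trT (nJ ℚ) .x .x .x) 1 (by rw [ev_trN, evV_x, tri_zero])
    fun R _ _ g w => by
      simp only [ev_trN, evV_x, pow_one]
      exact Gt.sim hb.ne g _ _ _
  obtain ⟨μ₂, p₂, h₂⟩ := key hb.ne (trT (nJ ℚ) .x (phT b .x) (phT b (phT b .x))) 1
    (by rw [ev_trN, evV_x, tri_zero]) fun R _ _ g w => by
      simp only [ev_trN, evV_phT, evV_x, pow_one, ← Gt.phiV]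
      exact Gt.sim hb.ne g _ _ _
  obtain ⟨μ₃, p₃, h₃⟩ := key hb.ne
    (trT (mJ ℚ) (crT .x) (crT (phT b .x)) (crT (phT b (phT b .x)))) 2
    (by rw [ev_trM, evV_crT, evV_x, crs_zero_left, tri_zero]) fun R _ _ g w => by
      have hs := Gt.sim hb.ne g
      obtain ⟨ν, hν⟩ := (Gt.isUnit_nu hb.ne g).map (Cub.C : R →+* Cub R)
      simp only [ev_trM, evV_crT, evV_phT, evV_x, ← Gt.phiV, map_pow]
      rw [← hν] at hs ⊢
      rw [hs.crs, hs.crs, hs.crs, tri_smul₁, tri_smul₂, tri_smul₃,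
        hs.dag (isAlb_nJ _) (isAlb_nJ _), Units.mul_inv_cancel_left, pow_two, mul_assoc]
  refine ⟨min μ₁ (min μ₂ μ₃), lt_min p₁ (lt_min p₂ p₃), fun u n h hA v hv hI => ?_⟩
  obtain ⟨φ, hφ⟩ := exists_phU hb.ne (Cub ℚ)
  have T := hb.tw hφ
  by_cases c1 : tri (nJ (Cub ℚ)) v v v = 0
  · by_cases c2 : crs (nJ (Cub ℚ)) v v = 0
    · obtain ⟨a, i, hle⟩ := h₂ u n h hA v (by
        simp only [ev_trN, evV_phT, evV_x, ← hφ]
        exact T.tri_ne hv c2) hI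
      exact ⟨a, i, ((min_le_right _ _).trans (min_le_left _ _)).trans hle⟩
    · obtain ⟨a, i, hle⟩ := h₃ u n h hA v (by
        have h3 := T.alb.adj₁ v
        rw [c1, mul_zero, zero_smul, smul_eq_zero] at h3
        have h4 := T.dual.tri_ne c2 (h3.resolve_left (by norm_num))
        simp only [ev_trM, evV_crT, evV_phT, evV_x, ← hφ]
        rw [T.crs_phi, T.crs_phi, T.crs_phi, PhiV_smul, T.fixed, tri_smul₂, tri_smul₃, tri_smul₃]
        exact mul_ne_zero T.ne_zero (mul_ne_zero T.ne_zero (mul_ne_zero T.ne_zero h4))) hI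
      exact ⟨a, i, ((min_le_right _ _).trans (min_le_right _ _)).trans hle⟩
  · obtain ⟨a, i, hle⟩ := h₁ u n h hA v (by rwa [ev_trN, evV_x]) hI
    exact ⟨a, i, (min_le_left _ _).trans hle⟩

end Pool.Agent.P.MP_3c2f8c_gt.Ex
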