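import Pool.Agent.P.MP_3c2f8c_gt.Ex.MDefs
import Pool.Agent.P.MP_3c2f8c_gt.Ex.Al.Cub2
import Pool.Agent.P.MP_3c2f8c_gt.Ex.Gl.Mah1

/-! Coordinates over the base ring of vectors and matrices over the cubic algebra. -/

namespace Pool.Agent.P.MP_3c2f8c_gt.Ex.CpEAux

open Matrix

/-- The index set of the 81 coordinates over the base ring. -/
abbrev KI : Type := I × Fin 3

variable {R : Type} [CommRing R]

/-- The coordinates of a vector. -/
def cv (R : Type) [CommRing R] : (I → Cub R) ≃ₗ[R] (KI → R) where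
  toFun v k := Cub.co (v k.1) k.2
  invFun w a := ⟨w (a, 0), w (a, 1), w (a, 2)⟩
  left_inv _ := rfl
  right_inv w := by
    funext ⟨a, i⟩
    fin_cases i <;> rfl
  map_add' x y := by
    funext ⟨a, i⟩
    fin_cases i <;> rfl
  map_smul' c x := by
    funext ⟨a, i⟩
    fin_cases i <;> rfl

theorem cv_apply (v : I → Cub R) (k : KI) : cv R v k = Cub.co (v k.1) k.2 := rfl

/-- The matrix over the base ring of a matrix over the cubic algebra. -/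
def cm (g : Matrix I I (Cub R)) : Matrix KI KI R :=
  LinearMap.toMatrix' ((cv R).toLinearMap ∘ₗ (g.mulVecLin.restrictScalars R) ∘ₗ
    (cv R).symm.toLinearMap)

theorem cm_mulVec (g : Matrix I I (Cub R)) (v : I → Cub R) : cm g *ᵥ cv R v = cv R (g *ᵥ v) := by
  rw [cm, LinearMap.toMatrix'_mulVec]
  simp

theorem cm_mul_cm {g h : Matrix I I (Cub R)} (e : g * h = 1) : cm g * cm h = 1 := by
  refine Matrix.ext_of_mulVec_single fun k => ?_
  obtain ⟨v, hv⟩ := (cv R).surjective (Pi.single k 1)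
  rw [← hv, ← mulVec_mulVec, cm_mulVec, cm_mulVec, mulVec_mulVec, e, one_mulVec, one_mulVec]

theorem cv_vmap (k : Type) [CommRing k] [Algebra ℚ k] (v : I → Cub ℚ) :
    cv k (vmap k v) = fun l => algebraMap ℚ k (cv ℚ v l) := by
  funext ⟨a, i⟩
  fin_cases i <;> rfl

/-- The coordinates of a linear form. -/
def dv (ξ : I → Cub R) : KI → R := fun k =>
  ![(ξ k.1).c2, (ξ k.1).c1 - (ξ k.1).c2, (ξ k.1).c0 - (ξ k.1).c1 + 3 * (ξ k.1).c2] k.2

theorem exists_dv (w : KI → R) : ∃ ξ, dv ξ = w := by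
  refine ⟨fun a => ⟨w (a, 2) + w (a, 1) - 2 * w (a, 0), w (a, 1) + w (a, 0), w (a, 0)⟩, ?_⟩
  funext ⟨a, i⟩
  fin_cases i <;> simp [dv]
  ring

theorem dv_vmap (k : Type) [CommRing k] [Algebra ℚ k] (ξ : I → Cub ℚ) :
    dv (vmap k ξ) = fun l => algebraMap ℚ k (dv ξ l) := by
  funext ⟨a, i⟩
  fin_cases i <;> simp [dv, vmap, map_ofNat]

theorem dv_dot (ξ v : I → Cub R) : dv ξ ⬝ᵥ cv R v = (ξ ⬝ᵥ v).c2 := by
  have h : ∀ s : Finset I, (∑ a ∈ s, ξ a * v a).c2 = ∑ a ∈ s, (ξ a * v a).c2 := fun s => by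
    induction s using Finset.induction_on with
    | empty => simp
    | insert a s ha ih => rw [Finset.sum_insert ha, Finset.sum_insert ha, Cub.add_c2, ih]
  rw [dotProduct, dotProduct, h, Fintype.sum_prod_type]
  refine Finset.sum_congr rfl fun a _ => ?_
  simp [Fin.sum_univ_three, dv, cv_apply, Cub.co]
  ring

theorem cm_transpose (g : Matrix I I (Cub R)) (ξ : I → Cub R) :
    (cm g)ᵀ *ᵥ dv ξ = dv (gᵀ *ᵥ ξ) := by
  funext k
  obtain ⟨v, hv⟩ := (cv R).surjective (Pi.single k 1)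
  have h : ((cm g)ᵀ *ᵥ dv ξ) ⬝ᵥ cv R v = dv (gᵀ *ᵥ ξ) ⬝ᵥ cv R v := by
    rw [mulVec_transpose, ← dotProduct_mulVec, cm_mulVec, dv_dot, dv_dot, mulVec_transpose,
      dotProduct_mulVec]
  rw [hv] at h
  simpa using h

section Padic

variable {p : ℕ} [Fact p.Prime]

theorem intV_iff (v : I → Cub ℚ_[p]) : IntV v ↔ ∀ k, ‖cv ℚ_[p] v k‖ ≤ 1 := by
  refine ⟨fun h ⟨a, i⟩ => ?_, fun h a => ⟨h (a, 0), h (a, 1), h (a, 2)⟩⟩
  fin_cases i
  exacts [(h a).1, (h a).2.1, (h a).2.2]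

theorem intV_mulVec {g : Matrix I I (Cub ℚ_[p])} (hg : IntX g) {v : I → Cub ℚ_[p]} (hv : IntV v) :
    IntV (g *ᵥ v) := fun a =>
  Finset.sum_induction _ IntC (fun _ _ => IntC.add) intC_zero fun c _ => (hg a c).mul (hv c)

theorem intQ_cm {g : Matrix I I (Cub ℚ_[p])} (hg : IntX g) : Mah.IntQ (cm g) := fun k l => by
  obtain ⟨v, hv⟩ := (cv ℚ_[p]).surjective (Pi.single l 1)
  have h1 : IntV v := (intV_iff v).2 fun j => by
    rw [hv, Pi.single_apply]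
    split_ifs <;> simp
  have h2 := (intV_iff _).1 (intV_mulVec hg h1) k
  rw [← cm_mulVec, hv] at h2
  simpa using h2

theorem intV_of_dv {ξ : I → Cub ℚ_[p]} (h : ∀ k, ‖dv ξ k‖ ≤ 1) : IntV ξ := fun a => by
  have h0 : ‖(ξ a).c2‖ ≤ 1 := h (a, 0)
  have h1 : ‖(ξ a).c1 - (ξ a).c2‖ ≤ 1 := h (a, 1)
  have h2 : ‖(ξ a).c0 - (ξ a).c1 + 3 * (ξ a).c2‖ ≤ 1 := h (a, 2)
  have ad : ∀ x y : ℚ_[p], ‖x‖ ≤ 1 → ‖y‖ ≤ 1 → ‖x + y‖ ≤ 1 := fun x y hx hy =>
    (Padic.nonarchimedean _ _).trans (max_le hx hy)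
  have h3 : ‖(ξ a).c1‖ ≤ 1 := by simpa using ad _ _ h1 h0
  have h4 : ‖-(ξ a).c2‖ ≤ 1 := by rwa [norm_neg]
  refine ⟨?_, h3, h0⟩
  have := ad _ _ (ad _ _ (ad _ _ (ad _ _ h2 h3) h4) h4) h4
  convert this using 2
  ring

end Padic

theorem co_lt_of_dv {ξ : I → Cub ℝ} {μ : ℝ} (h : ∀ k, |dv ξ k| < μ) (a : I) (i : Fin 3) :
    |Cub.co (ξ a) i| < 4 * μ := by
  have h0 : |(ξ a).c2| < μ := h (a, 0)
  have h1 : |(ξ a).c1 - (ξ a).c2| < μ := h (a, 1)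
  have h2 : |(ξ a).c0 - (ξ a).c1 + 3 * (ξ a).c2| < μ := h (a, 2)
  rw [abs_lt] at h0 h1 h2
  fin_cases i <;> simp only [Cub.co, abs_lt] <;> constructor <;> simp <;> linarith

theorem cartan_inv_mulVec {A : Type} [CommRing A] [Algebra ℚ A] (g : GL I A) (ξ : I → A) :
    ((cartan g)⁻¹).1 *ᵥ (fun a => (2 / dJ a) • ξ a) = fun a => (2 / dJ a) • (g.1ᵀ *ᵥ ξ) a := by
  have h0 : ∀ a, dJ a ≠ 0 := fun a => by cases a <;> simp [dJ]
  have e : ((cartan g)⁻¹).1 = ((DJ A)⁻¹).1 * g.1ᵀ * (DJ A).1 := by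
    rw [cartan, _root_.mul_inv_rev, _root_.mul_inv_rev, inv_inv, ← mul_assoc]
    rfl
  have e1 : (DJ A).1 *ᵥ (fun a => (2 / dJ a) • ξ a) = (2 : ℚ) • ξ := by
    funext a
    change (diagonal (fun a => algebraMap ℚ A (dJ a)) *ᵥ _) a = _
    rw [mulVec_diagonal, ← Algebra.smul_def, smul_smul, mul_div_cancel₀ _ (h0 a), Pi.smul_apply]
  rw [e, ← mulVec_mulVec, ← mulVec_mulVec, e1, mulVec_smul]
  funext a
  change (diagonal (fun a => algebraMap ℚ A (dJ a)⁻¹) *ᵥ _) a = _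
  rw [mulVec_diagonal, ← Algebra.smul_def, Pi.smul_apply, smul_smul, div_eq_inv_mul]

theorem intC_smul {p : ℕ} [Fact p.Prime] {x : Cub ℚ_[p]} (hx : IntC x) {t : ℚ}
    (ht : ‖(t : ℚ_[p])‖ ≤ 1) : IntC (t • x) := by
  rw [Algebra.smul_def, Cub.algebraMap_eq]
  exact (intC_C.2 ht).mul hx

theorem cartan_int {p : ℕ} [Fact p.Prime] (hp : p ≠ 2) {g : GL I (Cub ℚ_[p])} (hg : g ∈ IntG p) :
    cartan g ∈ IntG p := by
  have h2 : ‖(2 : ℚ_[p])‖ = 1 := by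
    have := Padic.norm_natCast_eq_one_iff (p := p) (n := 2)
    rw [Nat.cast_ofNat] at this
    exact this.2 ((Nat.coprime_primes Fact.out Nat.prime_two).2 hp)
  have hd : ∀ (d : I → ℚ), (∀ a, ‖(d a : ℚ_[p])‖ ≤ 1) →
      IntX (diagonal fun a => algebraMap ℚ (Cub ℚ_[p]) (d a)) := fun d h a c => by
    rw [diagonal_apply]
    split_ifs
    · exact intC_C.2 (h a)
    · exact intC_zero
  have hD : DJ (Cub ℚ_[p]) ∈ IntG p :=
    ⟨hd dJ fun a => by cases a <;> simp [dJ, h2], hd (fun a => (dJ a)⁻¹) fun a => by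
      cases a <;> simp [dJ, h2]⟩
  exact mul_mem (mul_mem (inv_mem hD) (show dag g ∈ IntG p from
    ⟨fun a c => hg.2 c a, fun a c => hg.1 c a⟩)) hD

end Pool.Agent.P.MP_3c2f8c_gt.Ex.CpEAux
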