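import Pool.Agent.P.MP_3c2f8c_gt.Ex.Gl.CpC
import Pool.Agent.P.MP_3c2f8c_gt.Ex.Gl.CpD
import Pool.Agent.P.MP_3c2f8c_gt.Ex.Gl.CpEa

/-! Ex-Gl-CpE: bounded bases of the adelic lattices. -/

namespace Pool.Agent.P.MP_3c2f8c_gt.Ex

open Matrix

namespace CpEAux

theorem vmap_smul (k : Type) [CommRing k] [Algebra ℚ k] (d : I → ℚ) (ξ : I → Cub ℚ) :
    vmap k (fun a => d a • ξ a) = fun a => d a • vmap k ξ a := by
  funext a
  simp only [vmap, Algebra.smul_def, map_mul, RingHom.map_rat_algebraMap]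

theorem minB_dual {b : ℚ} (hb : Good b) : ∃ μ : ℝ, 0 < μ ∧
    ∀ (u : ∀ p : Nat.Primes, Gt b ℚ_[p]) (n : ℚ) (h : Gt b ℝ), APt u n h →
      Mah.MinB μ (fun p => (cm (u p).1.1)ᵀ) (cm h.1.1)ᵀ := by
  obtain ⟨μ, hμ, H⟩ := no_short hb.inv
  refine ⟨μ / 8, by positivity, fun u n h hu w hw hi => ?_⟩
  choose u' hu' hn' using fun p : Nat.Primes => Gt.exists_cartan hb.ne (u p)
  obtain ⟨h', hh', hm'⟩ := Gt.exists_cartan hb.ne h
  have hA : APt u' n⁻¹ h' := by
    refine ⟨(hu.fin.insert ⟨2, Nat.prime_two⟩).subset fun p hp => ?_, fun p => ?_, ?_⟩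
    · by_contra hc
      simp only [Set.mem_insert_iff, Set.mem_ofPred_eq, not_or, not_not] at hc
      exact hp (hu' p ▸ cartan_int (fun e => hc.1 (Subtype.ext e)) hc.2)
    · rw [eq_inv_of_mul_eq_one_left (hn' p), norm_inv, hu.hn p, Rat.cast_inv, norm_inv]
    · rw [eq_inv_of_mul_eq_one_left hm', hu.hh, Rat.cast_inv]
  obtain ⟨ξ, rfl⟩ := exists_dv w
  have h0 : ∀ a, dJ a ≠ 0 := fun a => by cases a <;> simp [dJ]
  obtain ⟨a, i, h1⟩ := H u' n⁻¹ h' hA (fun a => (2 / dJ a) • ξ a) (fun e => hw (by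
    have : ξ = 0 := funext fun a => by
      have := congrFun e a
      exact (smul_eq_zero.1 this).resolve_left (div_ne_zero two_ne_zero (h0 a))
    funext ⟨a, i⟩
    rw [this]
    fin_cases i <;> simp [dv])) fun p a => by
      rw [hu', vmap_smul, cartan_inv_mulVec]
      refine intC_smul (intV_of_dv (fun k => ?_) a) ?_
      · rw [← cm_transpose, dv_vmap]
        exact hi p k
      · have h2 := ShortAux.norm_nat_le (p := p) 2
        cases a
        · simpa [dJ] using h2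
        · simp [dJ]
  by_contra hc
  simp only [not_exists, not_le] at hc
  have h2 := co_lt_of_dv (ξ := h.1.1ᵀ *ᵥ vmap ℝ ξ) (μ := μ / 8) (fun k => by
    rw [← cm_transpose, dv_vmap]
    exact hc k) a i
  rw [hh', vmap_smul, cartan_inv_mulVec] at h1
  have h3 : Cub.co ((2 / dJ a) • (h.1.1ᵀ *ᵥ vmap ℝ ξ) a) i =
      ((2 / dJ a : ℚ) : ℝ) * Cub.co ((h.1.1ᵀ *ᵥ vmap ℝ ξ) a) i := by
    fin_cases i <;> exact Rat.smul_def _ _
  have h4 : |((2 / dJ a : ℚ) : ℝ)| ≤ 2 := by cases a <;> simp [dJ]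
  simp only [h3, abs_mul] at h1
  nlinarith [abs_nonneg (Cub.co ((h.1.1ᵀ *ᵥ vmap ℝ ξ) a) i)]

theorem cv_col (k : Type) [Field k] [Algebra ℚ k] (g : Matrix I I (Cub k)) (e : Matrix KI KI ℚ)
    (l j : KI) : cv k (g *ᵥ vmap k ((cv ℚ).symm fun j => e j l)) j = (cm g * e.map (ra k)) j l := by
  rw [← cm_mulVec, cv_vmap, LinearEquiv.apply_symm_apply]
  rfl

theorem expand (k : Type) [Field k] [Algebra ℚ k] (g : Matrix I I (Cub k)) (e : GL KI ℚ)
    (v : I → Cub k) : g *ᵥ v = ∑ l, (((e⁻¹).1.map (ra k) * cm g) *ᵥ cv k v) l •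
      vmap k ((cv ℚ).symm fun j => e.1 j l) := by
  apply (cv k).injective
  have h : e.1.map (ra k) *ᵥ (((e⁻¹).1.map (ra k) * cm g) *ᵥ cv k v) = cv k (g *ᵥ v) := by
    rw [mulVec_mulVec, ← Matrix.mul_assoc, ← Matrix.map_mul, Units.mul_inv,
      Matrix.map_one _ (map_zero _) (map_one _), Matrix.one_mul, cm_mulVec]
  rw [← h, map_sum]
  funext j
  simp only [map_smul, cv_vmap, LinearEquiv.apply_symm_apply, Finset.sum_apply, Pi.smul_apply,
    smul_eq_mul]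
  rw [mulVec, dotProduct]
  exact Finset.sum_congr rfl fun l _ => mul_comm _ _

end CpEAux

open CpEAux in
theorem exists_lbasis {b : ℚ} (hb : Good b) : ∃ C : ℝ,
    ∀ (u : ∀ p : Nat.Primes, Gt b ℚ_[p]) (n : ℚ) (h : Gt b ℝ), APt u n h →
      ∃ ε, LBasis u h C ε := by
  obtain ⟨μ, hμ, H⟩ := no_short hb
  obtain ⟨μ', hμ', H'⟩ := minB_dual hb
  obtain ⟨C, hC⟩ := Mah.mahler KI (lt_min hμ hμ')
  refine ⟨max C (Fintype.card KI * C), fun u n h hu => ?_⟩
  obtain ⟨e, i1, b1, b2⟩ := hC (fun p => cm ((u p).1⁻¹).1) (fun p => cm (u p).1.1)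
    (cm (h.1⁻¹).1) (cm h.1.1) (fun p => cm_mul_cm (Units.inv_mul _)) (cm_mul_cm (Units.inv_mul _))
    (hu.fin.subset fun p hp hi => hp (intQ_cm hi.2)) (hu.fin.subset fun p hp hi => hp (intQ_cm hi.1))
    (fun w hw hi => by
      obtain ⟨v, rfl⟩ := (cv ℚ).surjective w
      obtain ⟨a, i, h1⟩ := H u n h hu v (fun e => hw (by rw [e, map_zero])) fun p =>
        (intV_iff _).2 fun k => by
          rw [← cm_mulVec, cv_vmap]
          exact hi p k
      refine ⟨(a, i), (min_le_left _ _).trans (h1.trans_eq ?_)⟩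
      rw [← cv_apply _ (a, i), ← cm_mulVec, cv_vmap]
      rfl)
    (fun w hw hi => by
      obtain ⟨k, hk⟩ := H' u n h hu w hw hi
      exact ⟨k, (min_le_right _ _).trans hk⟩)
  have hv : ∀ v : I → Cub ℚ, vmap ℚ v = v := fun v => by
    funext a
    ext <;> rfl
  refine ⟨fun l => (cv ℚ).symm fun j => e.1 j l, ?_, fun v => ?_, fun p l => ?_, fun p v hv => ?_,
    fun l a i => ?_, fun v hv => ?_⟩
  · exact (Matrix.linearIndependent_cols_iff_isUnit.2 e.isUnit).map' (cv ℚ).symm.toLinearMap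
      (cv ℚ).symm.ker
  · have := expand ℚ 1 e v
    rw [one_mulVec] at this
    simp only [hv] at this
    exact ⟨_, this⟩
  · exact (intV_iff _).2 fun j => by
      rw [cv_col]
      exact (i1 p).1 j l
  · exact ⟨_, fun l => ShortAux.sum_le ((i1 p).2 l) ((intV_iff v).1 hv), expand ℚ_[p] _ e v⟩
  · rw [← cv_apply _ (a, i), cv_col]
    exact (b1 _ _).trans (le_max_left _ _)
  · refine ⟨_, fun l => le_trans ?_ (le_max_right _ _), expand ℝ _ e v⟩
    have e1 : (Fintype.card KI : ℝ) * C = ∑ _j : KI, C := by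
      rw [Finset.sum_const, Finset.card_univ, nsmul_eq_mul]
    rw [e1, mulVec, dotProduct]
    refine (Finset.abs_sum_le_sum_abs _ _).trans (Finset.sum_le_sum fun j _ => ?_)
    rw [abs_mul]
    exact (mul_le_of_le_one_right (abs_nonneg _) (hv j.1 j.2)).trans (b2 l j)

end Pool.Agent.P.MP_3c2f8c_gt.Ex
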