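import Pool.Agent.P.MP_3c2f8c_gt.Ex.Gl.Nu
import Pool.Agent.P.MP_3c2f8c_gt.Ex.Gl.CpEa

/-! Auxiliary lemmas on bases of adelic lattices. -/

namespace Pool.Agent.P.MP_3c2f8c_gt.Ex.CpFAux

open Matrix CpEAux

section Alg

variable (k : Type) [CommRing k] [Algebra ℚ k]

theorem vmap_eq (v : I → Cub ℚ) : vmap k v = Cub.map (algebraMap ℚ k) ∘ v := rfl

theorem vmap_sum (x : KI → ℚ) (ε : KI → I → Cub ℚ) :
    vmap k (∑ l, x l • ε l) = ∑ l, algebraMap ℚ k (x l) • vmap k (ε l) := by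
  apply (cv k).injective
  rw [cv_vmap, map_sum, map_sum]
  funext j
  simp only [map_smul, cv_vmap, Finset.sum_apply, Pi.smul_apply, smul_eq_mul, map_sum, map_mul]

theorem vmap_mulVec (g : Matrix I I (Cub ℚ)) (v : I → Cub ℚ) :
    vmap k (g *ᵥ v) = g.map (Cub.map (algebraMap ℚ k)) *ᵥ vmap k v := by
  funext a
  exact RingHom.map_mulVec _ g v a

theorem vmap_eta (v : I → Cub ℚ) :
    vmap k ((Cub.eta : Cub ℚ) • v) = (Cub.eta : Cub k) • vmap k v := by
  funext a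
  have : Cub.map (algebraMap ℚ k) Cub.eta = Cub.eta := by ext <;> simp [Cub.eta]
  simp only [vmap, Pi.smul_apply, smul_eq_mul, map_mul, this]

theorem vmap_phiV (b : ℚ) (v : I → Cub ℚ) :
    vmap k (PhiV Cub.sig (ph b (Cub ℚ)) v) = PhiV Cub.sig (ph b (Cub k)) (vmap k v) := by
  rw [PhiV, vmap_mulVec, ph_map, PhiV]
  congr 1
  funext a
  exact Cub.map_sig _ _

theorem map_tri (x y z : I → Cub ℚ) : Cub.map (algebraMap ℚ k) (tri (nJ _) x y z) =
    tri (nJ _) (vmap k x) (vmap k y) (vmap k z) := by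
  simp [tri, vmap, nJ]

end Alg

theorem li_vmap (k : Type) [Field k] [Algebra ℚ k] {ε : KI → I → Cub ℚ}
    (li : LinearIndependent ℚ ε) : LinearIndependent k fun l => vmap k (ε l) := by
  have h1 : IsUnit (Matrix.of fun j l => cv ℚ (ε l) j) :=
    Matrix.linearIndependent_cols_iff_isUnit.1 (li.map' (cv ℚ).toLinearMap (cv ℚ).ker)
  have h2 := Matrix.linearIndependent_cols_iff_isUnit.2 (h1.map (algebraMap ℚ k).mapMatrix)
  refine LinearIndependent.of_comp (cv k).toLinearMap ?_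
  convert h2 using 1
  funext l
  exact cv_vmap k (ε l)

theorem ind {ε : KI → I → Cub ℚ} (sp : ∀ v : I → Cub ℚ, ∃ c : KI → ℚ, v = ∑ k, c k • ε k)
    {P : (I → Cub ℚ) → Prop} (h0 : ∀ k, P (ε k)) (ha : ∀ x y, P x → P y → P (x + y))
    (hs : ∀ (c : ℚ) x, P x → P (c • x)) (v : I → Cub ℚ) : P v := by
  obtain ⟨c, rfl⟩ := sp v
  refine Finset.sum_induction _ P ha ?_ fun k _ => hs _ _ (h0 k)
  simpa using hs 0 _ (h0 (.inl 0, 0))

theorem exists_mat {ε ε' : KI → I → Cub ℚ} (li' : LinearIndependent ℚ ε')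
    (sp' : ∀ v : I → Cub ℚ, ∃ c : KI → ℚ, v = ∑ k, c k • ε' k) (x : KI → KI → ℚ)
    (hx : ∀ k, (Cub.eta : Cub ℚ) • ε k = ∑ l, x k l • ε l)
    (hx' : ∀ k, (Cub.eta : Cub ℚ) • ε' k = ∑ l, x k l • ε' l) :
    ∃ g : Matrix I I (Cub ℚ), ∀ k, g *ᵥ ε' k = ε k := by
  let B := Module.Basis.mk li' (fun v _ => by
    obtain ⟨c, rfl⟩ := sp' v
    exact Submodule.sum_mem _ fun k _ => Submodule.smul_mem _ _ (Submodule.subset_span ⟨k, rfl⟩))
  let f := B.constr ℚ ε
  have hf : ∀ k, f (ε' k) = ε k := fun k => by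
    have := B.constr_basis ℚ ε k
    rwa [Module.Basis.mk_apply] at this
  have he : ∀ v, f ((Cub.eta : Cub ℚ) • v) = (Cub.eta : Cub ℚ) • f v := ind sp'
    (fun k => by simp only [hx', map_sum, map_smul, hf, hx])
    (fun x y hx hy => by rw [smul_add, map_add, hx, hy, map_add, smul_add])
    fun c x hx => by rw [smul_comm, map_smul, hx, map_smul, smul_comm]
  have dec : ∀ (c : Cub ℚ) (v : I → Cub ℚ), c • v = c.c0 • v + c.c1 • (Cub.eta : Cub ℚ) • v +
      c.c2 • (Cub.eta : Cub ℚ) • (Cub.eta : Cub ℚ) • v := fun c v => by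
    funext a
    ext <;> simp [Cub.eta] <;> ring
  let F : (I → Cub ℚ) →ₗ[Cub ℚ] (I → Cub ℚ) :=
    { toFun := f
      map_add' := f.map_add
      map_smul' := fun c v => by
        rw [dec c v, RingHom.id_apply, dec c (f v)]
        simp only [map_add, map_smul, he] }
  exact ⟨LinearMap.toMatrix' F, fun k => by rw [LinearMap.toMatrix'_mulVec]; exact hf k⟩

section Padic

variable {p : ℕ} [Fact p.Prime]

theorem intC_smul' {x : Cub ℚ_[p]} (hx : IntC x) {t : ℚ_[p]} (ht : ‖t‖ ≤ 1) : IntC (t • x) := by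
  rw [Algebra.smul_def, Cub.algebraMap_eq]
  exact (intC_C.2 ht).mul hx

theorem intC_sum {ι : Type} (s : Finset ι) {f : ι → Cub ℚ_[p]} (h : ∀ i, IntC (f i)) :
    IntC (∑ i ∈ s, f i) :=
  Finset.sum_induction _ IntC (fun _ _ => IntC.add) intC_zero fun i _ => h i

theorem intC_tri {x y z : I → Cub ℚ_[p]} (hx : IntV x) (hy : IntV y) (hz : IntV z) :
    IntC (tri (nJ _) x y z) :=
  intC_sum _ fun a => intC_sum _ fun b => intC_sum _ fun c => IntC.mul
    ⟨Padic.norm_int_le_one _, by simp [nJ], by simp [nJ]⟩ (((hx a).mul (hy b)).mul (hz c))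

theorem intV_single (c : I) : IntV (Pi.single c 1 : I → Cub ℚ_[p]) := fun a => by
  rw [Pi.single_apply]
  split_ifs
  exacts [intC_one, intC_zero]

end Padic

theorem exists_den (g : Matrix I I (Cub ℚ)) : ∃ D : ℕ, 0 < D ∧ ∀ p : Nat.Primes,
    IntX ((D : ℚ_[p]) • g.map (Cub.map (algebraMap ℚ ℚ_[p]))) := by
  obtain ⟨D, hD, -, h⟩ := ShortAux.exists_mult (κ := I × KI)
    (fun q k => cv ℚ_[q] (g.map (Cub.map (algebraMap ℚ ℚ_[q])) k.1) k.2)
    ((finite_not_intX g).subset fun p hp h => hp fun k => (intV_iff _).1 (h k.1) k.2) ∅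
  exact ⟨D, hD, fun p a c => ⟨h p (Finset.notMem_empty _) (a, c, 0),
    h p (Finset.notMem_empty _) (a, c, 1), h p (Finset.notMem_empty _) (a, c, 2)⟩⟩

theorem isCompact_bdV (C : ℝ) : IsCompact {v : I → Cub ℝ | BdV C v} := by
  have h : Continuous fun w : KI → ℝ => (cv ℝ).symm w := continuous_pi fun a =>
    Cub.continuous_iff.2 ⟨continuous_apply (a, 0), continuous_apply (a, 1), continuous_apply (a, 2)⟩
  convert (isCompact_univ_pi fun _ : KI => isCompact_Icc (a := -C) (b := C)).image h using 1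
  ext v
  constructor
  · intro hv
    exact ⟨cv ℝ v, fun k _ => abs_le.1 (hv k.1 k.2), (cv ℝ).symm_apply_apply v⟩
  · rintro ⟨w, hw, rfl⟩ a i
    rw [← cv_apply _ (a, i), LinearEquiv.apply_symm_apply]
    exact abs_le.2 (hw (a, i) trivial)

theorem exists_bd {X ι : Type} [TopologicalSpace X] [Finite ι] {K : Set X} (hK : IsCompact K)
    {F : X → ι → Cub ℝ} (hF : Continuous F) :
    ∃ B : ℝ, 0 < B ∧ ∀ x ∈ K, ∀ a i, |Cub.co (F x a) i| ≤ B := by
  have := Fintype.ofFinite ι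
  have h : Continuous fun x (k : ι × Fin 3) => Cub.co (F x k.1) k.2 := continuous_pi fun k =>
    (continuous_apply k.2).comp (Cub.isInducing_co.continuous.comp
      ((continuous_apply k.1).comp hF))
  obtain ⟨B, hB⟩ := hK.exists_bound_of_continuousOn h.continuousOn
  refine ⟨max B 1, by positivity, fun x hx a i => le_trans ?_ ((hB x hx).trans (le_max_left _ _))⟩
  exact norm_le_pi_norm (fun k : ι × Fin 3 => Cub.co (F x k.1) k.2) (a, i)

theorem continuous_sig : Continuous (Cub.sig : Cub ℝ → Cub ℝ) := by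
  have h0 := Cub.continuous_c0 (R := ℝ)
  have h1 := Cub.continuous_c1 (R := ℝ)
  have h2 := Cub.continuous_c2 (R := ℝ)
  refine Cub.continuous_iff.2 ⟨?_, ?_, ?_⟩ <;>
    simp only [Cub.sig_c0, Cub.sig_c1, Cub.sig_c2] <;> fun_prop

theorem bd_eta (C : ℝ) : ∃ B : ℝ, 0 < B ∧ ∀ v, BdV C v → BdV B ((Cub.eta : Cub ℝ) • v) :=
  exists_bd (isCompact_bdV C) (F := fun v => (Cub.eta : Cub ℝ) • v) (continuous_const_smul _)

theorem bd_phiV (φ : Matrix I I (Cub ℝ)) (C : ℝ) :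
    ∃ B : ℝ, 0 < B ∧ ∀ v, BdV C v → BdV B (PhiV Cub.sig φ v) :=
  exists_bd (isCompact_bdV C) (F := fun v => PhiV Cub.sig φ v) (continuous_const.matrix_mulVec
    (continuous_pi fun a => continuous_sig.comp (continuous_apply a)))

theorem bd_tri (n : T3 (Cub ℝ)) (C : ℝ) : ∃ B : ℝ, ∀ x y z, BdV C x → BdV C y → BdV C z →
    ∀ i, |Cub.co (tri n x y z) i| ≤ B := by
  obtain ⟨B, -, h⟩ := exists_bd ((isCompact_bdV C).prod ((isCompact_bdV C).prod (isCompact_bdV C)))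
    (F := fun w (_ : Unit) => tri n w.1 w.2.1 w.2.2) (continuous_pi fun _ => by
      unfold tri
      fun_prop)
  exact ⟨B, fun x y z hx hy hz i => h (x, y, z) ⟨hx, hy, hz⟩ () i⟩

theorem bd_iota (C : ℝ) : ∃ B : ℝ, ∀ v, BdV C v → ∀ a, |iota (v a)| ≤ B := by
  obtain ⟨B, -, h⟩ := exists_bd (isCompact_bdV C) (F := fun v a => Cub.C (iota (v a)))
    (continuous_pi fun a => Cub.continuous_iff.2
      ⟨continuous_iota.comp (continuous_apply a), continuous_const, continuous_const⟩)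
  exact ⟨B, fun v hv a => h v hv a 0⟩

end Pool.Agent.P.MP_3c2f8c_gt.Ex.CpFAux
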